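import Pool.Agent.UVR.Stmts

/-!
# ARI: the arithmetic descent
-/

set_option autoImplicit false

namespace Pool.Agent.UVR.ARIM

/-- Descent for the anisotropic form. -/
theorem desc (q : ℤ) (hq0 : q ≠ 0) (A B C : ℤ)
    (han : ∀ x y : ℤ, q ∣ A * x ^ 2 + B * (x * y) + C * y ^ 2 → q ∣ x ∧ q ∣ y) :
    ∀ (J : ℕ) (a b : ℤ), q ^ (2 * J) ∣ A * a ^ 2 + B * (a * b) + C * b ^ 2 →
      q ^ J ∣ a ∧ q ^ J ∣ b := by
  intro J
  induction J with
  | zero => intro a b _; simp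
  | succ J ih =>
    intro a b h
    have h1 : q ∣ A * a ^ 2 + B * (a * b) + C * b ^ 2 :=
      dvd_trans (dvd_pow_self q (by omega)) h
    obtain ⟨⟨a', rfl⟩, ⟨b', rfl⟩⟩ := han a b h1
    have h2 : q ^ 2 * q ^ (2 * J) ∣ q ^ 2 * (A * a' ^ 2 + B * (a' * b') + C * b' ^ 2) := by
      have e1 : q ^ 2 * q ^ (2 * J) = q ^ (2 * (J + 1)) := by rw [← pow_add]; congr 1; ring
      have e2 : q ^ 2 * (A * a' ^ 2 + B * (a' * b') + C * b' ^ 2) =
          A * (q * a') ^ 2 + B * (q * a' * (q * b')) + C * (q * b') ^ 2 := by ring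
      rw [e1, e2]
      exact h
    have h3 := (mul_dvd_mul_iff_left (pow_ne_zero 2 hq0)).1 h2
    obtain ⟨ha, hb⟩ := ih a' b' h3
    constructor
    · rw [pow_succ']; exact mul_dvd_mul_left q ha
    · rw [pow_succ']; exact mul_dvd_mul_left q hb

/-- The divisibility of the third variable. -/
theorem third (q : ℤ) (hq : Prime q) (A B C κ : ℤ)
    (han : ∀ x y : ℤ, q ∣ A * x ^ 2 + B * (x * y) + C * y ^ 2 → q ∣ x ∧ q ∣ y)
    (hk : q ∣ κ) (hk2 : ¬ q ^ 2 ∣ κ) :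
    ∀ (m : ℕ) (a b c : ℤ), q ^ m ∣ A * a ^ 2 + B * (a * b) + C * b ^ 2 + c ^ 2 * κ →
      q ^ (m / 2) ∣ c := by
  intro m
  induction m using Nat.strong_induction_on with
  | _ m ih =>
    intro a b c h
    rcases Nat.lt_or_ge m 2 with hm | hm
    · have : m / 2 = 0 := by omega
      rw [this]; simp
    · obtain ⟨n, rfl⟩ : ∃ n, m = n + 2 := ⟨m - 2, by omega⟩
      have h1 : q ∣ A * a ^ 2 + B * (a * b) + C * b ^ 2 + c ^ 2 * κ :=
        dvd_trans (dvd_pow_self q (by omega)) h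
      have h2 : q ∣ A * a ^ 2 + B * (a * b) + C * b ^ 2 :=
        (Int.dvd_add_left (dvd_mul_of_dvd_right hk _)).1 h1
      obtain ⟨⟨a', rfl⟩, ⟨b', rfl⟩⟩ := han a b h2
      have h3 : q ^ 2 ∣ A * (q * a') ^ 2 + B * (q * a' * (q * b')) + C * (q * b') ^ 2 :=
        ⟨A * a' ^ 2 + B * (a' * b') + C * b' ^ 2, by ring⟩
      have h4 : q ^ 2 ∣ A * (q * a') ^ 2 + B * (q * a' * (q * b')) + C * (q * b') ^ 2 + c ^ 2 * κ :=
        dvd_trans (pow_dvd_pow q (by omega)) h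
      have h5 : q ^ 2 ∣ c ^ 2 * κ := (Int.dvd_add_right h3).1 h4
      have h6 : q ∣ c := by
        by_contra hc
        apply hk2
        have hcop : IsCoprime (q ^ 2) (c ^ 2) :=
          IsCoprime.pow ((Prime.coprime_iff_not_dvd hq).2 hc)
        exact hcop.dvd_of_dvd_mul_left h5
      obtain ⟨c', rfl⟩ := h6
      have h7 : q ^ 2 * q ^ n ∣
          q ^ 2 * (A * a' ^ 2 + B * (a' * b') + C * b' ^ 2 + c' ^ 2 * κ) := by
        have e1 : q ^ 2 * q ^ n = q ^ (n + 2) := by rw [← pow_add]; congr 1; ring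
        have e2 : q ^ 2 * (A * a' ^ 2 + B * (a' * b') + C * b' ^ 2 + c' ^ 2 * κ) =
          A * (q * a') ^ 2 + B * (q * a' * (q * b')) + C * (q * b') ^ 2 + (q * c') ^ 2 * κ := by
          ring
        rw [e1, e2]
        exact h
      have h8 := (mul_dvd_mul_iff_left (pow_ne_zero 2 hq.ne_zero)).1 h7
      have h9 := ih n (by omega) a' b' c' h8
      have e3 : (n + 2) / 2 = n / 2 + 1 := by omega
      rw [e3, pow_succ']
      exact mul_dvd_mul_left q h9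

end Pool.Agent.UVR.ARIM

namespace Pool.Agent.UVR

theorem ARI_thm : Stmt_ARI := by
  intro q hqp A B C κ a b c m1 m2 m3 J han hk hk2 h
  have hq : Prime (q : ℤ) := Nat.prime_iff_prime_int.1 hqp
  have hq0 : (q : ℤ) ≠ 0 := hq.ne_zero
  have h1 : (q : ℤ) ^ (2 * J) ∣ A * a ^ 2 + B * (a * b) + C * b ^ 2 := by
    refine ⟨-(c ^ 2 * κ + a * m1 + b * m2) - (q : ℤ) ^ J * m3, ?_⟩
    have e : (q : ℤ) ^ (3 * J) = (q : ℤ) ^ (2 * J) * (q : ℤ) ^ J := by
      rw [← pow_add]; congr 1; ring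
    rw [e] at h
    linear_combination h
  obtain ⟨ha, hb⟩ := ARIM.desc (q : ℤ) hq0 A B C han J a b h1
  refine ⟨ha, hb, ?_⟩
  obtain ⟨a', rfl⟩ := ha
  obtain ⟨b', rfl⟩ := hb
  apply ARIM.third (q : ℤ) hq A B C κ han hk hk2 J a' b' c
  refine ⟨-(a' * m1 + b' * m2) - m3, ?_⟩
  have e : (q : ℤ) ^ (3 * J) = (q : ℤ) ^ (2 * J) * (q : ℤ) ^ J := by
    rw [← pow_add]; congr 1; ring
  have e2 : (q : ℤ) ^ (2 * J) = (q : ℤ) ^ J * (q : ℤ) ^ J := by
    rw [← pow_add]; congr 1; ring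
  have hne : (q : ℤ) ^ (2 * J) ≠ 0 := pow_ne_zero _ hq0
  apply mul_left_cancel₀ hne
  rw [e] at h
  rw [e2] at h ⊢
  linear_combination h

end Pool.Agent.UVR
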