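import Pool.Agent.UVR.Stmts

/-!
# Rare fixed points in every free group of isometries of `ℚ³`: module ARK
-/

set_option autoImplicit false

namespace Pool.Agent.UVR

namespace ARKM

open Matrix

theorem kap_add (X Y : V6) : kap (X + Y) = kap X + bil X Y + kap Y := by
  simp only [kap, bil, Prod.fst_add, Prod.snd_add, dotProduct, Fin.sum_univ_three, Pi.add_apply]
  ring

theorem bil_sub (X Y X0 Y0 : V6) : bil X Y - bil X0 Y0 = bil (X - X0) Y + bil X0 (Y - Y0) := by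
  simp only [bil, Prod.fst_sub, Prod.snd_sub, dotProduct, Fin.sum_univ_three, Pi.sub_apply]
  ring

theorem crs_sub (X Y X0 Y0 : V6) : crs X Y - crs X0 Y0 = crs (X - X0) Y + crs X0 (Y - Y0) := by
  ext i
  · simp only [crs, Prod.fst_sub, Prod.snd_sub, Prod.fst_add, Pi.sub_apply, Pi.add_apply]
    fin_cases i <;> simp [cross_apply] <;> ring
  · simp only [crs, Prod.fst_sub, Prod.snd_sub, Prod.snd_add, Pi.sub_apply, Pi.add_apply]
    fin_cases i <;> simp [cross_apply] <;> ring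

theorem kap_cong {K : ℕ} {X X0 : V6} (h0 : Dv6 K 0 X0) (h : Dv6 K 2 (X - X0)) :
    Dv K 2 (kap X - kap X0) := by
  have h1 : kap X - kap X0 = bil X0 (X - X0) + kap (X - X0) := by
    have h2 := kap_add X0 (X - X0)
    rw [add_sub_cancel] at h2
    rw [h2]
    ring
  rw [h1]
  have h3 := Dv6.bil h0 h
  have h4 := Dv6.kap h.1 h.2
  exact (h3.mono (by norm_num)).add (h4.mono (by norm_num))

theorem bil_cong {K : ℕ} {X Y X0 Y0 : V6} (hX0 : Dv6 K 0 X0) (hY : Dv6 K 0 Y)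
    (h : Dv6 K 2 (X - X0)) (h' : Dv6 K 2 (Y - Y0)) : Dv K 2 (bil X Y - bil X0 Y0) := by
  rw [bil_sub]
  exact ((Dv6.bil h hY).mono (by norm_num)).add ((Dv6.bil hX0 h').mono (by norm_num))

theorem crs_cong {K : ℕ} {X Y X0 Y0 : V6} (hX0 : Dv6 K 0 X0) (hY : Dv6 K 0 Y)
    (h : Dv6 K 2 (X - X0)) (h' : Dv6 K 2 (Y - Y0)) : Dv6 K 2 (crs X Y - crs X0 Y0) := by
  rw [crs_sub]
  exact ((Dv6.crs h hY).mono (by norm_num)).add ((Dv6.crs hX0 h').mono (by norm_num))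

theorem expand (U V E : V6) (s a b c : ℚ) :
    kap (s • (a • U + b • V) + (s ^ 2) • (c • crs U V) + (s ^ 3) • E) =
      s ^ 2 * (kap U * a ^ 2 + bil U V * (a * b) + kap V * b ^ 2 +
        s ^ 2 * (c ^ 2 * kap (crs U V) + a * bil U E + b * bil V E) +
        s ^ 3 * (c * bil (crs U V) E + s * kap E)) := by
  simp only [kap, bil, crs, Prod.fst_add, Prod.snd_add, Prod.smul_fst, Prod.smul_snd, dotProduct,
    Fin.sum_univ_three, Pi.add_apply, Pi.smul_apply, smul_eq_mul, cross0, cross1, cross2]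
  ring

theorem U0_int (K : ℕ) : Dv6 K 0 U0 := by
  have h0 : Dv K 0 (0 : ℚ) := Dv.zero K 0
  have h1 : Dv K 0 (1 : ℚ) := Dv_zero_iff.2 (RK K).one_mem
  refine ⟨fun i => ?_, fun i => ?_⟩ <;> fin_cases i <;> simp [U0] <;>
    first | exact h0 | exact h1

theorem V0_int (K : ℕ) (k z : ℤ) : Dv6 K 0 (V0 k z) := by
  have h0 : Dv K 0 (0 : ℚ) := Dv.zero K 0
  have h1 : Dv K 0 (1 : ℚ) := Dv_zero_iff.2 (RK K).one_mem
  have hz : Dv K 0 (z : ℚ) := Dv_zero_iff.2 (RK_int K z)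
  have hk : Dv K 0 (k : ℚ) := Dv_zero_iff.2 (RK_int K k)
  have hm : Dv K 0 (2 * (k : ℚ) - 1 - (z : ℚ) ^ 2) := by
    have h := Dv_zero_iff.2 (RK_int K (2 * k - 1 - z ^ 2))
    push_cast at h
    exact h
  refine ⟨fun i => ?_, fun i => ?_⟩ <;> fin_cases i <;> simp [V0] <;>
    first | exact h0 | exact h1 | exact hz | exact hk | exact hm

theorem kap_U0 : kap U0 = 1 := by
  simp [kap, U0, dotProduct, Fin.sum_univ_three]

theorem kap_V0 (k z : ℤ) : kap (V0 k z) = ((2 * k - 1 - z ^ 2 : ℤ) : ℚ) := by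
  simp [kap, V0, dotProduct, Fin.sum_univ_three]

theorem bil_UV0 (k z : ℤ) : bil U0 (V0 k z) = (k : ℚ) := by
  simp [bil, U0, V0, dotProduct, Fin.sum_univ_three]

theorem kap_W0 (k z : ℤ) : kap (crs U0 (V0 k z)) = ((2 * k : ℤ) : ℚ) := by
  simp only [kap, crs, U0, V0, dotProduct, Fin.sum_univ_three, Pi.add_apply, cross0, cross1, cross2]
  simp
  ring

theorem dvd_of_Dv {K m : ℕ} {x : ℚ} {D n : ℤ} (h : Dv K m x) (hn : x * D = n) :
    (K : ℤ) ^ m ∣ n := by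
  obtain ⟨w, hw, rfl⟩ := h
  obtain ⟨h1, h2⟩ := RK_spec hw
  have h3 : (n : ℚ) * ((w.den : ℤ) : ℚ) = (K : ℚ) ^ m * (w.num * D) := by
    rw [← hn, ← h2]
    ring
  have h4 : n * (w.den : ℤ) = (K : ℤ) ^ m * (w.num * D) := by
    exact_mod_cast h3
  exact (h1.symm.pow_left).dvd_of_dvd_mul_right ⟨_, h4⟩

theorem exD {K : ℕ} (l : List ℚ) (h : ∀ x ∈ l, x ∈ RK K) :
    ∃ D : ℤ, IsCoprime D (K : ℤ) ∧ ∀ x ∈ l, ∃ n : ℤ, x * D = n := by
  induction l with
  | nil => exact ⟨1, isCoprime_one_left, by simp⟩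
  | cons y l ih =>
    obtain ⟨D, hD, hl⟩ := ih fun x hx => h x (List.mem_cons_of_mem _ hx)
    obtain ⟨h1, h2⟩ := RK_spec (h y List.mem_cons_self)
    refine ⟨(y.den : ℤ) * D, h1.mul_left hD, fun x hx => ?_⟩
    rcases List.mem_cons.1 hx with rfl | hx
    · refine ⟨x.num * D, ?_⟩
      push_cast
      rw [← mul_assoc]
      push_cast at h2
      rw [h2]
    · obtain ⟨n, hn⟩ := hl x hx
      refine ⟨n * (y.den : ℤ), ?_⟩
      push_cast
      rw [← hn]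
      ring

theorem dvd_all {K : ℕ} {a : ℤ} (h : ∀ q n k' : ℕ, q.Prime → q ∣ K → K = q ^ n * k' → ¬ q ∣ k' →
    (q : ℤ) ^ n ∣ a) (hK : K ≠ 0) : (K : ℤ) ∣ a := by
  rw [Int.natCast_dvd, Nat.dvd_iff_prime_pow_dvd_dvd]
  intro p e hp he
  rcases Nat.eq_zero_or_pos e with rfl | he0
  · simp
  · have hpK : p ∣ K := (dvd_pow_self p he0.ne').trans he
    obtain ⟨n, k', hk', hKe⟩ := Nat.exists_eq_pow_mul_and_not_dvd hK p hp.ne_one
    have h1 := h p n k' hp hpK hKe hk'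
    have h2 : p ^ e ∣ p ^ n := by
      rw [hKe] at he
      exact (Nat.Coprime.pow_left e ((Nat.Prime.coprime_iff_not_dvd hp).2 hk')).dvd_of_dvd_mul_right he
    have h3 : ((p ^ n : ℕ) : ℤ) ∣ a := by
      push_cast
      exact h1
    exact h2.trans (Int.natCast_dvd.1 h3)

end ARKM

open ARKM in
theorem ARK_thm : Stmt_ARK := by
  intro ari K j k z hK hj hP U V E a b t hU hV hE hkap
  have hK0 : K ≠ 0 := by omega
  have hKq : (K : ℚ) ≠ 0 := by exact_mod_cast hK0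
  have hUi : Dv6 K 0 U := by
    have h := (hU.mono (Nat.zero_le 2)).add (U0_int K)
    rwa [sub_add_cancel] at h
  have hVi : Dv6 K 0 V := by
    have h := (hV.mono (Nat.zero_le 2)).add (V0_int K k z)
    rwa [sub_add_cancel] at h
  have hWi : Dv6 K 0 (crs U V) := (Dv6.crs hUi hVi).mono (Nat.zero_le _)
  -- congruences
  have hA := kap_cong (U0_int K) hU
  have hC := kap_cong (V0_int K k z) hV
  have hB := bil_cong (U0_int K) hVi hU hV
  have hκ := kap_cong ((Dv6.crs (U0_int K) (V0_int K k z)).mono (Nat.zero_le _))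
    (crs_cong (U0_int K) hVi hU hV)
  rw [kap_U0] at hA
  rw [kap_V0] at hC
  rw [bil_UV0] at hB
  rw [kap_W0] at hκ
  have mem0 : ∀ X : V6, Dv6 K 0 X → kap X ∈ RK K := fun X hX => (Dv6.kap hX.1 hX.2).mem
  have memb : ∀ X Y : V6, Dv6 K 0 X → Dv6 K 0 Y → bil X Y ∈ RK K :=
    fun X Y hX hY => (Dv6.bil hX hY).mem
  obtain ⟨D, hD, hDl⟩ := exD (K := K) [kap U, bil U V, kap V, kap (crs U V), bil U E, bil V E,
    bil (crs U V) E, kap E] (by
      intro x hx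
      simp only [List.mem_cons, List.not_mem_nil, or_false] at hx
      rcases hx with rfl | rfl | rfl | rfl | rfl | rfl | rfl | rfl
      · exact mem0 _ hUi
      · exact memb _ _ hUi hVi
      · exact mem0 _ hVi
      · exact mem0 _ hWi
      · exact memb _ _ hUi hE
      · exact memb _ _ hVi hE
      · exact memb _ _ hWi hE
      · exact mem0 _ hE)
  obtain ⟨A', hA'⟩ := hDl (kap U) (by simp)
  obtain ⟨B', hB'⟩ := hDl (bil U V) (by simp)
  obtain ⟨C', hC'⟩ := hDl (kap V) (by simp)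
  obtain ⟨κ', hκ'⟩ := hDl (kap (crs U V)) (by simp)
  obtain ⟨m1, hm1⟩ := hDl (bil U E) (by simp)
  obtain ⟨m2, hm2⟩ := hDl (bil V E) (by simp)
  obtain ⟨m4, hm4⟩ := hDl (bil (crs U V) E) (by simp)
  obtain ⟨m5, hm5⟩ := hDl (kap E) (by simp)
  have dA : (K : ℤ) ^ 2 ∣ A' - D := dvd_of_Dv hA (D := D) (by push_cast; rw [sub_mul, hA', one_mul])
  have dB : (K : ℤ) ^ 2 ∣ B' - k * D := dvd_of_Dv hB (D := D) (by push_cast; rw [sub_mul, hB'])
  have dC : (K : ℤ) ^ 2 ∣ C' - (2 * k - 1 - z ^ 2) * D :=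
    dvd_of_Dv hC (D := D) (by push_cast; rw [sub_mul, hC'])
  have dκ : (K : ℤ) ^ 2 ∣ κ' - 2 * k * D :=
    dvd_of_Dv hκ (D := D) (by push_cast; rw [sub_mul, hκ'])
  -- the equation in integers
  set c : ℤ := a * b + 2 * t with hc
  have hpow2 : (K : ℚ) ^ (2 * j) = ((K : ℚ) ^ j) ^ 2 := by rw [← pow_mul, mul_comm]
  have hpow3 : (K : ℚ) ^ (3 * j) = ((K : ℚ) ^ j) ^ 3 := by rw [← pow_mul, mul_comm]
  rw [hpow2, hpow3, expand] at hkap
  have hs0 : ((K : ℚ) ^ j) ^ 2 ≠ 0 := pow_ne_zero _ (pow_ne_zero _ hKq)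
  have hEq := (mul_eq_zero.1 hkap).resolve_left hs0
  have hEqZ : A' * a ^ 2 + B' * (a * b) + C' * b ^ 2 +
      ((K : ℤ) ^ j) ^ 2 * (c ^ 2 * κ' + a * m1 + b * m2) +
      ((K : ℤ) ^ j) ^ 3 * (c * m4 + (K : ℤ) ^ j * m5) = 0 := by
    have h : ((A' * a ^ 2 + B' * (a * b) + C' * b ^ 2 +
      ((K : ℤ) ^ j) ^ 2 * (c ^ 2 * κ' + a * m1 + b * m2) +
      ((K : ℤ) ^ j) ^ 3 * (c * m4 + (K : ℤ) ^ j * m5) : ℤ) : ℚ) = 0 := by
      push_cast
      rw [← hA', ← hB', ← hC', ← hκ', ← hm1, ← hm2, ← hm4, ← hm5]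
      linear_combination (D : ℚ) * hEq
    exact_mod_cast h
  -- for each prime
  have key : ∀ q n k' : ℕ, q.Prime → q ∣ K → K = q ^ n * k' → ¬ q ∣ k' →
      (q : ℤ) ^ n ∣ a ∧ (q : ℤ) ^ n ∣ b ∧ (q : ℤ) ^ n ∣ t := by
    intro q n k' hq hqK hKn hk'
    obtain ⟨hP1, hP2, hP3⟩ := hP q hq hqK
    have hqz : Prime (q : ℤ) := Nat.prime_iff_prime_int.1 hq
    have hn : 1 ≤ n := by
      rcases Nat.eq_zero_or_pos n with rfl | h
      · rw [pow_zero, one_mul] at hKn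
        exact absurd (hKn ▸ hqK) hk'
      · exact h
    have hqKz : (q : ℤ) ∣ (K : ℤ) := Int.natCast_dvd_natCast.2 hqK
    have hqD : IsCoprime (q : ℤ) D := (hD.of_isCoprime_of_dvd_right hqKz).symm
    have hqk' : IsCoprime (q : ℤ) (k' : ℤ) :=
      Nat.isCoprime_iff_coprime.2 ((Nat.Prime.coprime_iff_not_dvd hq).2 hk')
    have hq2 : (q : ℤ) ^ 2 ∣ (K : ℤ) ^ 2 := pow_dvd_pow_of_dvd hqKz 2
    have hq1 : (q : ℤ) ∣ (K : ℤ) ^ 2 := (dvd_pow_self _ two_ne_zero).trans hq2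
    have e1 : ∀ x y : ℤ, (q : ℤ) ∣ A' * x ^ 2 + B' * (x * y) + C' * y ^ 2 →
        (q : ℤ) ∣ x ∧ (q : ℤ) ∣ y := by
      intro x y hxy
      apply hP1
      have h1 : (q : ℤ) ∣ D * (x ^ 2 + k * (x * y) + (2 * k - 1 - z ^ 2) * y ^ 2) := by
        have h2 : D * (x ^ 2 + k * (x * y) + (2 * k - 1 - z ^ 2) * y ^ 2) =
            (A' * x ^ 2 + B' * (x * y) + C' * y ^ 2) - (A' - D) * x ^ 2 -
              (B' - k * D) * (x * y) - (C' - (2 * k - 1 - z ^ 2) * D) * y ^ 2 := by ring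
        rw [h2]
        exact (((hxy.sub ((hq1.trans dA).mul_right _)).sub ((hq1.trans dB).mul_right _)).sub
          ((hq1.trans dC).mul_right _))
      exact hqD.dvd_of_dvd_mul_left h1
    have e2 : (q : ℤ) ∣ (k' : ℤ) ^ (2 * j) * κ' := by
      apply Dvd.dvd.mul_left
      have h2 : κ' = (κ' - 2 * k * D) + 2 * k * D := by ring
      rw [h2]
      exact (hq1.trans dκ).add (hP2.mul_right _)
    have e3 : ¬ (q : ℤ) ^ 2 ∣ (k' : ℤ) ^ (2 * j) * κ' := by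
      intro h
      have h1 : (q : ℤ) ^ 2 ∣ κ' :=
        (IsCoprime.pow (m := 2) (n := 2 * j) hqk').dvd_of_dvd_mul_left h
      have h2 : (q : ℤ) ^ 2 ∣ 2 * k * D := by
        have h3 : 2 * k * D = κ' - (κ' - 2 * k * D) := by ring
        rw [h3]
        exact h1.sub (hq2.trans dκ)
      exact hP3 ((hqD.pow_left).dvd_of_dvd_mul_right h2)
    have hKz : (K : ℤ) = (q : ℤ) ^ n * (k' : ℤ) := by
      rw [hKn]
      push_cast
      ring
    have p2 : ((K : ℤ) ^ j) ^ 2 = (q : ℤ) ^ (2 * (j * n)) * (k' : ℤ) ^ (2 * j) := by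
      rw [hKz]
      ring
    have p3 : ((K : ℤ) ^ j) ^ 3 = (q : ℤ) ^ (3 * (j * n)) * (k' : ℤ) ^ (3 * j) := by
      rw [hKz]
      ring
    obtain ⟨ra, rb, rc⟩ := ari q hq A' B' C' ((k' : ℤ) ^ (2 * j) * κ') a b c
      ((k' : ℤ) ^ (2 * j) * m1) ((k' : ℤ) ^ (2 * j) * m2)
      ((k' : ℤ) ^ (3 * j) * (c * m4 + (K : ℤ) ^ j * m5)) (j * n) e1 e2 e3 (by
        rw [← hEqZ, p2, p3]
        ring)
    have hJ : n ≤ j * n := Nat.le_mul_of_pos_left n (by omega)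
    have hJ1 : n + 1 ≤ j * n := by nlinarith
    have hJ2 : n + 1 ≤ j * n / 2 := by
      have : 2 * (n + 1) ≤ j * n := by nlinarith
      omega
    refine ⟨(pow_dvd_pow _ hJ).trans ra, (pow_dvd_pow _ hJ).trans rb, ?_⟩
    have h1 : (q : ℤ) ^ (n + 1) ∣ 2 * t := by
      have h2 : 2 * t = c - a * b := by rw [hc]; ring
      rw [h2]
      exact ((pow_dvd_pow _ hJ2).trans rc).sub (((pow_dvd_pow _ hJ1).trans ra).mul_right _)
    by_cases hq22 : q = 2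
    · subst hq22
      obtain ⟨w, hw⟩ := h1
      refine ⟨w, ?_⟩
      have h3 : (2 : ℤ) * t = 2 * (((2 : ℕ) : ℤ) ^ n * w) := by
        rw [hw]
        push_cast
        ring
      exact mul_left_cancel₀ two_ne_zero h3
    · have h3 : IsCoprime ((q : ℤ) ^ (n + 1)) 2 := by
        apply IsCoprime.pow_left
        have : Nat.Coprime q 2 := (Nat.coprime_primes hq Nat.prime_two).2 hq22
        exact_mod_cast Nat.isCoprime_iff_coprime.2 this
      exact (pow_dvd_pow _ (Nat.le_succ n)).trans (h3.dvd_of_dvd_mul_left h1)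
  refine ⟨dvd_all (fun q n k' h1 h2 h3 h4 => (key q n k' h1 h2 h3 h4).1) hK0,
    dvd_all (fun q n k' h1 h2 h3 h4 => (key q n k' h1 h2 h3 h4).2.1) hK0,
    dvd_all (fun q n k' h1 h2 h3 h4 => (key q n k' h1 h2 h3 h4).2.2) hK0⟩

end Pool.Agent.UVR
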