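import Pool.Agent.UVR.Stmts

/-!
# UVR: the module CHO
-/

set_option autoImplicit false

namespace Pool.Agent.UVR

namespace CHOM

theorem exists_nonsq (q : ℕ) (hq : q.Prime) (h2 : q ≠ 2) :
    ∃ z : ℕ, ∀ x y : ℤ, (q : ℤ) ∣ x ^ 2 - (1 + (z : ℤ) ^ 2) * y ^ 2 →
      (q : ℤ) ∣ x ∧ (q : ℤ) ∣ y := by
  haveI := Fact.mk hq
  obtain ⟨z, hz⟩ : ∃ z : ZMod q, ¬ IsSquare (1 + z ^ 2) := by
    by_contra hcon
    push Not at hcon
    have h1 : ∀ n : ℕ, IsSquare (n : ZMod q) := by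
      intro n
      induction n with
      | zero => exact ⟨0, by simp⟩
      | succ n ih =>
        obtain ⟨w, hw⟩ := ih
        have h3 := hcon w
        have h4 : ((n + 1 : ℕ) : ZMod q) = 1 + w ^ 2 := by
          push_cast
          rw [hw]
          ring
        rw [h4]
        exact h3
    have h5 : ringChar (ZMod q) ≠ 2 := by
      rw [ZMod.ringChar_zmod_n]
      exact h2
    obtain ⟨a, ha⟩ := FiniteField.exists_nonsquare h5
    apply ha
    have h6 := h1 a.val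
    rwa [ZMod.natCast_zmod_val] at h6
  refine ⟨z.val, fun x y h => ?_⟩
  have h1 : ((x ^ 2 - (1 + (z.val : ℤ) ^ 2) * y ^ 2 : ℤ) : ZMod q) = 0 :=
    (ZMod.intCast_zmod_eq_zero_iff_dvd _ q).mpr h
  push_cast at h1
  rw [ZMod.natCast_zmod_val] at h1
  have hy : (y : ZMod q) = 0 := by
    by_contra hy
    apply hz
    refine ⟨(x : ZMod q) / y, ?_⟩
    field_simp
    linear_combination -h1
  have hx : (x : ZMod q) = 0 := by
    rw [hy] at h1
    have h3 : (x : ZMod q) ^ 2 = 0 := by linear_combination h1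
    exact pow_eq_zero_iff (two_ne_zero) |>.mp h3
  exact ⟨(ZMod.intCast_zmod_eq_zero_iff_dvd _ q).mp hx, (ZMod.intCast_zmod_eq_zero_iff_dvd _ q).mp hy⟩

end CHOM

open CHOM in
theorem CHO_thm : Stmt_CHO := by
  intro K hK2 hKe
  classical
  have hK0 : K ≠ 0 := by omega
  have hchoice : ∀ q : ℕ, ∃ z : ℕ, q.Prime → q ≠ 2 → ∀ x y : ℤ,
      (q : ℤ) ∣ x ^ 2 - (1 + (z : ℤ) ^ 2) * y ^ 2 → (q : ℤ) ∣ x ∧ (q : ℤ) ∣ y := by
    intro q
    by_cases h : q.Prime ∧ q ≠ 2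
    · obtain ⟨z, hz⟩ := exists_nonsq q h.1 h.2
      exact ⟨z, fun _ _ => hz⟩
    · exact ⟨0, fun h1 h2 => absurd ⟨h1, h2⟩ h⟩
  choose a ha using hchoice
  obtain ⟨z, hz⟩ := Nat.chineseRemainderOfFinset (fun q => if q = 2 then 0 else a q) (fun q => q)
    K.primeFactors (fun i hi => (Nat.prime_of_mem_primeFactors hi).ne_zero)
    (fun p hp q hq hpq => (Nat.coprime_primes (Nat.prime_of_mem_primeFactors hp)
      (Nat.prime_of_mem_primeFactors hq)).mpr hpq)
  set S := K.primeFactors.erase 2 with hS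
  set k : ℕ := ∏ p ∈ S, p with hk
  have hSp : ∀ p ∈ S, p.Prime := fun p hp =>
    Nat.prime_of_mem_primeFactors (Finset.mem_of_mem_erase hp)
  have hkodd : ¬ 2 ∣ k := by
    intro h
    obtain ⟨p, hp, h2p⟩ := (Nat.prime_two.prime.dvd_finsetProd_iff _).mp h
    have := (Nat.prime_dvd_prime_iff_eq Nat.prime_two (hSp p hp)).mp h2p
    exact (Finset.ne_of_mem_erase hp) this.symm
  refine ⟨(k : ℤ), (z : ℤ), fun q hq hqK => ?_⟩
  have hqm : q ∈ K.primeFactors := Nat.mem_primeFactors.mpr ⟨hq, hqK, hK0⟩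
  have hzq := hz q hqm
  by_cases h2 : q = 2
  · subst h2
    simp only [if_true] at hzq
    have hz2 : (2 : ℤ) ∣ (z : ℤ) := by
      have := (Nat.modEq_zero_iff_dvd).mp hzq
      exact_mod_cast this
    have hkodd' : ¬ (2 : ℤ) ∣ (k : ℤ) := by
      intro h
      apply hkodd
      exact_mod_cast h
    refine ⟨fun x y h => ?_, ⟨(k : ℤ), by push_cast; ring⟩, ?_⟩
    · obtain ⟨z', hz'⟩ := hz2
      have hk1 : (k : ℤ) % 2 = 1 := by omega
      obtain ⟨k', hk'⟩ : ∃ k' : ℤ, (k : ℤ) = 2 * k' + 1 := ⟨(k : ℤ) / 2, by omega⟩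
      have h3 : (2 : ℤ) ∣ x ^ 2 + x * y + y ^ 2 := by
        have h4 : x ^ 2 + x * y + y ^ 2 = (x ^ 2 + (k : ℤ) * (x * y) +
            (2 * (k : ℤ) - 1 - (z : ℤ) ^ 2) * y ^ 2) -
            2 * (k' * (x * y) + ((k : ℤ) - 1 - 2 * z' ^ 2) * y ^ 2) := by
          rw [hz', hk']
          ring
        rw [h4]
        exact dvd_sub (by exact_mod_cast h) (Dvd.intro _ rfl)
      rcases Int.emod_two_eq_zero_or_one x with hx | hx <;>
        rcases Int.emod_two_eq_zero_or_one y with hy | hy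
      · exact ⟨by push_cast; omega, by push_cast; omega⟩
      · exfalso
        obtain ⟨x', hx'⟩ : ∃ x' : ℤ, x = 2 * x' := ⟨x / 2, by omega⟩
        obtain ⟨y', hy'⟩ : ∃ y' : ℤ, y = 2 * y' + 1 := ⟨y / 2, by omega⟩
        obtain ⟨w, hw⟩ := h3
        rw [hx', hy'] at hw
        have : 2 * (2 * x' ^ 2 + x' * (2 * y' + 1) + 2 * y' ^ 2 + 2 * y' - w) = -1 := by
          linear_combination hw
        omega
      · exfalso
        obtain ⟨x', hx'⟩ : ∃ x' : ℤ, x = 2 * x' + 1 := ⟨x / 2, by omega⟩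
        obtain ⟨y', hy'⟩ : ∃ y' : ℤ, y = 2 * y' := ⟨y / 2, by omega⟩
        obtain ⟨w, hw⟩ := h3
        rw [hx', hy'] at hw
        have : 2 * (2 * x' ^ 2 + 2 * x' + (2 * x' + 1) * y' + 2 * y' ^ 2 - w) = -1 := by
          linear_combination hw
        omega
      · exfalso
        obtain ⟨x', hx'⟩ : ∃ x' : ℤ, x = 2 * x' + 1 := ⟨x / 2, by omega⟩
        obtain ⟨y', hy'⟩ : ∃ y' : ℤ, y = 2 * y' + 1 := ⟨y / 2, by omega⟩
        obtain ⟨w, hw⟩ := h3
        rw [hx', hy'] at hw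
        have : 2 * (2 * x' ^ 2 + 2 * x' + (2 * x' * y' + x' + y') + 2 * y' ^ 2 + 2 * y' + 1 - w) =
            -1 := by
          linear_combination hw
        omega
    · intro h
      apply hkodd'
      obtain ⟨w, hw⟩ := h
      refine ⟨w, ?_⟩
      push_cast at hw
      linarith
  · simp only [h2, if_false] at hzq
    have hqS : q ∈ S := Finset.mem_erase.mpr ⟨h2, hqm⟩
    have hqk : q ∣ k := Finset.dvd_prod_of_mem _ hqS
    have hqk' : (q : ℤ) ∣ (k : ℤ) := by exact_mod_cast hqk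
    have hza : (q : ℤ) ∣ (z : ℤ) - (a q : ℤ) := by
      have h3 := (Nat.modEq_iff_dvd.mp hzq.symm)
      simpa using h3
    refine ⟨fun x y h => ?_, Dvd.dvd.mul_left hqk' 2, ?_⟩
    · apply ha q hq h2 x y
      obtain ⟨k', hk'⟩ := hqk'
      obtain ⟨w, hw⟩ := hza
      have h4 : x ^ 2 - (1 + (a q : ℤ) ^ 2) * y ^ 2 =
          (x ^ 2 + (k : ℤ) * (x * y) + (2 * (k : ℤ) - 1 - (z : ℤ) ^ 2) * y ^ 2) +
          (q : ℤ) * (w * ((z : ℤ) + (a q : ℤ)) * y ^ 2 - k' * (x * y) - 2 * k' * y ^ 2) := by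
        linear_combination (y ^ 2 * ((z : ℤ) + a q)) * hw - (x * y + 2 * y ^ 2) * hk'
      rw [h4]
      exact dvd_add h (Dvd.intro _ rfl)
    · intro h
      have h5 : q ^ 2 ∣ 2 * k := by exact_mod_cast h
      have h6 : k = q * ∏ p ∈ S.erase q, p := by
        rw [hk, ← Finset.mul_prod_erase S (fun p => p) hqS]
      rw [h6] at h5
      have h7 : q ∣ 2 * ∏ p ∈ S.erase q, p := by
        have h8 : q * q ∣ q * (2 * ∏ p ∈ S.erase q, p) := by
          rw [← sq]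
          convert h5 using 1
          ring
        exact Nat.dvd_of_mul_dvd_mul_left hq.pos h8
      rcases (Nat.Prime.dvd_mul hq).mp h7 with h9 | h9
      · exact h2 ((Nat.prime_dvd_prime_iff_eq hq Nat.prime_two).mp h9)
      · obtain ⟨p, hp, hqp⟩ := (hq.prime.dvd_finsetProd_iff _).mp h9
        have h10 := (Nat.prime_dvd_prime_iff_eq hq (hSp p (Finset.mem_of_mem_erase hp))).mp hqp
        exact (Finset.ne_of_mem_erase hp) h10.symm

end Pool.Agent.UVR
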