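import Pool.Agent.UVR.Stmts2

/-! The module CNJ: conjugates of powers. -/

set_option autoImplicit false

namespace Pool.Agent.UVR

open Matrix

namespace CNJM

/-- one exponent for finitely many numbers -/
theorem common {K : ℕ} (hr : ∀ x : ℚ, ∃ G : ℕ, (K : ℚ) ^ G * x ∈ RK K) {ι : Type} [Fintype ι]
    (f : ι → ℚ) : ∃ h : ℕ, ∀ i, (K : ℚ) ^ h * f i ∈ RK K := by
  choose G hG using fun i => hr (f i)
  refine ⟨∑ i, G i, fun i => ?_⟩
  have h1 : G i ≤ ∑ i, G i := Finset.single_le_sum (fun _ _ => Nat.zero_le _) (Finset.mem_univ i)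
  obtain ⟨d, hd⟩ := Nat.exists_eq_add_of_le h1
  rw [hd, pow_add, mul_comm ((K : ℚ) ^ G i), mul_assoc]
  exact (RK K).mul_mem ((RK K).pow_mem (RK_nat K K) d) (hG i)

/-- conjugation by an orthogonal matrix, relative to the identity -/
theorem conj_eq {C L : Matrix (Fin 3) (Fin 3) ℚ} (h : C * Cᵀ = 1) :
    C * L * Cᵀ = 1 + C * (L - 1) * Cᵀ := by
  rw [Matrix.mul_sub, Matrix.sub_mul, Matrix.mul_one, h]
  abel

end CNJM

/-- CNJ. -/
theorem CNJ_thm : Stmt_CNJ := by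
  intro hR hL K hK a ha c hc hn
  obtain ⟨h, hh⟩ := CNJM.common (K := K) (fun x => (hR K hK).2.2 x)
    (fun p : (Fin 3 × Fin 3) × (Fin 3 × Fin 3) => lin c p.1.1 p.1.2 * lin c p.2.1 p.2.2)
  obtain ⟨n, hn1, hn2, _⟩ := hL K h 0 hK a ha (fun n => ⟨hn n, by
    rw [zero_smul]
    exact Dv3.zero K 0⟩)
  refine ⟨n, hn1, fun i j => ?_⟩
  have ha1 : a ^ n ∈ Isom3 := Isom3.pow_mem ha.1 n
  have e1 : lin (c * a ^ n * c⁻¹) = 1 + lin c * (lin (a ^ n) - 1) * (lin c)ᵀ := by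
    rw [lin_mul (Isom3.mul_mem hc ha1) (Isom3.inv_mem hc), lin_mul hc ha1, lin_inv hc,
      CNJM.conj_eq (lin_orth' hc)]
  rw [e1, Matrix.add_apply, Matrix.mul_apply]
  refine (RK K).add_mem ?_ ((RK K).sum_mem fun l _ => ?_)
  · rw [Matrix.one_apply]
    split_ifs
    · exact (RK K).one_mem
    · exact (RK K).zero_mem
  · rw [Matrix.mul_apply, Finset.sum_mul]
    refine (RK K).sum_mem fun k _ => ?_
    obtain ⟨z, hz, hz1⟩ := hn2 k l
    rw [hz1, Matrix.transpose_apply]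
    have e2 : lin c i k * ((K : ℚ) ^ h * z) * lin c j l =
        ((K : ℚ) ^ h * (lin c i k * lin c j l)) * z := by ring
    rw [e2]
    exact (RK K).mul_mem (hh ((i, k), (j, l))) hz

end Pool.Agent.UVR
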