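import Mathlib

/-!
# Two-generated non-commutative subgroups of free groups are free of rank two
-/

set_option autoImplicit false

namespace Pool.Agent.UVR

namespace RTWM

/-- Homomorphisms from a group generated by `u`, `v` are determined by the images. -/
theorem hom_ext {G : Type} [Group G] {H : Subgroup G} {u v : G}
    (hH : H = Subgroup.closure {u, v}) (hu : u ∈ H) (hv : v ∈ H) {M : Type} [Group M]
    {f g : H →* M} (h1 : f ⟨u, hu⟩ = g ⟨u, hu⟩) (h2 : f ⟨v, hv⟩ = g ⟨v, hv⟩) : f = g := by
  ext ⟨x, hx⟩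
  have hx' : x ∈ Subgroup.closure {u, v} := hH ▸ hx
  have key : ∀ (y : G) (hy : y ∈ Subgroup.closure {u, v}),
      f ⟨y, hH ▸ hy⟩ = g ⟨y, hH ▸ hy⟩ := by
    intro y hy
    induction hy using Subgroup.closure_induction with
    | mem z hz =>
      rcases hz with rfl | hz
      · exact h1
      · rw [Set.mem_singleton_iff] at hz
        subst hz
        exact h2
    | one => exact (map_one f).trans (map_one g).symm
    | mul a b ha hb iha ihb =>
      have e : (⟨a * b, hH ▸ (Subgroup.closure {u, v}).mul_mem ha hb⟩ : H) =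
        ⟨a, hH ▸ ha⟩ * ⟨b, hH ▸ hb⟩ := rfl
      rw [e, map_mul, map_mul, iha, ihb]
    | inv a ha iha =>
      have e : (⟨a⁻¹, hH ▸ (Subgroup.closure {u, v}).inv_mem ha⟩ : H) = (⟨a, hH ▸ ha⟩)⁻¹ := rfl
      rw [e, map_inv, map_inv, iha]
  exact key x hx'

end RTWM

open RTWM in
theorem RTW_thm (G : Type) [Group G] (F : Subgroup G) (hF : IsFreeGroup F) (u : G) (hu : u ∈ F)
    (v : G) (hv : v ∈ F) (huv : u * v ≠ v * u) (H : Subgroup G)
    (hH : H = Subgroup.closure {u, v}) : IsFreeGroup H ∧ Nonempty (FreeGroup (Fin 2) ≃* H) := by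
  have hHF : H ≤ F := by
    rw [hH, Subgroup.closure_le]
    rintro x (rfl | hx)
    · exact hu
    · rw [Set.mem_singleton_iff] at hx
      exact hx ▸ hv
  have hu' : u ∈ H := hH ▸ Subgroup.subset_closure (Set.mem_insert u _)
  have hv' : v ∈ H := hH ▸ Subgroup.subset_closure (Set.mem_insert_of_mem u rfl)
  have h1 : IsFreeGroup (H.subgroupOf F) := inferInstance
  have hfree : IsFreeGroup H := IsFreeGroup.ofMulEquiv (Subgroup.subgroupOfEquivOfLe hHF)
  refine ⟨hfree, ?_⟩
  let ι := IsFreeGroup.Generators H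
  let e : H ≃* FreeGroup ι := IsFreeGroup.toFreeGroup H
  let Φ : (ι → Multiplicative (ZMod 2)) → Multiplicative (ZMod 2) × Multiplicative (ZMod 2) :=
    fun φ => (FreeGroup.lift φ (e ⟨u, hu'⟩), FreeGroup.lift φ (e ⟨v, hv'⟩))
  have hΦ : Function.Injective Φ := by
    intro φ ψ h
    have h3 : FreeGroup.lift φ (e ⟨u, hu'⟩) = FreeGroup.lift ψ (e ⟨u, hu'⟩) := congrArg Prod.fst h
    have h4 : FreeGroup.lift φ (e ⟨v, hv'⟩) = FreeGroup.lift ψ (e ⟨v, hv'⟩) := congrArg Prod.snd h
    have h5 : (FreeGroup.lift φ).comp e.toMonoidHom = (FreeGroup.lift ψ).comp e.toMonoidHom :=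
      hom_ext hH hu' hv' h3 h4
    have h6 : FreeGroup.lift φ = FreeGroup.lift ψ := by
      ext x
      have h7 := DFunLike.congr_fun h5 (e.symm (FreeGroup.of x))
      simpa using h7
    exact FreeGroup.lift.injective h6
  have hfin : Finite (ι → Multiplicative (ZMod 2)) := Finite.of_injective Φ hΦ
  have hιfin : Finite ι := by
    by_contra hinf
    rw [not_finite_iff_infinite] at hinf
    have : Infinite (ι → Multiplicative (ZMod 2)) := inferInstance
    exact not_finite (ι → Multiplicative (ZMod 2))
  have := Fintype.ofFinite ι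
  have hcard : Fintype.card ι = 2 := by
    have hle : 2 ^ Fintype.card ι ≤ 4 := by
      classical
      have h8 := Fintype.card_le_of_injective Φ hΦ
      have h9 : Fintype.card (Multiplicative (ZMod 2)) = 2 := rfl
      rw [Fintype.card_fun, Fintype.card_prod, h9] at h8
      exact h8
    have hge : 2 ≤ Fintype.card ι := by
      by_contra hlt
      have hsub : Subsingleton ι := Fintype.card_le_one_iff_subsingleton.1 (by omega)
      apply huv
      have hcomm : ∀ x y : FreeGroup ι, x * y = y * x := by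
        rcases isEmpty_or_nonempty ι with hemp | ⟨⟨i⟩⟩
        · intro x y
          exact Subsingleton.elim _ _
        · have hz : ∀ x : FreeGroup ι, ∃ n : ℤ, x = FreeGroup.of i ^ n := by
            intro x
            induction x using FreeGroup.induction_on with
            | C1 => exact ⟨0, (zpow_zero _).symm⟩
            | of j => exact ⟨1, by rw [zpow_one, Subsingleton.elim i j]⟩
            | inv_of j _ => exact ⟨-1, by rw [zpow_neg_one, Subsingleton.elim i j]⟩
            | mul x y hx hy =>
              obtain ⟨n, rfl⟩ := hx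
              obtain ⟨m, rfl⟩ := hy
              exact ⟨n + m, (zpow_add _ n m).symm⟩
          intro x y
          obtain ⟨n, rfl⟩ := hz x
          obtain ⟨m, rfl⟩ := hz y
          rw [← zpow_add, ← zpow_add, add_comm]
      have h10 : (⟨u, hu'⟩ : H) * ⟨v, hv'⟩ = ⟨v, hv'⟩ * ⟨u, hu'⟩ := by
        apply e.injective
        rw [map_mul, map_mul]
        exact hcomm _ _
      exact congrArg Subtype.val h10
    have h11 : Fintype.card ι ≤ 2 := by
      by_contra hlt
      have h12 : 2 ^ 3 ≤ 2 ^ Fintype.card ι := Nat.pow_le_pow_right (by norm_num) (by omega)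
      omega
    omega
  have e2 : ι ≃ Fin 2 := Fintype.equivFinOfCardEq hcard
  exact ⟨(FreeGroup.freeGroupCongr e2.symm).trans e.symm⟩

end Pool.Agent.UVR
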