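import Pool.Agent.UVR.Stmts
import Pool.Agent.UVR.RTW

/-!
# Rare fixed points in every free group of isometries of `ℚ³`: module CNV (with RTW)
-/

set_option autoImplicit false

namespace Pool.Agent.UVR

theorem CNV_thm' : Stmt_CNV := by
  intro G _ F hF u hu v hv huv H hH
  obtain ⟨_, ⟨e⟩⟩ := RTW_thm G F hF u hu v hv huv H hH
  let χ : H →* Multiplicative (ZMod 2) :=
    (FreeGroup.lift fun _ : Fin 2 => Multiplicative.ofAdd (1 : ZMod 2)).comp e.symm.toMonoidHom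
  have hχ : χ (e (FreeGroup.of 0)) = Multiplicative.ofAdd (1 : ZMod 2) := by
    change FreeGroup.lift (fun _ : Fin 2 => Multiplicative.ofAdd (1 : ZMod 2))
      (e.symm (e (FreeGroup.of 0))) = _
    rw [MulEquiv.symm_apply_apply, FreeGroup.lift_apply_of]
  refine ⟨((e (FreeGroup.of 0) : H) : G), (e (FreeGroup.of 0)).2, fun hmem => ?_⟩
  have hle : ⁅⁅H, H⁆, H⁆ ⊔ Subgroup.closure {x | ∃ h ∈ H, x = h ^ 2} ≤ χ.ker.map H.subtype := by
    apply sup_le
    · have h1 : ⁅H, H⁆ ≤ χ.ker.map H.subtype := by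
        rw [Subgroup.commutator_le]
        intro g1 h1 g2 h2
        refine ⟨(⟨g1, h1⟩ : H) * ⟨g2, h2⟩ * (⟨g1, h1⟩ : H)⁻¹ * (⟨g2, h2⟩ : H)⁻¹, ?_, rfl⟩
        change _ ∈ χ.ker
        rw [MonoidHom.mem_ker, map_mul, map_mul, map_mul, map_inv, map_inv]
        exact mul_inv_eq_one.2 (mul_inv_eq_iff_eq_mul.2 (mul_comm _ _))
      have h2 : ⁅H, H⁆ ≤ H := by
        rw [Subgroup.commutator_le]
        intro g1 h1 g2 h2
        exact H.mul_mem (H.mul_mem (H.mul_mem h1 h2) (H.inv_mem h1)) (H.inv_mem h2)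
      exact (Subgroup.commutator_mono h2 le_rfl).trans h1
    · rw [Subgroup.closure_le]
      rintro x ⟨h, hh, rfl⟩
      refine ⟨(⟨h, hh⟩ : H) ^ 2, ?_, rfl⟩
      change _ ∈ χ.ker
      rw [MonoidHom.mem_ker, map_pow]
      generalize χ ⟨h, hh⟩ = z
      revert z
      decide
  obtain ⟨y, hy, hy2⟩ := hle hmem
  have h3 : y = e (FreeGroup.of 0) := Subtype.ext hy2
  rw [h3] at hy
  have h4 : χ (e (FreeGroup.of 0)) = 1 := hy
  rw [hχ] at h4
  revert h4
  decide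

end Pool.Agent.UVR
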