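import Pool.Agent.UVR.Stmts

/-!
# UVR: commuting isometries have parallel vectors
-/

set_option autoImplicit false

namespace Pool.Agent.UVR

open Matrix Quaternion

namespace COMM

/-- The linear part of a represented isometry. -/
theorem lin_rel {μ : ℚ} (hμ : μ ≠ 0) {P : DH} {f : Equiv.Perm V3} (hP : Rep μ P f) (x : V3) :
    (vq (f x) - vq (f 0)) * P.fst = P.fst * vq x := by
  have h1 := hP.2 x
  have h0 := hP.2 0
  rw [h0] at h1
  have h2 := smul_right_injective _ hμ h1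
  rw [vq_zero, mul_zero, sub_zero] at h2
  rw [sub_mul, h2]
  abel

/-- A quaternion which commutes with all vectors is rational. -/
theorem central {s : ℍ[ℚ]} (h : ∀ x : V3, s * vq x = vq x * s) : s = ((s.re : ℚ) : ℍ[ℚ]) := by
  have h0 := h ![1, 0, 0]
  have h1 := h ![0, 1, 0]
  have a1 := congrArg (fun q : ℍ[ℚ] => q.imJ) h0
  have a2 := congrArg (fun q : ℍ[ℚ] => q.imK) h0
  have a3 := congrArg (fun q : ℍ[ℚ] => q.imK) h1
  simp at a1 a2 a3
  ext
  · simp
  · simp
    linarith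
  · simp
    linarith
  · simp
    linarith

theorem real_part (x y : V3) : ((1 + vq x) * (1 + vq y)).re = 1 - x ⬝ᵥ y := by
  simp [dotProduct, Fin.sum_univ_three]
  ring

theorem re_mul_coe (q : ℍ[ℚ]) (c : ℚ) : (q * (c : ℍ[ℚ])).re = q.re * c := by
  simp

end COMM

theorem COM_thm : Stmt_COM := by
  intro μ hμ u _ v _ X Y hX hY hne huv
  have hP := hX.mul hY
  have hQ := hY.mul hX
  rw [← huv] at hQ
  have eP : (nrm X * nrm Y).fst = (1 + vq X.1) * (1 + vq Y.1) := by
    rw [TrivSqZeroExt.fst_mul]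
    rfl
  have eQ : (nrm Y * nrm X).fst = (1 + vq Y.1) * (1 + vq X.1) := by
    rw [TrivSqZeroExt.fst_mul]
    rfl
  have rP := COMM.lin_rel hμ hP
  have rQ := COMM.lin_rel hμ hQ
  have nP := hP.1
  rw [eP] at rP nP
  rw [eQ] at rQ
  set q := (1 + vq X.1) * (1 + vq Y.1) with hq
  set q' := (1 + vq Y.1) * (1 + vq X.1) with hq'
  have hs : ∀ x : V3, (q⁻¹ * q') * vq x = vq x * (q⁻¹ * q') := by
    intro x
    have e1 : q⁻¹ * (vq ((u * v) x) - vq ((u * v) 0)) = vq x * q⁻¹ := by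
      have e2 : (vq ((u * v) x) - vq ((u * v) 0)) = q * vq x * q⁻¹ := by
        rw [← rP x, mul_assoc, mul_inv_cancel₀ nP, mul_one]
      rw [e2, mul_assoc, ← mul_assoc, inv_mul_cancel₀ nP, one_mul]
    rw [mul_assoc, ← rQ x, ← mul_assoc, e1, mul_assoc]
  have hc := COMM.central hs
  set c := (q⁻¹ * q').re with hcdef
  have hqq : q' = q * ((c : ℚ) : ℍ[ℚ]) := by
    rw [← hc, ← mul_assoc, mul_inv_cancel₀ nP, one_mul]
  have hre := congrArg (fun z : ℍ[ℚ] => z.re) hqq
  simp only [hq, hq'] at hre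
  have hre2 : ((1 + vq X.1) * (1 + vq Y.1) * ((c : ℚ) : ℍ[ℚ])).re =
      ((1 + vq X.1) * (1 + vq Y.1)).re * c := COMM.re_mul_coe _ _
  rw [hre2, COMM.real_part, COMM.real_part, dotProduct_comm Y.1 X.1] at hre
  have hc1 : c = 1 := by
    have h3 : (1 - X.1 ⬝ᵥ Y.1) * (c - 1) = 0 := by linarith
    rcases mul_eq_zero.1 h3 with h | h
    · exact absurd h hne
    · linarith
  have hfin : q' = q := by
    rw [hqq, hc1]
    simp
  have b0 := congrArg (fun z : ℍ[ℚ] => z.imI) hfin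
  have b1 := congrArg (fun z : ℍ[ℚ] => z.imJ) hfin
  have b2 := congrArg (fun z : ℍ[ℚ] => z.imK) hfin
  simp [hq, hq'] at b0 b1 b2
  funext i
  fin_cases i
  · change crossProduct X.1 Y.1 0 = 0
    rw [cross0]
    linarith
  · change crossProduct X.1 Y.1 1 = 0
    rw [cross1]
    linarith
  · change crossProduct X.1 Y.1 2 = 0
    rw [cross2]
    linarith

end Pool.Agent.UVR
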