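import Pool.Agent.UVR.Stmts

/-!
# Rare fixed points in every free group of isometries of `ℚ³`: module GEN
-/

set_option autoImplicit false

namespace Pool.Agent.UVR

open Matrix Quaternion

namespace GENM

/-- Translations commute. -/
theorem comm_of_lin_one {f g : Equiv.Perm V3} (hf : f ∈ Isom3) (hg : g ∈ Isom3)
    (h1 : lin f = 1) (h2 : lin g = 1) : f * g = g * f := by
  apply Equiv.ext
  intro x
  rw [Equiv.Perm.mul_apply, Equiv.Perm.mul_apply, apply_eq hf, apply_eq hg, apply_eq hg,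
    apply_eq hf, h1, h2]
  simp only [Matrix.one_mulVec]
  abel

/-- The linear part of a conjugate of a translation. -/
theorem lin_conj {f g : Equiv.Perm V3} (hf : f ∈ Isom3) (hg : g ∈ Isom3)
    (h1 : lin f = 1) : lin (g * f * g⁻¹) = 1 := by
  rw [lin_mul (Isom3.mul_mem hg hf) (Isom3.inv_mem hg), lin_mul hg hf, h1, Matrix.mul_one,
    lin_inv hg, lin_orth' hg]

/-- The determinant of a conjugate. -/
theorem conj_mem {f g : Equiv.Perm V3} (hf : f ∈ SIsom3) (hg : g ∈ Isom3) :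
    g⁻¹ * f * g ∈ SIsom3 := by
  refine ⟨Isom3.mul_mem (Isom3.mul_mem (Isom3.inv_mem hg) hf.1) hg, ?_⟩
  rw [lin_mul (Isom3.mul_mem (Isom3.inv_mem hg) hf.1) hg, lin_mul (Isom3.inv_mem hg) hf.1,
    Matrix.det_mul, Matrix.det_mul, hf.2, mul_one, lin_inv hg, Matrix.det_transpose]
  rcases det_sq hg with h | h <;> rw [h] <;> norm_num

/-- The square of an isometry is direct. -/
theorem sq_mem {f : Equiv.Perm V3} (hf : f ∈ Isom3) : f ^ 2 ∈ SIsom3 := by
  refine ⟨Isom3.pow_mem hf 2, ?_⟩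
  rw [pow_two, lin_mul hf hf, Matrix.det_mul]
  rcases det_sq hf with h | h <;> rw [h] <;> norm_num

/-- The axis vector. -/
theorem axis_cross (f : Equiv.Perm V3) (d : V3) :
    crossProduct (axis f) d = lin f *ᵥ d - (lin f)ᵀ *ᵥ d := by
  funext i
  fin_cases i <;>
    simp [cross_apply, axis, Matrix.mulVec, dotProduct, Fin.sum_univ_three] <;> ring

/-- A fixed direction is parallel to the axis vector. -/
theorem axis_of_fix {f : Equiv.Perm V3} (hf : f ∈ Isom3) {x y : V3} (hx : f x = x) (hy : f y = y) :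
    crossProduct (axis f) (x - y) = 0 := by
  have h1 : lin f *ᵥ (x - y) = x - y := by
    rw [Matrix.mulVec_sub]
    conv_rhs => rw [← hx, ← hy, apply_eq hf, apply_eq hf]
    abel
  have h2 : (lin f)ᵀ *ᵥ (x - y) = x - y := by
    conv_lhs => rw [← h1]
    rw [Matrix.mulVec_mulVec, lin_orth hf, Matrix.one_mulVec]
  rw [axis_cross, h1, h2, sub_self]

/-- Vectors parallel to a common direction are parallel. -/
theorem cross_of_cross {p q d : V3} (hd : d ≠ 0) (hp : crossProduct p d = 0)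
    (hq : crossProduct q d = 0) : crossProduct p q = 0 := by
  obtain ⟨k, hk⟩ : ∃ k, d k ≠ 0 := by
    by_contra h
    push Not at h
    exact hd (funext h)
  have p0 := congrFun hp 0
  have p1 := congrFun hp 1
  have p2 := congrFun hp 2
  have q0 := congrFun hq 0
  have q1 := congrFun hq 1
  have q2 := congrFun hq 2
  rw [cross0, Pi.zero_apply] at p0 q0
  rw [cross1, Pi.zero_apply] at p1 q1
  rw [cross2, Pi.zero_apply] at p2 q2
  have key : ∀ i, d k * crossProduct p q i = 0 := by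
    intro i
    fin_cases k <;> fin_cases i <;> simp only [Fin.zero_eta, Fin.mk_one, Fin.reduceFinMk,
      cross0, cross1, cross2]
    · linear_combination (-q 2) * p2 - q 1 * p1 - p 0 * q0
    · linear_combination (q 0) * p1 - p 0 * q1
    · linear_combination (q 0) * p2 - p 0 * q2
    · linear_combination (q 1) * p0 - p 1 * q0
    · linear_combination (-q 2) * p2 - q 0 * p0 - p 1 * q1
    · linear_combination (q 1) * p2 - p 1 * q2
    · linear_combination (q 2) * p0 - p 2 * q0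
    · linear_combination (q 2) * p1 - p 2 * q1
    · linear_combination (-q 1) * p1 - q 0 * p0 - p 2 * q2
  funext i
  rcases mul_eq_zero.1 (key i) with h | h
  · exact absurd h hk
  · exact h

end GENM

open GENM in
theorem GEN_thm : Stmt_GEN := by
  intro hFRC hGIB hPAR hHLF F hF hfree hab hfix
  obtain ⟨hf1, hf2, hf3⟩ := @hFRC F _ hfree
  obtain ⟨a₀, ha₀, b₀, hb₀, hne⟩ := hab
  -- (1)
  have h1 : ∀ f ∈ F, lin f = 1 → f = 1 := by
    intro f hf hlf
    let N : Subgroup F :=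
      { carrier := {x | lin (x : Equiv.Perm V3) = 1}
        mul_mem' := by
          intro x y hx hy
          change lin ((x : Equiv.Perm V3) * (y : Equiv.Perm V3)) = 1
          change lin (x : Equiv.Perm V3) = 1 at hx
          change lin (y : Equiv.Perm V3) = 1 at hy
          rw [lin_mul (hF x.2) (hF y.2), hx, hy, Matrix.mul_one]
        one_mem' := lin_one
        inv_mem' := by
          intro x hx
          change lin (x : Equiv.Perm V3)⁻¹ = 1
          change lin (x : Equiv.Perm V3) = 1 at hx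
          rw [lin_inv (hF x.2), hx, Matrix.transpose_one] }
    have hN : N.Normal := by
      refine ⟨?_⟩
      intro n hn g
      change lin ((g : Equiv.Perm V3) * (n : Equiv.Perm V3) * (g : Equiv.Perm V3)⁻¹) = 1
      exact lin_conj (hF n.2) (hF g.2) hn
    have hNc : ∀ x ∈ N, ∀ y ∈ N, x * y = y * x := by
      intro x hx y hy
      apply Subtype.ext
      exact comm_of_lin_one (hF x.2) (hF y.2) hx hy
    have hbot : N = ⊥ := by
      by_contra hb
      have := hf2 N hN hNc hb ⟨a₀, ha₀⟩ ⟨b₀, hb₀⟩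
      exact hne (congrArg Subtype.val this)
    have hm : (⟨f, hf⟩ : F) ∈ N := hlf
    rw [hbot, Subgroup.mem_bot] at hm
    exact congrArg Subtype.val hm
  -- (2)
  have h2 : ∀ f ∈ F, ∀ n : ℕ, n ≠ 0 → f ^ n = 1 → f = 1 := by
    intro f hf n hn hfn
    have := hf1 ⟨f, hf⟩ n hn (Subtype.ext hfn)
    exact congrArg Subtype.val this
  refine ⟨h1, h2, ?_⟩
  -- (3)
  have haF : a₀ ^ 2 ∈ F := F.pow_mem ha₀ 2
  have hbF : b₀ ^ 2 ∈ F := F.pow_mem hb₀ 2
  have haS : a₀ ^ 2 ∈ SIsom3 := sq_mem (hF ha₀)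
  have hbS : b₀ ^ 2 ∈ SIsom3 := sq_mem (hF hb₀)
  have hne2 : a₀ ^ 2 * b₀ ^ 2 ≠ b₀ ^ 2 * a₀ ^ 2 := by
    intro h
    have := hf3 ⟨a₀, ha₀⟩ ⟨b₀, hb₀⟩ (Subtype.ext h)
    exact hne (congrArg Subtype.val this)
  generalize a₀ ^ 2 = a at haF haS hne2
  generalize b₀ ^ 2 = b at hbF hbS hne2
  have htr : ∀ f ∈ F, f ∈ SIsom3 → f ≠ 1 → 1 + (lin f).trace ≠ 0 := by
    intro f hf hfS hf1 ht
    have h3 := hHLF f hfS ht
    rw [← lin_mul hfS.1 hfS.1] at h3
    have h4 := h1 _ (F.mul_mem hf hf) h3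
    exact hf1 (h2 f hf 2 two_ne_zero (by rw [pow_two, h4]))
  have ha1 : a ≠ 1 := by
    rintro rfl
    exact hne2 (by rw [one_mul, mul_one])
  have hb1 : b ≠ 1 := by
    rintro rfl
    exact hne2 (by rw [one_mul, mul_one])
  have hlin : lin a * lin b ≠ lin b * lin a := by
    intro h
    have h3 : lin (a * b * (b * a)⁻¹) = 1 := by
      rw [lin_mul (Isom3.mul_mem haS.1 hbS.1) (Isom3.inv_mem (Isom3.mul_mem hbS.1 haS.1)),
        lin_inv (Isom3.mul_mem hbS.1 haS.1), lin_mul haS.1 hbS.1, h, ← lin_mul hbS.1 haS.1,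
        lin_orth' (Isom3.mul_mem hbS.1 haS.1)]
    have h4 := h1 _ (F.mul_mem (F.mul_mem haF hbF) (F.inv_mem (F.mul_mem hbF haF))) h3
    exact hne2 (mul_inv_eq_one.1 h4)
  have hax : crossProduct (axis a) (axis b) ≠ 0 := fun h =>
    hlin (hPAR hGIB a haS b hbS (htr a haF haS ha1) (htr b hbF hbS hb1) h)
  by_cases hcom : ∃ x : V3, a x = x ∧ b x = x
  · obtain ⟨x₀, hxa, hxb⟩ := hcom
    have huniq : ∀ x : V3, a x = x → b x = x → x = x₀ := by
      intro x hx1 hx2
      by_contra hx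
      exact hax (cross_of_cross (sub_ne_zero.2 hx) (axis_of_fix haS.1 hx1 hxa)
        (axis_of_fix hbS.1 hx2 hxb))
    by_cases hc : ∃ c ∈ F, c ∈ SIsom3 ∧ c x₀ ≠ x₀
    · obtain ⟨c, hcF, hcS, hcx⟩ := hc
      refine ⟨a, haF, b, hbF, c, hcF, haS, hbS, hcS, hax, ?_⟩
      rintro ⟨x, hx1, hx2, hx3⟩
      have hx := huniq x hx1 hx2
      rw [hx] at hx3
      exact hcx hx3
    · exfalso
      push Not at hc
      apply hfix
      refine ⟨x₀, fun g hg => ?_⟩
      have hconj : ∀ f ∈ F, f ∈ SIsom3 → f (g x₀) = g x₀ := by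
        intro f hf hfS
        have h3 := hc (g⁻¹ * f * g) (F.mul_mem (F.mul_mem (F.inv_mem hg) hf) hg)
          (conj_mem hfS (hF hg))
        rw [Equiv.Perm.mul_apply, Equiv.Perm.mul_apply, Equiv.Perm.inv_eq_iff_eq] at h3
        exact h3
      exact huniq (g x₀) (hconj a haF haS) (hconj b hbF hbS)
  · refine ⟨a, haF, b, hbF, 1, F.one_mem, haS, hbS, SIsom3.one_mem, hax, ?_⟩
    rintro ⟨x, hx1, hx2, -⟩
    exact hcom ⟨x, hx1, hx2⟩

end Pool.Agent.UVR
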