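import Pool.Agent.UVR.Stmts

/-!
# Module GIB: existence of the normalised representation
-/

set_option autoImplicit false

namespace Pool.Agent.UVR

open Matrix Quaternion

namespace GIBM

theorem axis_cross (f : Equiv.Perm V3) (z : V3) :
    crossProduct (axis f) z = (lin f - (lin f)ᵀ) *ᵥ z := by
  funext i
  fin_cases i
  · change crossProduct (axis f) z 0 = ((lin f - (lin f)ᵀ) *ᵥ z) 0
    rw [cross0]
    simp [axis, Matrix.mulVec, dotProduct, Fin.sum_univ_three]
    ring
  · change crossProduct (axis f) z 1 = ((lin f - (lin f)ᵀ) *ᵥ z) 1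
    rw [cross1]
    simp [axis, Matrix.mulVec, dotProduct, Fin.sum_univ_three]
    ring
  · change crossProduct (axis f) z 2 = ((lin f - (lin f)ᵀ) *ᵥ z) 2
    rw [cross2]
    simp [axis, Matrix.mulVec, dotProduct, Fin.sum_univ_three]
    ring

theorem main_mat {A : Matrix (Fin 3) (Fin 3) ℚ} (h1 : Aᵀ * A = 1) (h2 : A.det = 1) :
    (A - Aᵀ) * (1 + A) = (1 + A.trace) • (A - 1) := by
  have h := rot_ch h1 h2
  have e : (A - Aᵀ) * (1 + A) = A + A * A - Aᵀ - 1 := by
    rw [mul_add, mul_one, sub_mul, h1]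
    abel
  have e2 : A * A = A.trace • A - A.trace • (1 : Matrix (Fin 3) (Fin 3) ℚ) + Aᵀ := by
    rw [← h]
    abel
  rw [e, e2, add_smul, one_smul, smul_sub]
  abel

theorem axis_fixed {f : Equiv.Perm V3} (hf : f ∈ SIsom3) (ht : 1 + (lin f).trace ≠ 0) :
    (lin f)ᵀ *ᵥ axis f = axis f := by
  have h1 := lin_orth hf.1
  have h0 : (lin f - (lin f)ᵀ) *ᵥ axis f = 0 := by
    rw [← axis_cross, cross_self]
  have hA : lin f *ᵥ axis f = (lin f)ᵀ *ᵥ axis f := by
    rw [Matrix.sub_mulVec] at h0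
    exact sub_eq_zero.1 h0
  have hAA : lin f *ᵥ (lin f *ᵥ axis f) = axis f := by
    rw [hA, Matrix.mulVec_mulVec, lin_orth' hf.1, Matrix.one_mulVec]
  have h := congrArg (fun M : Matrix (Fin 3) (Fin 3) ℚ => M *ᵥ axis f) (main_mat h1 hf.2)
  change ((lin f - (lin f)ᵀ) * (1 + lin f)) *ᵥ axis f =
    ((1 + (lin f).trace) • (lin f - 1)) *ᵥ axis f at h
  rw [← Matrix.mulVec_mulVec, Matrix.add_mulVec, Matrix.one_mulVec, Matrix.mulVec_add, h0,
    zero_add, Matrix.sub_mulVec, hAA, Matrix.smul_mulVec, Matrix.sub_mulVec, Matrix.one_mulVec] at h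
  have h3 : (lin f)ᵀ *ᵥ (lin f *ᵥ axis f) = axis f := by
    rw [Matrix.mulVec_mulVec, h1, Matrix.one_mulVec]
  rw [h3, sub_self] at h
  have h4 : lin f *ᵥ axis f - axis f = 0 := by
    rcases smul_eq_zero.1 h.symm with h5 | h5
    · exact absurd h5 ht
    · exact h5
  rw [← hA]
  exact sub_eq_zero.1 h4

end GIBM

open GIBM in
theorem GIB_thm : Stmt_GIB := by
  intro μ f hf ht
  rw [rep_nrm_iff]
  intro z
  have hfix := axis_fixed hf ht
  set c : ℚ := (1 + (lin f).trace)⁻¹ with hc
  have hz : f z = lin f *ᵥ z + trn f := apply_eq hf.1 z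
  have hdot : (lin f *ᵥ z) ⬝ᵥ axis f = z ⬝ᵥ axis f := by
    rw [dotProduct_comm, Matrix.dotProduct_mulVec, ← Matrix.mulVec_transpose, hfix,
      dotProduct_comm]
  refine ⟨?_, ?_⟩
  · change (c • axis f) ⬝ᵥ (μ • (trn f + crossProduct (trn f) (c • axis f))) =
      μ * (f z ⬝ᵥ (c • axis f) - (c • axis f) ⬝ᵥ z)
    rw [hz, dotProduct_smul, dotProduct_add, dot_cross_self, add_zero, smul_eq_mul,
      dotProduct_comm (c • axis f) z, dotProduct_comm (c • axis f) (trn f), add_dotProduct,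
      dotProduct_smul, dotProduct_smul, dotProduct_smul, hdot]
    ring
  · change μ • (trn f + crossProduct (trn f) (c • axis f)) =
      μ • (f z + crossProduct (f z) (c • axis f) - z - crossProduct (c • axis f) z)
    congr 1
    have hm := congrArg (fun M : Matrix (Fin 3) (Fin 3) ℚ => M *ᵥ z) (main_mat (lin_orth hf.1) hf.2)
    change ((lin f - (lin f)ᵀ) * (1 + lin f)) *ᵥ z =
      ((1 + (lin f).trace) • (lin f - 1)) *ᵥ z at hm
    rw [← Matrix.mulVec_mulVec, Matrix.add_mulVec, Matrix.one_mulVec, ← axis_cross,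
      Matrix.smul_mulVec, Matrix.sub_mulVec, Matrix.one_mulVec] at hm
    have hm2 : crossProduct (c • axis f) (z + lin f *ᵥ z) = lin f *ᵥ z - z := by
      rw [map_smul, LinearMap.smul_apply, hm, smul_smul, hc, inv_mul_cancel₀ ht, one_smul]
    rw [map_add] at hm2
    have hz2 : crossProduct (f z) (c • axis f) = crossProduct (trn f) (c • axis f) -
        crossProduct (c • axis f) (lin f *ᵥ z) := by
      rw [hz, map_add, LinearMap.add_apply, ← cross_anticomm (lin f *ᵥ z) (c • axis f)]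
      abel
    rw [hz2, hz]
    have e : lin f *ᵥ z + trn f + (crossProduct (trn f) (c • axis f) -
        crossProduct (c • axis f) (lin f *ᵥ z)) - z - crossProduct (c • axis f) z =
        trn f + crossProduct (trn f) (c • axis f) + ((lin f *ᵥ z - z) -
        (crossProduct (c • axis f) z + crossProduct (c • axis f) (lin f *ᵥ z))) := by
      abel
    rw [e, hm2, sub_self, add_zero]

end Pool.Agent.UVR
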