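import Pool.Agent.UVR.Stmts

/-!
# Rare fixed points in every free group of isometries of `ℚ³`: smallness of the normalised vector
-/

set_option autoImplicit false

namespace Pool.Agent.UVR

open Matrix Quaternion

namespace GISM

theorem axis_dv {K m : ℕ} {f : Equiv.Perm V3} (h : ∀ i j, Dv K m ((lin f - 1) i j)) :
    Dv3 K m (axis f) := by
  intro i
  fin_cases i
  · have e : axis f 0 = (lin f - 1) 2 1 - (lin f - 1) 1 2 := by
      simp [axis]
    change Dv K m (axis f 0)
    rw [e]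
    exact (h 2 1).sub (h 1 2)
  · have e : axis f 1 = (lin f - 1) 0 2 - (lin f - 1) 2 0 := by
      simp [axis]
    change Dv K m (axis f 1)
    rw [e]
    exact (h 0 2).sub (h 2 0)
  · have e : axis f 2 = (lin f - 1) 1 0 - (lin f - 1) 0 1 := by
      simp [axis]
    change Dv K m (axis f 2)
    rw [e]
    exact (h 1 0).sub (h 0 1)

theorem trace_eq (f : Equiv.Perm V3) :
    1 + (lin f).trace = 4 + ((lin f - 1) 0 0 + (lin f - 1) 1 1 + (lin f - 1) 2 2) := by
  simp [Matrix.trace_fin_three]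
  ring

theorem symm_of_axis {f : Equiv.Perm V3} (h : axis f = 0) : (lin f)ᵀ = lin f := by
  have h0 : axis f 0 = 0 := by rw [h]; rfl
  have h1 : axis f 1 = 0 := by rw [h]; rfl
  have h2 : axis f 2 = 0 := by rw [h]; rfl
  simp [axis] at h0 h1 h2
  ext i j
  rw [Matrix.transpose_apply]
  fin_cases i <;> fin_cases j <;> simp <;> linarith

theorem eq_one {f : Equiv.Perm V3} (hf : f ∈ SIsom3) (ht : 1 + (lin f).trace ≠ 0)
    (h : axis f = 0) : lin f = 1 := by
  have hs := symm_of_axis h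
  have hc := rot_ch (lin_orth hf.1) hf.2
  have ho := lin_orth hf.1
  rw [hs] at ho hc
  rw [ho] at hc
  have h1 : (1 + (lin f).trace) • (1 : Matrix (Fin 3) (Fin 3) ℚ) =
      (1 + (lin f).trace) • lin f := by
    rw [add_smul, add_smul, one_smul, one_smul]
    have h2 : (1 : Matrix (Fin 3) (Fin 3) ℚ) + (lin f).trace • (1 : Matrix (Fin 3) (Fin 3) ℚ) =
        (1 - (lin f).trace • lin f + (lin f).trace • (1 : Matrix (Fin 3) (Fin 3) ℚ)) +
          (lin f).trace • lin f := by
      abel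
    rw [h2, hc]
  exact (smul_right_injective _ ht h1).symm

end GISM

theorem GIS_thm : Stmt_GIS := by
  intro hR K h μ hK hE hh f hf hA hb
  obtain ⟨m, hm⟩ := hE
  have hKq : (K : ℚ) = 2 * (m : ℚ) := by
    rw [hm]
    push_cast
    ring
  have hax := GISM.axis_dv hA
  obtain ⟨z, hz, hz2⟩ := ((hA 0 0).add (hA 1 1)).add (hA 2 2)
  have hmR : (m : ℚ) ^ 2 ∈ RK K := (RK K).pow_mem (RK_nat K m) 2
  set q : ℚ := 1 + (K : ℚ) ^ h * ((m : ℚ) ^ 2 * z) with hq
  have hq1 : Dv K 1 (q - 1) := by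
    refine Dv.mono hh ⟨(m : ℚ) ^ 2 * z, (RK K).mul_mem hmR hz, ?_⟩
    rw [hq]
    ring
  obtain ⟨hq0, hqi⟩ := (hR K hK).1 q hq1
  have ht : 1 + (lin f).trace = 4 * q := by
    rw [GISM.trace_eq, hz2, hq, pow_add, hKq]
    ring
  have ht0 : 1 + (lin f).trace ≠ 0 := by
    rw [ht]
    exact mul_ne_zero (by norm_num) hq0
  have hω : Dv3 K h ((1 + (lin f).trace)⁻¹ • axis f) := by
    intro i
    obtain ⟨x, hx, hx2⟩ := hax i
    refine ⟨(m : ℚ) ^ 2 * (q⁻¹ * x), (RK K).mul_mem hmR ((RK K).mul_mem hqi hx), ?_⟩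
    rw [Pi.smul_apply, smul_eq_mul, hx2, ht, mul_inv, pow_add, hKq]
    ring
  refine ⟨ht0, ⟨hω, ?_⟩, ?_⟩
  · change Dv3 K h (μ • (trn f + crossProduct (trn f) ((1 + (lin f).trace)⁻¹ • axis f)))
    have e : μ • (trn f + crossProduct (trn f) ((1 + (lin f).trace)⁻¹ • axis f)) =
        μ • trn f + crossProduct (μ • trn f) ((1 + (lin f).trace)⁻¹ • axis f) := by
      rw [smul_add]
      congr 1
      simp only [map_smul, LinearMap.smul_apply]
      rw [smul_comm]
    rw [e]
    exact hb.add ((hb.cross hω).mono (Nat.le_add_right h h))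
  · intro h1 h2
    apply h1
    change (1 + (lin f).trace)⁻¹ • axis f = 0 at h2
    have h3 : axis f = 0 := by
      rcases smul_eq_zero.1 h2 with h4 | h4
      · exact absurd h4 (inv_ne_zero ht0)
      · exact h4
    exact GISM.eq_one hf ht0 h3

end Pool.Agent.UVR
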