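import Pool.Agent.UVR.Stmts2

/-!
# Rare fixed points in every free group of isometries of `ℚ³`: module GNK
-/

set_option autoImplicit false

namespace Pool.Agent.UVR

open Matrix Quaternion

namespace GNKM

/-- The isometries whose linear parts have entries with denominators prime to `K`. -/
def IsoK (K : ℕ) : Subgroup (Equiv.Perm V3) where
  carrier := {g | g ∈ Isom3 ∧ ∀ i j, lin g i j ∈ RK K}
  mul_mem' := by
    intro f g hf hg
    refine ⟨Isom3.mul_mem hf.1 hg.1, fun i j => ?_⟩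
    rw [lin_mul hf.1 hg.1, Matrix.mul_apply]
    exact Subring.sum_mem _ fun k _ => Subring.mul_mem _ (hf.2 i k) (hg.2 k j)
  one_mem' := by
    refine ⟨Isom3.one_mem, fun i j => ?_⟩
    rw [lin_one, Matrix.one_apply]
    split_ifs
    · exact Subring.one_mem _
    · exact Subring.zero_mem _
  inv_mem' := by
    intro f hf
    refine ⟨Isom3.inv_mem hf.1, fun i j => ?_⟩
    rw [lin_inv hf.1]
    exact hf.2 j i

/-- Subgroups of free groups are free. -/
theorem free_sub {F H : Subgroup (Equiv.Perm V3)} (hF : IsFreeGroup F) (h : H ≤ F) :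
    IsFreeGroup H := by
  have h1 : IsFreeGroup (H.subgroupOf F) := subgroupIsFreeOfIsFree _
  exact IsFreeGroup.ofMulEquiv (Subgroup.subgroupOfEquivOfLe h)

/-- Unique roots. -/
theorem root {F : Subgroup (Equiv.Perm V3)} (hF : IsFreeGroup F) {x y : Equiv.Perm V3}
    (hx : x ∈ F) (hy : y ∈ F) {n : ℕ} (hn : n ≠ 0) (h : x ^ n = y ^ n) : x = y := by
  have ht : IsMulTorsionFree F :=
    Function.Injective.isMulTorsionFree (IsFreeGroup.toFreeGroup F).toMonoidHom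
      (IsFreeGroup.toFreeGroup F).injective
  have h1 : (⟨x, hx⟩ : F) ^ n = (⟨y, hy⟩ : F) ^ n := Subtype.ext h
  exact congrArg Subtype.val (pow_left_injective hn h1)

/-- Commuting powers. -/
theorem comm_pow {F : Subgroup (Equiv.Perm V3)} (hF : IsFreeGroup F) {a b : Equiv.Perm V3}
    (ha : a ∈ F) (hb : b ∈ F) {n m : ℕ} (hn : n ≠ 0) (hm : m ≠ 0)
    (h : a ^ n * b ^ m = b ^ m * a ^ n) : a * b = b * a := by
  have h1 : (b ^ m * a * (b ^ m)⁻¹) ^ n = a ^ n := by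
    rw [conj_pow, ← h, mul_assoc, mul_inv_cancel, mul_one]
  have h2 : b ^ m * a * (b ^ m)⁻¹ = a :=
    root hF (F.mul_mem (F.mul_mem (F.pow_mem hb m) ha) (F.inv_mem (F.pow_mem hb m))) ha hn h1
  have h3 : b ^ m * a = a * b ^ m := by
    rw [mul_inv_eq_iff_eq_mul] at h2
    exact h2
  have h4 : (a * b * a⁻¹) ^ m = b ^ m := by
    rw [conj_pow, ← h3, mul_assoc, mul_inv_cancel, mul_one]
  have h5 : a * b * a⁻¹ = b := root hF (F.mul_mem (F.mul_mem ha hb) (F.inv_mem ha)) hb hm h4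
  rw [mul_inv_eq_iff_eq_mul] at h5
  exact h5

/-- The axis vector. -/
theorem axis_cross (f : Equiv.Perm V3) (w : V3) :
    crossProduct (axis f) w = (lin f - (lin f)ᵀ) *ᵥ w := by
  funext i
  fin_cases i
  · change crossProduct (axis f) w 0 = _
    rw [cross0]
    simp [axis, Matrix.mulVec, dotProduct, Fin.sum_univ_three, Matrix.sub_apply,
      Matrix.transpose_apply]
    ring
  · change crossProduct (axis f) w 1 = _
    rw [cross1]
    simp [axis, Matrix.mulVec, dotProduct, Fin.sum_univ_three, Matrix.sub_apply,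
      Matrix.transpose_apply]
    ring
  · change crossProduct (axis f) w 2 = _
    rw [cross2]
    simp [axis, Matrix.mulVec, dotProduct, Fin.sum_univ_three, Matrix.sub_apply,
      Matrix.transpose_apply]
    ring

/-- The difference of two fixed points is parallel to the axis vector. -/
theorem cross_of_fixed {f : Equiv.Perm V3} (hf : f ∈ Isom3) {x x' : V3} (h : f x = x)
    (h' : f x' = x') : crossProduct (axis f) (x - x') = 0 := by
  have h1 : lin f *ᵥ (x - x') = x - x' := by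
    have e1 := apply_eq hf x
    have e2 := apply_eq hf x'
    rw [h] at e1
    rw [h'] at e2
    rw [Matrix.mulVec_sub]
    conv_rhs => rw [e1, e2]
    abel
  have h2 : (lin f)ᵀ *ᵥ (x - x') = x - x' := by
    conv_lhs => rw [← h1]
    rw [Matrix.mulVec_mulVec, lin_orth hf, Matrix.one_mulVec]
  rw [axis_cross, Matrix.sub_mulVec, h1, h2, sub_self]

/-- Two vectors parallel to a third one. -/
theorem cross_par {u v d : V3} (hd : d ≠ 0) (hu : crossProduct u d = 0)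
    (hv : crossProduct v d = 0) : crossProduct u v = 0 := by
  have u0 := congrFun hu 0
  have u1 := congrFun hu 1
  have u2 := congrFun hu 2
  have v0 := congrFun hv 0
  have v1 := congrFun hv 1
  have v2 := congrFun hv 2
  rw [cross0] at u0 v0
  rw [cross1] at u1 v1
  rw [cross2] at u2 v2
  simp only [Pi.zero_apply] at u0 u1 u2 v0 v1 v2
  have hn : d 0 ^ 2 + d 1 ^ 2 + d 2 ^ 2 ≠ 0 := by
    intro h
    apply hd
    have e0 : d 0 = 0 := by nlinarith [sq_nonneg (d 0), sq_nonneg (d 1), sq_nonneg (d 2)]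
    have e1 : d 1 = 0 := by nlinarith [sq_nonneg (d 0), sq_nonneg (d 1), sq_nonneg (d 2)]
    have e2 : d 2 = 0 := by nlinarith [sq_nonneg (d 0), sq_nonneg (d 1), sq_nonneg (d 2)]
    funext i
    fin_cases i <;> assumption
  funext i
  fin_cases i
  · change crossProduct u v 0 = 0
    rw [cross0]
    apply mul_left_cancel₀ hn
    linear_combination (d 2 * v 2 + d 1 * v 1) * u0 - d 0 * v 1 * u1 - d 0 * v 2 * u2 -
      (d 0 * u 0 + d 1 * u 1 + d 2 * u 2) * v0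
  · change crossProduct u v 1 = 0
    rw [cross1]
    apply mul_left_cancel₀ hn
    linear_combination (d 0 * v 0 + d 2 * v 2) * u1 - d 1 * v 0 * u0 - d 1 * v 2 * u2 -
      (d 0 * u 0 + d 1 * u 1 + d 2 * u 2) * v1
  · change crossProduct u v 2 = 0
    rw [cross2]
    apply mul_left_cancel₀ hn
    linear_combination (d 1 * v 1 + d 0 * v 0) * u2 - d 2 * v 1 * u1 - d 2 * v 0 * u0 -
      (d 0 * u 0 + d 1 * u 1 + d 2 * u 2) * v2

/-- Two direct isometries of `F` that do not commute have at most one common fixed point. -/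
theorem unique (hPAR : Stmt_PAR) (hGIB : Stmt_GIB) (hHLF : Stmt_HLF)
    {F : Subgroup (Equiv.Perm V3)} (h1 : ∀ f ∈ F, lin f = 1 → f = 1)
    (h2 : ∀ f ∈ F, ∀ n : ℕ, n ≠ 0 → f ^ n = 1 → f = 1) {f h : Equiv.Perm V3} (hf : f ∈ F)
    (hh : h ∈ F) (hf' : f ∈ SIsom3) (hh' : h ∈ SIsom3) (hne : f * h ≠ h * f) {x x' : V3}
    (fx : f x = x) (hx : h x = x) (fx' : f x' = x') (hx' : h x' = x') : x = x' := by
  have tr : ∀ g ∈ F, g ∈ SIsom3 → g ≠ 1 → 1 + (lin g).trace ≠ 0 := by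
    intro g hg hg' hg1 h0
    apply hg1
    refine h2 g hg 2 two_ne_zero (h1 _ (F.pow_mem hg 2) ?_)
    rw [pow_two, lin_mul hg'.1 hg'.1]
    exact hHLF g hg' h0
  have f1 : f ≠ 1 := by
    rintro rfl
    exact hne (by rw [one_mul, mul_one])
  have g1 : h ≠ 1 := by
    rintro rfl
    exact hne (by rw [one_mul, mul_one])
  have hc : crossProduct (axis f) (axis h) ≠ 0 := by
    intro h0
    have h3 := hPAR hGIB f hf' h hh' (tr f hf hf' f1) (tr h hh hh' g1) h0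
    apply hne
    have h4 : f * h * (h * f)⁻¹ = 1 := by
      refine h1 _ (F.mul_mem (F.mul_mem hf hh) (F.inv_mem (F.mul_mem hh hf))) ?_
      rw [lin_mul (Isom3.mul_mem hf'.1 hh'.1) (Isom3.inv_mem (Isom3.mul_mem hh'.1 hf'.1)),
        lin_inv (Isom3.mul_mem hh'.1 hf'.1), lin_mul hf'.1 hh'.1, h3, ← lin_mul hh'.1 hf'.1]
      exact lin_orth' (Isom3.mul_mem hh'.1 hf'.1)
    exact mul_inv_eq_one.1 h4
  by_contra hxx
  exact hc (cross_par (sub_ne_zero.2 hxx) (cross_of_fixed hf'.1 fx fx')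
    (cross_of_fixed hh'.1 hx hx'))

theorem sq_direct {f : Equiv.Perm V3} (hf : f ∈ Isom3) : f ^ 2 ∈ SIsom3 := by
  refine ⟨Isom3.pow_mem hf 2, ?_⟩
  rw [pow_two, lin_mul hf hf, Matrix.det_mul]
  rcases det_sq hf with h | h <;> rw [h] <;> norm_num

end GNKM

open GNKM in
theorem GNK_thm : Stmt_GNK := by
  intro hFRC hGIB hPAR hHLF hGEN hCNJ hRKA hLOC K hK F hF hfree hnf a0 ha0 b0 hb0 hne hA hB
  -- the application of GEN to a subgroup of `F`
  have main : ∀ F1 : Subgroup (Equiv.Perm V3), F1 ≤ F → F1 ≤ IsoK K →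
      (∃ a ∈ F1, ∃ b ∈ F1, a * b ≠ b * a) → (¬ ∃ x : V3, ∀ g ∈ F1, g x = x) →
      ∃ a ∈ F, ∃ b ∈ F, ∃ c ∈ F, a ∈ SIsom3 ∧ b ∈ SIsom3 ∧ c ∈ SIsom3 ∧
        crossProduct (axis a) (axis b) ≠ 0 ∧ (¬ ∃ x : V3, a x = x ∧ b x = x ∧ c x = x) ∧
        (∀ i j, lin a i j ∈ RK K) ∧ (∀ i j, lin b i j ∈ RK K) ∧ (∀ i j, lin c i j ∈ RK K) := by
    intro F1 h1 h2 h3 h4
    obtain ⟨_, _, a, ha, b, hb, c, hc, ha', hb', hc', hx, hfx⟩ :=
      hGEN hFRC hGIB hPAR hHLF F1 (h1.trans hF) (free_sub hfree h1) h3 h4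
    exact ⟨a, h1 ha, b, h1 hb, c, h1 hc, ha', hb', hc', hx, hfx, (h2 ha).2, (h2 hb).2, (h2 hc).2⟩
  have ka0 : a0 ∈ IsoK K := ⟨hF ha0, hA⟩
  have kb0 : b0 ∈ IsoK K := ⟨hF hb0, hB⟩
  by_cases hcase : ∃ x : V3, ∀ g ∈ Subgroup.closure {a0, b0}, g x = x
  · obtain ⟨x0, hx0⟩ := hcase
    have fa0 : a0 x0 = x0 := hx0 a0 (Subgroup.subset_closure (Set.mem_insert _ _))
    have fb0 : b0 x0 = x0 := hx0 b0 (Subgroup.subset_closure (Set.mem_insert_of_mem _ rfl))
    push Not at hnf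
    obtain ⟨g, hg, hgx⟩ := hnf x0
    have hnf' : ¬ ∃ x : V3, ∀ g ∈ F, g x = x := by
      rintro ⟨x, hx⟩
      obtain ⟨g', hg', hgx'⟩ := hnf x
      exact hgx' (hx g' hg')
    obtain ⟨e1, e2, _⟩ := hGEN hFRC hGIB hPAR hHLF F hF hfree ⟨a0, ha0, b0, hb0, hne⟩ hnf'
    have hfp : ∀ {f : Equiv.Perm V3} {x : V3} (_ : f x = x) (n : ℕ), (f ^ n) x = x := by
      intro f x hfx n
      induction n with
      | zero => simp
      | succ n ih => rw [pow_succ, Equiv.Perm.mul_apply, hfx, ih]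
    -- the squares
    have ha : a0 ^ 2 ∈ F := F.pow_mem ha0 2
    have hb : b0 ^ 2 ∈ F := F.pow_mem hb0 2
    have sa : a0 ^ 2 ∈ SIsom3 := sq_direct (hF ha0)
    have sb : b0 ^ 2 ∈ SIsom3 := sq_direct (hF hb0)
    have hne2 : a0 ^ 2 * b0 ^ 2 ≠ b0 ^ 2 * a0 ^ 2 := fun h =>
      hne (comm_pow hfree ha0 hb0 two_ne_zero two_ne_zero h)
    have ka : a0 ^ 2 ∈ IsoK K := (IsoK K).pow_mem ka0 2
    have kb : b0 ^ 2 ∈ IsoK K := (IsoK K).pow_mem kb0 2
    obtain ⟨n, hn, hn'⟩ := hCNJ hRKA hLOC K hK (a0 ^ 2) sa g (hF hg)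
      fun n i j => ((IsoK K).pow_mem ka n).2 i j
    obtain ⟨m, hm, hm'⟩ := hCNJ hRKA hLOC K hK (b0 ^ 2) sb g (hF hg)
      fun n i j => ((IsoK K).pow_mem kb n).2 i j
    have hne3 : (a0 ^ 2) ^ n * (b0 ^ 2) ^ m ≠ (b0 ^ 2) ^ m * (a0 ^ 2) ^ n := fun h =>
      hne2 (comm_pow hfree ha hb (by omega) (by omega) h)
    have hca : g * (a0 ^ 2) ^ n * g⁻¹ ∈ F :=
      F.mul_mem (F.mul_mem hg (F.pow_mem ha n)) (F.inv_mem hg)
    have hcb : g * (b0 ^ 2) ^ m * g⁻¹ ∈ F :=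
      F.mul_mem (F.mul_mem hg (F.pow_mem hb m)) (F.inv_mem hg)
    refine main (Subgroup.closure {a0 ^ 2, b0 ^ 2, g * (a0 ^ 2) ^ n * g⁻¹,
      g * (b0 ^ 2) ^ m * g⁻¹}) ?_ ?_ ⟨a0 ^ 2, Subgroup.subset_closure (by simp), b0 ^ 2,
        Subgroup.subset_closure (by simp), hne2⟩ ?_
    · rw [Subgroup.closure_le]
      rintro y (rfl | rfl | rfl | rfl)
      · exact ha
      · exact hb
      · exact hca
      · exact hcb
    · rw [Subgroup.closure_le]
      rintro y (rfl | rfl | rfl | rfl)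
      · exact ka
      · exact kb
      · exact ⟨hF hca, hn'⟩
      · exact ⟨hF hcb, hm'⟩
    · rintro ⟨x1, hx1⟩
      have f1 : (a0 ^ 2) x1 = x1 := hx1 _ (Subgroup.subset_closure (by simp))
      have f2 : (b0 ^ 2) x1 = x1 := hx1 _ (Subgroup.subset_closure (by simp))
      have f3 : (g * (a0 ^ 2) ^ n * g⁻¹) x1 = x1 := hx1 _ (Subgroup.subset_closure (by simp))
      have f4 : (g * (b0 ^ 2) ^ m * g⁻¹) x1 = x1 := hx1 _ (Subgroup.subset_closure (by simp))
      have u1 : x1 = x0 := unique hPAR hGIB hHLF e1 e2 ha hb sa sb hne2 f1 f2 (hfp fa0 2) (hfp fb0 2)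
      have f5 : ((a0 ^ 2) ^ n) (g⁻¹ x1) = g⁻¹ x1 := by
        rw [Equiv.Perm.mul_apply, Equiv.Perm.mul_apply] at f3
        exact (Equiv.Perm.eq_inv_iff_eq).2 f3
      have f6 : ((b0 ^ 2) ^ m) (g⁻¹ x1) = g⁻¹ x1 := by
        rw [Equiv.Perm.mul_apply, Equiv.Perm.mul_apply] at f4
        exact (Equiv.Perm.eq_inv_iff_eq).2 f4
      have u2 : g⁻¹ x1 = x0 := unique hPAR hGIB hHLF e1 e2 (F.pow_mem ha n) (F.pow_mem hb m)
        (SIsom3.pow_mem sa n) (SIsom3.pow_mem sb m) hne3 f5 f6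
        (hfp (hfp fa0 2) n) (hfp (hfp fb0 2) m)
      apply hgx
      rw [Equiv.Perm.inv_eq_iff_eq] at u2
      rw [← u2, u1]
  · refine main (Subgroup.closure {a0, b0}) ?_ ?_ ⟨a0, Subgroup.subset_closure (by simp), b0,
      Subgroup.subset_closure (by simp), hne⟩ hcase
    · rw [Subgroup.closure_le]
      rintro y (rfl | rfl)
      · exact ha0
      · exact hb0
    · rw [Subgroup.closure_le]
      rintro y (rfl | rfl)
      · exact ka0
      · exact kb0

end Pool.Agent.UVR
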