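import Pool.Agent.UVR.Stmts

/-!
# UVR, module GRP: groups modulo the third term of the lower central series (helper48)
-/

set_option autoImplicit false

namespace Pool.Agent.UVR

namespace GRPM

lemma key {Q : Type} [Group Q] (u v z : Q) (hz : z = u * v * u⁻¹ * v⁻¹) (hc : ∀ x, Commute z x)
    (a b : ℤ) : v ^ b * u ^ a = u ^ a * v ^ b * z ^ (-(b * a)) := by
  have h1 : v * u * v⁻¹ = z⁻¹ * u := by
    rw [hz]
    group
  have h2 : v * u ^ a * v⁻¹ = z ^ (-a) * u ^ a := by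
    rw [← conj_zpow, h1, ((hc u).inv_left).mul_zpow, inv_zpow']
  have h3 : (u ^ a)⁻¹ * v * ((u ^ a)⁻¹)⁻¹ = z ^ (-a) * v := by
    have h : v * u ^ a = z ^ (-a) * u ^ a * v := by
      rw [← h2]
      group
    rw [inv_inv, mul_assoc, h, ← mul_assoc, ← mul_assoc]
    have h5 : (u ^ a)⁻¹ * z ^ (-a) = z ^ (-a) * (u ^ a)⁻¹ :=
      (((hc (u ^ a)).zpow_left (-a)).inv_right).symm.eq
    rw [h5]
    group
  have h4 := conj_zpow (a := (u ^ a)⁻¹) (b := v) (i := b)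
  rw [h3, ((hc v).zpow_left (-a)).mul_zpow, ← zpow_mul] at h4
  have h6 : v ^ b * u ^ a = u ^ a * (z ^ (-a * b) * v ^ b) := by
    rw [h4]
    group
  rw [h6, ((hc (v ^ b)).zpow_left (-a * b)).eq, ← mul_assoc]
  congr 2
  ring

/-- The third term of the lower central series. -/
def C3 (P : Type) [Group P] : Subgroup P :=
  ⁅⁅(⊤ : Subgroup P), (⊤ : Subgroup P)⁆, (⊤ : Subgroup P)⁆

instance C3_normal (P : Type) [Group P] : (C3 P).Normal := by
  unfold C3
  infer_instance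

/-- The image in the quotient. -/
def m {P : Type} [Group P] (x : P) : P ⧸ C3 P := QuotientGroup.mk x

lemma m_mul {P : Type} [Group P] (x y : P) : m (x * y) = m x * m y := rfl

lemma m_inv {P : Type} [Group P] (x : P) : m x⁻¹ = (m x)⁻¹ := rfl

lemma m_zpow {P : Type} [Group P] (x : P) (n : ℤ) : m (x ^ n) = m x ^ n := rfl

lemma mem_iff {G : Type} [Group G] (H : Subgroup G) (x : H) :
    (x : G) ∈ ⁅⁅H, H⁆, H⁆ ↔ x ∈ C3 H := by
  have h : ⁅⁅H, H⁆, H⁆ = (C3 H).map H.subtype := by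
    unfold C3
    rw [Subgroup.map_commutator, Subgroup.map_commutator, ← MonoidHom.range_eq_map,
      Subgroup.range_subtype]
  rw [h, Subgroup.mem_map]
  constructor
  · rintro ⟨y, hy, e⟩
    have : y = x := Subtype.ext e
    rwa [← this]
  · intro hx
    exact ⟨x, hx, rfl⟩

/-- Modulo the third term, commutators are central. -/
lemma central {P : Type} [Group P] (x y : P) (w : P ⧸ C3 P) : Commute (m (x * y * x⁻¹ * y⁻¹)) w := by
  induction w using QuotientGroup.induction_on with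
  | H w =>
    have h : x * y * x⁻¹ * y⁻¹ ∈ ⁅(⊤ : Subgroup P), (⊤ : Subgroup P)⁆ :=
      Subgroup.commutator_mem_commutator (Subgroup.mem_top x) (Subgroup.mem_top y)
    have h2 := Subgroup.commutator_mem_commutator h (Subgroup.mem_top w)
    have h3 := (QuotientGroup.eq_one_iff (N := C3 P) _).2 h2
    exact commutatorElement_eq_one_iff_commute.1 h3

lemma mk_iff {G : Type} [Group G] (H : Subgroup G) (x y : H) :
    ((x : G)⁻¹ * (y : G) ∈ ⁅⁅H, H⁆, H⁆) ↔ m x = m y := by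
  unfold m
  rw [QuotientGroup.eq, ← mem_iff]
  rfl

end GRPM

open GRPM

theorem GRP_thm : Stmt_GRP := by
  intro G _ u v H hH
  have hu : u ∈ H := by
    rw [hH]
    exact Subgroup.subset_closure (Set.mem_insert _ _)
  have hv : v ∈ H := by
    rw [hH]
    exact Subgroup.subset_closure (Set.mem_insert_of_mem _ rfl)
  -- the lifts
  let U : H := ⟨u, hu⟩
  let V : H := ⟨v, hv⟩
  let W : ℤ → ℤ → ℤ → H := fun a b t => U ^ a * V ^ b * (U * V * U⁻¹ * V⁻¹) ^ t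
  have hW : ∀ a b t, ((W a b t : H) : G) = u ^ a * v ^ b * (u * v * u⁻¹ * v⁻¹) ^ t := fun _ _ _ => rfl
  have hc : ∀ x, Commute (m (U * V * U⁻¹ * V⁻¹)) x := fun x => central U V x
  have hk := key (m U) (m V) (m (U * V * U⁻¹ * V⁻¹)) rfl hc
  generalize hz : m (U * V * U⁻¹ * V⁻¹) = z at hk hc
  generalize hU : m U = p at hk
  generalize hV : m V = q at hk
  have hWm : ∀ a b t, m (W a b t) = p ^ a * q ^ b * z ^ t := by
    intro a b t
    rw [← hz, ← hU, ← hV]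
    rfl
  refine ⟨?_, ?_, ?_⟩
  · intro g g' a b t a' b' t' hg hg' h1 h2
    have e1 := (mk_iff H (W a b t) ⟨g, hg⟩).1 h1
    have e2 := (mk_iff H (W a' b' t') ⟨g', hg'⟩).1 h2
    refine (mk_iff H (W (a + a') (b + b') (t + t' - b * a')) (⟨g, hg⟩ * ⟨g', hg'⟩)).2 ?_
    have e3 : m ((⟨g, hg⟩ : H) * ⟨g', hg'⟩) = m ⟨g, hg⟩ * m ⟨g', hg'⟩ := rfl
    rw [e3, ← e1, ← e2, hWm, hWm, hWm]
    have hzt := (hc (p ^ a' * q ^ b')).zpow_left t
    have h3 : p ^ a * q ^ b * z ^ t * (p ^ a' * q ^ b' * z ^ t') =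
        p ^ a * (q ^ b * p ^ a') * q ^ b' * (z ^ t * z ^ t') := by
      have : z ^ t * (p ^ a' * q ^ b' * z ^ t') = p ^ a' * q ^ b' * (z ^ t * z ^ t') := by
        rw [← mul_assoc, hzt.eq, mul_assoc]
      rw [mul_assoc, this]
      simp only [mul_assoc]
    have h4 := ((hc (q ^ b')).zpow_left (-(b * a')))
    have h5 : p ^ a * (p ^ a' * q ^ b * z ^ (-(b * a'))) * q ^ b' * (z ^ t * z ^ t') =
        (p ^ a * p ^ a') * (q ^ b * q ^ b') * (z ^ (-(b * a')) * (z ^ t * z ^ t')) := by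
      have : z ^ (-(b * a')) * (q ^ b' * (z ^ t * z ^ t')) =
          q ^ b' * (z ^ (-(b * a')) * (z ^ t * z ^ t')) := by
        rw [← mul_assoc, h4.eq, mul_assoc]
      simp only [mul_assoc] at this ⊢
      rw [this]
    rw [h3, hk a' b, h5, ← zpow_add, ← zpow_add, ← zpow_add, ← zpow_add]
    congr 2
    ring
  · intro g a b t hg h1
    have e1 := (mk_iff H (W a b t) ⟨g, hg⟩).1 h1
    refine (mk_iff H (W (-a) (-b) (-t - a * b)) (⟨g, hg⟩⁻¹)).2 ?_
    have e3 : m ((⟨g, hg⟩ : H)⁻¹) = (m ⟨g, hg⟩)⁻¹ := rfl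
    rw [e3, ← e1, hWm, hWm]
    have h2 : (p ^ a * q ^ b * z ^ t)⁻¹ = z ^ (-t) * (q ^ (-b) * p ^ (-a)) := by
      rw [mul_inv_rev, mul_inv_rev, zpow_neg, zpow_neg, zpow_neg]
    rw [h2, hk (-a) (-b), ((hc (p ^ (-a) * q ^ (-b) * z ^ (-(-b * -a)))).zpow_left (-t)).eq,
      mul_assoc (p ^ (-a) * q ^ (-b)), ← zpow_add]
    congr 2
    ring
  · intro K g a b t ha hb ht h1
    obtain ⟨a', rfl⟩ := ha
    obtain ⟨b', rfl⟩ := hb
    obtain ⟨t', rfl⟩ := ht
    have hp : ∀ x ∈ H, ∀ n : ℤ, x ^ ((K : ℤ) * n) ∈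
        ⁅⁅H, H⁆, H⁆ ⊔ Subgroup.closure {x | ∃ h ∈ H, x = h ^ K} := by
      intro x hx n
      refine Subgroup.mem_sup_right (Subgroup.subset_closure ⟨x ^ n, H.zpow_mem hx n, ?_⟩)
      rw [mul_comm, zpow_mul, zpow_natCast]
    have hzH : u * v * u⁻¹ * v⁻¹ ∈ H :=
      H.mul_mem (H.mul_mem (H.mul_mem hu hv) (H.inv_mem hu)) (H.inv_mem hv)
    have h2 := Subgroup.mul_mem _ (Subgroup.mul_mem _ (Subgroup.mul_mem _ (hp u hu a') (hp v hv b'))
      (hp _ hzH t')) (Subgroup.mem_sup_left (T := Subgroup.closure {x | ∃ h ∈ H, x = h ^ K}) h1)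
    rwa [mul_inv_cancel_left] at h2

end Pool.Agent.UVR
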