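import Pool.Agent.UVR.Stmts

/-!
# Half turns are involutions
-/

set_option autoImplicit false

namespace Pool.Agent.UVR

open Matrix

namespace HLFM

theorem trace_zero_imp {B : Matrix (Fin 3) (Fin 3) ℚ} (h : (Bᵀ * B).trace = 0) : B = 0 := by
  have h1 : ∑ j, ∑ i, (B i j) ^ 2 = 0 := by
    rw [← h]
    simp only [Matrix.trace, Matrix.diag_apply, Matrix.mul_apply, Matrix.transpose_apply]
    exact Finset.sum_congr rfl fun j _ => Finset.sum_congr rfl fun i _ => by ring
  have h2 := (Finset.sum_eq_zero_iff_of_nonneg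
    (fun j _ => Finset.sum_nonneg fun i _ => sq_nonneg (B i j))).1 h1
  ext i j
  have h3 := (Finset.sum_eq_zero_iff_of_nonneg (fun i _ => sq_nonneg (B i j))).1
    (h2 j (Finset.mem_univ _)) i (Finset.mem_univ _)
  simpa using h3

end HLFM

theorem HLF_thm : Stmt_HLF := by
  intro f hf ht
  have h1 : (lin f)ᵀ * lin f = 1 := lin_orth hf.1
  have h1' : lin f * (lin f)ᵀ = 1 := lin_orth' hf.1
  have h2 := rot_ch h1 hf.2
  have ht' : (lin f).trace = -1 := by linarith
  rw [ht'] at h2
  have h3 : lin f * lin f = (lin f)ᵀ - lin f + 1 := by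
    rw [← h2, neg_one_smul, neg_one_smul]
    abel
  have h4 : (lin f * lin f).trace = 3 := by
    rw [h3, Matrix.trace_add, Matrix.trace_sub, Matrix.trace_transpose, Matrix.trace_one]
    simp
  have h5 : ((lin f)ᵀ * (lin f)ᵀ).trace = 3 := by
    rw [← Matrix.transpose_mul, Matrix.trace_transpose, h4]
  have h6 : ((lin f - (lin f)ᵀ)ᵀ * (lin f - (lin f)ᵀ)).trace = 0 := by
    rw [Matrix.transpose_sub, Matrix.transpose_transpose, Matrix.sub_mul, Matrix.mul_sub,
      Matrix.mul_sub, Matrix.trace_sub, Matrix.trace_sub, Matrix.trace_sub, h1, h1', h4, h5,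
      Matrix.trace_one]
    simp
  have h7 := HLFM.trace_zero_imp h6
  have h8 : (lin f)ᵀ = lin f := (sub_eq_zero.1 h7).symm
  rw [h8] at h1
  exact h1

end Pool.Agent.UVR
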