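import Pool.Agent.UVR.Stmts

/-!
# A subspace invariant under two cross products is everything
-/

set_option autoImplicit false

namespace Pool.Agent.UVR

open Matrix

namespace IRRM

theorem jac (m n w : V3) :
    crossProduct (crossProduct m n) w =
      crossProduct m (crossProduct n w) - crossProduct n (crossProduct m w) := by
  ext i
  fin_cases i <;> simp [cross_apply] <;> ring

theorem dec (m n x w : V3) :
    (crossProduct m n ⬝ᵥ crossProduct m n) • crossProduct x w =
      (x ⬝ᵥ crossProduct n (crossProduct m n)) • crossProduct m w +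
      (x ⬝ᵥ crossProduct (crossProduct m n) m) • crossProduct n w +
      (x ⬝ᵥ crossProduct m n) • crossProduct (crossProduct m n) w := by
  ext i
  fin_cases i <;> simp [cross_apply, dotProduct, Fin.sum_univ_three] <;> ring

theorem lag (w z : V3) :
    (w ⬝ᵥ w) • z = (w ⬝ᵥ z) • w + crossProduct (crossProduct w z) w := by
  ext i
  fin_cases i <;> simp [cross_apply, dotProduct, Fin.sum_univ_three] <;> ring

theorem dot_ne {w : V3} (h : w ≠ 0) : w ⬝ᵥ w ≠ 0 := fun h0 => h (dotProduct_self_eq_zero.1 h0)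

theorem mem_of_smul (W : Submodule ℚ V3) {c : ℚ} {x : V3} (hc : c ≠ 0) (h : c • x ∈ W) : x ∈ W :=
  (W.smul_mem_iff hc).1 h

end IRRM

theorem IRR_thm : Stmt_IRR := by
  intro W m n hd hm hn hw
  obtain ⟨w, hwW, hw0⟩ := hw
  have h1 : ∀ w ∈ W, crossProduct (crossProduct m n) w ∈ W := by
    intro w hw
    rw [IRRM.jac]
    exact W.sub_mem (hm _ (hn _ hw)) (hn _ (hm _ hw))
  have h2 : ∀ x : V3, ∀ w ∈ W, crossProduct x w ∈ W := by
    intro x w hw
    apply IRRM.mem_of_smul W (IRRM.dot_ne hd)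
    rw [IRRM.dec]
    exact W.add_mem (W.add_mem (W.smul_mem _ (hm w hw)) (W.smul_mem _ (hn w hw)))
      (W.smul_mem _ (h1 w hw))
  rw [eq_top_iff]
  intro z _
  apply IRRM.mem_of_smul W (IRRM.dot_ne hw0)
  rw [IRRM.lag]
  exact W.add_mem (W.smul_mem _ hwW) (h2 _ w hwW)

end Pool.Agent.UVR
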