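import Pool.Agent.UVR.Stmts

/-!
# Rare fixed points in every free group of isometries of `ℚ³`: integral combinations
-/

set_option autoImplicit false

namespace Pool.Agent.UVR

open Matrix Quaternion

namespace LATM

theorem pow_mem {K : ℕ} {x : ℚ} {G : ℕ} (h : (K : ℚ) ^ G * x ∈ RK K) {H : ℕ} (hGH : G ≤ H) :
    (K : ℚ) ^ H * x ∈ RK K := by
  obtain ⟨d, rfl⟩ := Nat.exists_eq_add_of_le hGH
  have h1 : (K : ℚ) ^ (G + d) * x = (K : ℚ) ^ d * ((K : ℚ) ^ G * x) := by ring
  rw [h1]
  have h2 : (K : ℚ) ∈ RK K := natCast_mem (RK K) K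
  exact mul_mem (_root_.pow_mem h2 d) h

theorem mem_of_dv {K : ℕ} {x : ℚ} (h : Dv K 0 x) : x ∈ RK K := by
  obtain ⟨z, hz, rfl⟩ := h
  simpa using hz

/-- the unit vectors -/
def ev : Fin 3 ⊕ Fin 3 → V6
  | Sum.inl k => (Pi.single k 1, 0)
  | Sum.inr k => (0, Pi.single k 1)

/-- the coordinates -/
def co (T : V6) : Fin 3 ⊕ Fin 3 → ℚ
  | Sum.inl k => T.1 k
  | Sum.inr k => T.2 k

theorem sum_co (T : V6) : T = ∑ b, co T b • ev b := by
  rw [Fintype.sum_sum_type]
  ext i
  · simp only [ev, co, Prod.fst_add, Prod.fst_sum, Prod.smul_fst, smul_zero,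
      Finset.sum_const_zero, add_zero, Finset.sum_apply, Pi.smul_apply, smul_eq_mul]
    rw [Finset.sum_eq_single i]
    · simp
    · intro k _ hk
      rw [Pi.single_eq_of_ne (Ne.symm hk), mul_zero]
    · intro h
      exact absurd (Finset.mem_univ i) h
  · simp only [ev, co, Prod.snd_add, Prod.snd_sum, Prod.smul_snd, smul_zero,
      Finset.sum_const_zero, zero_add, Finset.sum_apply, Pi.smul_apply, smul_eq_mul]
    rw [Finset.sum_eq_single i]
    · simp
    · intro k _ hk
      rw [Pi.single_eq_of_ne (Ne.symm hk), mul_zero]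
    · intro h
      exact absurd (Finset.mem_univ i) h

theorem co_mem {K : ℕ} {T : V6} (h : Dv6 K 0 T) (b : Fin 3 ⊕ Fin 3) : co T b ∈ RK K := by
  rcases b with k | k
  · exact mem_of_dv (h.1 k)
  · exact mem_of_dv (h.2 k)

end LATM

open LATM in
theorem LAT_thm : Stmt_LAT := by
  intro hRKA K μ hK F X hspan
  have hR3 := (hRKA K hK).2.2
  -- a finite spanning subset
  have hfg : (Submodule.span ℚ {Y : V6 | ∃ f ∈ F, Y = Ad μ f X}).FG := by
    rw [hspan]
    exact Module.finite_def.1 inferInstance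
  rw [Submodule.fg_span_iff_fg_span_finset_subset] at hfg
  obtain ⟨s, hs1, hs2⟩ := hfg
  rw [hspan] at hs2
  let e := s.equivFin
  have hf : ∀ i : Fin s.card, ∃ f ∈ F, ((e.symm i : s) : V6) = Ad μ f X := by
    intro i
    exact hs1 (e.symm i).2
  choose f hfF hfX using hf
  have hrange : Submodule.span ℚ (Set.range fun i : Fin s.card => Ad μ (f i) X) = ⊤ := by
    rw [hs2]
    congr 1
    ext y
    constructor
    · rintro ⟨i, rfl⟩
      simp only
      rw [← hfX i]
      exact (e.symm i).2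
    · intro hy
      refine ⟨e ⟨y, hy⟩, ?_⟩
      simp only
      rw [← hfX (e ⟨y, hy⟩), Equiv.symm_apply_apply]
  have hc : ∀ b : Fin 3 ⊕ Fin 3, ∃ c : Fin s.card → ℚ, ∑ i, c i • Ad μ (f i) X = ev b := by
    intro b
    have : ev b ∈ Submodule.span ℚ (Set.range fun i : Fin s.card => Ad μ (f i) X) := by
      rw [hrange]
      trivial
    exact (Submodule.mem_span_range_iff_exists_fun ℚ).1 this
  choose c hc using hc
  choose g hg using hR3
  obtain ⟨G, hG⟩ : ∃ G : ℕ, ∀ b i, (K : ℚ) ^ G * c b i ∈ RK K := by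
    refine ⟨∑ b, ∑ i, g (c b i), ?_⟩
    intro b i
    refine LATM.pow_mem (hg (c b i)) ?_
    calc g (c b i) ≤ ∑ i, g (c b i) :=
          Finset.single_le_sum (f := fun i => g (c b i)) (fun _ _ => Nat.zero_le _)
            (Finset.mem_univ i)
      _ ≤ ∑ b, ∑ i, g (c b i) :=
          Finset.single_le_sum (f := fun b => ∑ i, g (c b i)) (fun _ _ => Nat.zero_le _)
            (Finset.mem_univ b)
  refine ⟨s.card, G, f, hfF, ?_⟩
  intro T hT
  refine ⟨fun i => ∑ b, co T b * ((K : ℚ) ^ G * c b i), ?_, ?_⟩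
  · intro i
    exact sum_mem fun b _ => mul_mem (co_mem hT b) (hG b i)
  · calc (K : ℚ) ^ G • T = (K : ℚ) ^ G • ∑ b, co T b • ev b := by rw [← sum_co T]
      _ = ∑ b, ∑ i, (co T b * ((K : ℚ) ^ G * c b i)) • Ad μ (f i) X := by
          rw [Finset.smul_sum]
          refine Finset.sum_congr rfl fun b _ => ?_
          rw [← hc b, Finset.smul_sum, Finset.smul_sum]
          refine Finset.sum_congr rfl fun i _ => ?_
          rw [smul_smul, smul_smul]
          congr 1
          ring
      _ = ∑ i, (∑ b, co T b * ((K : ℚ) ^ G * c b i)) • Ad μ (f i) X := by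
          rw [Finset.sum_comm]
          refine Finset.sum_congr rfl fun i _ => ?_
          rw [Finset.sum_smul]

end Pool.Agent.UVR
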