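import Pool.Agent.UVR.Stmts

/-! The module LOC: powers close to one. -/

set_option autoImplicit false

namespace Pool.Agent.UVR

open Matrix

namespace LOCM

/-- the class modulo `N` -/
def cl (N : ℕ) (c : ℚ) : ZMod N := (c.num : ZMod N) * (c.den : ZMod N)⁻¹

theorem dv_of_cl {K h : ℕ} {c e : ℚ} (hc : c ∈ RK K) (he : e ∈ RK K)
    (hq : cl (K ^ h) c = cl (K ^ h) e) : Dv K h (c - e) := by
  have hcd : c.den.Coprime K := hc
  have hed : e.den.Coprime K := he
  have u1 : IsUnit (c.den : ZMod (K ^ h)) :=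
    (ZMod.isUnit_iff_coprime _ _).2 (Nat.Coprime.pow_right _ hcd)
  have u2 : IsUnit (e.den : ZMod (K ^ h)) :=
    (ZMod.isUnit_iff_coprime _ _).2 (Nat.Coprime.pow_right _ hed)
  have i1 : (c.den : ZMod (K ^ h)) * (c.den : ZMod (K ^ h))⁻¹ = 1 := ZMod.mul_inv_of_unit _ u1
  have i2 : (e.den : ZMod (K ^ h)) * (e.den : ZMod (K ^ h))⁻¹ = 1 := ZMod.mul_inv_of_unit _ u2
  unfold cl at hq
  have h1 : (c.num : ZMod (K ^ h)) * e.den - e.num * c.den = 0 := by
    have e1 : (c.num : ZMod (K ^ h)) * e.den =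
        (c.num * (c.den : ZMod (K ^ h))⁻¹) * (c.den * e.den) := by
      calc (c.num : ZMod (K ^ h)) * e.den = c.num * e.den * 1 := by ring
        _ = c.num * e.den * ((c.den : ZMod (K ^ h)) * (c.den : ZMod (K ^ h))⁻¹) := by rw [i1]
        _ = _ := by ring
    have e2 : (e.num : ZMod (K ^ h)) * c.den =
        (e.num * (e.den : ZMod (K ^ h))⁻¹) * (c.den * e.den) := by
      calc (e.num : ZMod (K ^ h)) * c.den = e.num * c.den * 1 := by ring
        _ = e.num * c.den * ((e.den : ZMod (K ^ h)) * (e.den : ZMod (K ^ h))⁻¹) := by rw [i2]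
        _ = _ := by ring
    rw [e1, e2, hq, sub_self]
  have h2 : ((K ^ h : ℕ) : ℤ) ∣ c.num * e.den - e.num * c.den := by
    rw [← ZMod.intCast_zmod_eq_zero_iff_dvd]
    push_cast
    exact h1
  obtain ⟨k, hk⟩ := h2
  have c0 : (c.den : ℚ) ≠ 0 := by exact_mod_cast c.den_ne_zero
  have e0 : (e.den : ℚ) ≠ 0 := by exact_mod_cast e.den_ne_zero
  refine ⟨k / (c.den * e.den), ?_, ?_⟩
  · refine RK_of_mul (d := (c.den : ℤ) * e.den) (n := k) ?_ ?_
    · exact IsCoprime.mul_left (Nat.isCoprime_iff_coprime.2 hcd) (Nat.isCoprime_iff_coprime.2 hed)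
    · push_cast
      field_simp
  · have hc1 : c = c.num / c.den := (Rat.num_div_den c).symm
    have he1 : e = e.num / e.den := (Rat.num_div_den e).symm
    have hk' : (c.num : ℚ) * e.den - e.num * c.den = (K : ℚ) ^ h * k := by
      exact_mod_cast hk
    have : c - e = ((c.num : ℚ) * e.den - e.num * c.den) / (c.den * e.den) := by
      conv_lhs => rw [hc1, he1]
      field_simp
    rw [this, hk']
    ring

end LOCM

open LOCM in
theorem LOC_thm : Stmt_LOC := by
  intro K h μ hK x hx hint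
  have hI : x ∈ Isom3 := hx.1
  have hpow : ∀ n : ℕ, x ^ n ∈ Isom3 := fun n => Isom3.pow_mem hI n
  have : NeZero (K ^ h) := ⟨pow_ne_zero _ (by omega)⟩
  let φ : ℕ → (Fin 3 → Fin 3 → ZMod (K ^ h)) × (Fin 3 → ZMod (K ^ h)) := fun n =>
    (fun i j => cl (K ^ h) (lin (x ^ n) i j), fun i => cl (K ^ h) ((μ • trn (x ^ n)) i))
  obtain ⟨m0, m1, hne, heq⟩ := Finite.exists_ne_map_eq_of_infinite φ
  have key : ∀ m m' : ℕ, m < m' → φ m = φ m' → ∃ n : ℕ, 1 ≤ n ∧
      (∀ i j, Dv K h ((lin (x ^ n) - 1) i j)) ∧ Dv3 K h (μ • trn (x ^ n)) := by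
    intro m m' hlt he
    have he1 : ∀ i j, cl (K ^ h) (lin (x ^ m) i j) = cl (K ^ h) (lin (x ^ m') i j) := by
      intro i j
      exact congrFun (congrFun (congrArg Prod.fst he) i) j
    have he2 : ∀ i, cl (K ^ h) ((μ • trn (x ^ m)) i) = cl (K ^ h) ((μ • trn (x ^ m')) i) := by
      intro i
      exact congrFun (congrArg Prod.snd he) i
    refine ⟨m' - m, by omega, ?_, ?_⟩
    · intro i j
      have hp : x ^ m' = x ^ m * x ^ (m' - m) := by
        rw [← pow_add]; congr 1; omega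
      have hl : lin (x ^ m') = lin (x ^ m) * lin (x ^ (m' - m)) := by
        rw [hp, lin_mul (hpow _) (hpow _)]
      have ho := lin_orth (hpow m)
      have h3 : lin (x ^ (m' - m)) - 1 = (lin (x ^ m))ᵀ * (lin (x ^ m') - lin (x ^ m)) := by
        rw [hl, mul_sub, ← mul_assoc, ho, one_mul]
      rw [h3, Matrix.mul_apply]
      refine Dv.sum _ fun k _ => ?_
      refine Dv.mul_left ((hint m).1 k i) ?_
      have h4 := dv_of_cl ((hint m').1 k j) ((hint m).1 k j) (he1 k j).symm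
      exact h4
    · have hp : x ^ m' = x ^ m * x ^ (m' - m) := by
        rw [← pow_add]; congr 1; omega
      have ht : trn (x ^ m') = lin (x ^ m) *ᵥ trn (x ^ (m' - m)) + trn (x ^ m) := by
        rw [hp, trn_mul (hpow _)]
      have ho := lin_orth (hpow m)
      have h3 : μ • trn (x ^ (m' - m)) =
          (lin (x ^ m))ᵀ *ᵥ (μ • trn (x ^ m') - μ • trn (x ^ m)) := by
        rw [ht, ← smul_sub, add_sub_cancel_right, Matrix.mulVec_smul, Matrix.mulVec_mulVec, ho,
          Matrix.one_mulVec]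
      rw [h3]
      refine Dv3.mulVec (fun i j => (hint m).1 j i) ?_
      intro i
      exact dv_of_cl (Dv_zero_iff.1 ((hint m').2 i)) (Dv_zero_iff.1 ((hint m).2 i)) (he2 i).symm
  rcases lt_or_gt_of_ne hne with hlt | hlt
  · exact key _ _ hlt heq
  · exact key _ _ hlt heq.symm

end Pool.Agent.UVR
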