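import Pool.Agent.UVR.Stmts

/-!
# Rare fixed points in every free group of isometries of `ℚ³`: the second order expansion
-/

set_option autoImplicit false

namespace Pool.Agent.UVR

open Matrix Quaternion

namespace MAGM

/-- The pure dual quaternion of a dual vector. -/
def pv (X : V6) : DH := (vq X.1, vq X.2)

/-- The dual quaternion of a dual number. -/
def rd (s : ℚ × ℚ) : DH := ((s.1 : ℍ[ℚ]), (s.2 : ℍ[ℚ]))

theorem fst_pv (X : V6) : (pv X).fst = vq X.1 := rfl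

theorem snd_pv (X : V6) : (pv X).snd = vq X.2 := rfl

theorem fst_rd (s : ℚ × ℚ) : (rd s).fst = (s.1 : ℍ[ℚ]) := rfl

theorem snd_rd (s : ℚ × ℚ) : (rd s).snd = (s.2 : ℍ[ℚ]) := rfl

theorem pv_add (X Y : V6) : pv (X + Y) = pv X + pv Y := by
  ext1
  · rw [TrivSqZeroExt.fst_add, fst_pv, fst_pv, fst_pv, Prod.fst_add, vq_add]
  · rw [TrivSqZeroExt.snd_add, snd_pv, snd_pv, snd_pv, Prod.snd_add, vq_add]

theorem pv_smul (c : ℚ) (X : V6) : pv (c • X) = c • pv X := by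
  ext1
  · rw [TrivSqZeroExt.fst_smul, fst_pv, fst_pv, Prod.smul_fst, vq_smul]
  · rw [TrivSqZeroExt.snd_smul, snd_pv, snd_pv, Prod.smul_snd, vq_smul]

theorem rd_add (s r : ℚ × ℚ) : rd (s + r) = rd s + rd r := by
  ext1
  · rw [TrivSqZeroExt.fst_add, fst_rd, fst_rd, fst_rd, Prod.fst_add]
    ext <;> simp
  · rw [TrivSqZeroExt.snd_add, snd_rd, snd_rd, snd_rd, Prod.snd_add]
    ext <;> simp

theorem pv_mul (X Y : V6) : pv X * pv Y = pv (crs X Y) + rd (-(X.1 ⬝ᵥ Y.1), -bil X Y) := by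
  ext1
  · rw [TrivSqZeroExt.fst_mul, TrivSqZeroExt.fst_add, fst_pv, fst_pv, fst_pv, fst_rd, vq_mul,
      add_comm]
    rfl
  · rw [DualNumber.snd_mul, TrivSqZeroExt.snd_add, fst_pv, fst_pv, snd_pv, snd_pv, snd_pv, snd_rd,
      vq_mul, vq_mul]
    simp only [crs, bil]
    ext <;> (simp; try ring)

theorem cj_pv (X : V6) : cj (pv X) = pv (-X) := by
  have h : ∀ x : V3, star (vq x) = vq (-x) := by
    intro x
    rw [star_vq]
    ext <;> simp
  ext1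
  · exact h X.1
  · exact h X.2

theorem cj_rd (s : ℚ × ℚ) : cj (rd s) = rd s := by
  ext1
  · change star (rd s).fst = (rd s).fst
    rw [fst_rd]
    ext <;> simp
  · change star (rd s).snd = (rd s).snd
    rw [snd_rd]
    ext <;> simp

theorem DvH_pv {K m : ℕ} {X : V6} (h : Dv6 K m X) : DvH K m (pv X) :=
  ⟨Dvq_iff.2 ⟨Dv.zero K m, h.1 0, h.1 1, h.1 2⟩, Dvq_iff.2 ⟨Dv.zero K m, h.2 0, h.2 1, h.2 2⟩⟩

theorem DvH_rd {K m : ℕ} {s : ℚ × ℚ} (h1 : Dv K m s.1) (h2 : Dv K m s.2) : DvH K m (rd s) :=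
  ⟨Dvq_iff.2 ⟨h1, Dv.zero K m, Dv.zero K m, Dv.zero K m⟩,
    Dvq_iff.2 ⟨h2, Dv.zero K m, Dv.zero K m, Dv.zero K m⟩⟩

theorem Dvq_star {K m : ℕ} {q : ℍ[ℚ]} (h : Dvq K m q) : Dvq K m (star q) := by
  rw [Dvq_iff] at h ⊢
  simp only [Quaternion.re_star, Quaternion.imI_star, Quaternion.imJ_star, Quaternion.imK_star]
  exact ⟨h.1, h.2.1.neg, h.2.2.1.neg, h.2.2.2.neg⟩

theorem DvH_cj {K m : ℕ} {P : DH} (h : DvH K m P) : DvH K m (cj P) :=
  ⟨Dvq_star h.1, Dvq_star h.2⟩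

theorem Dv6_vec {K m : ℕ} {P : DH} (h : DvH K m P) : Dv6 K m (vec P) := ⟨h.1.2, h.2.2⟩

theorem vec_add (P Q : DH) : vec (P + Q) = vec P + vec Q := by
  ext i
  · change qv (P.fst + Q.fst) i = qv P.fst i + qv Q.fst i
    fin_cases i <;> simp
  · change qv (P.snd + Q.snd) i = qv P.snd i + qv Q.snd i
    fin_cases i <;> simp

theorem vec_smul (c : ℚ) (P : DH) : vec (c • P) = c • vec P := by
  ext i
  · change qv (c • P.fst) i = c • qv P.fst i
    fin_cases i <;> simp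
  · change qv (c • P.snd) i = c • qv P.snd i
    fin_cases i <;> simp

theorem vec_one : vec 1 = 0 := by
  ext i
  · change qv (1 : ℍ[ℚ]) i = 0
    fin_cases i <;> simp
  · change qv (0 : ℍ[ℚ]) i = 0
    fin_cases i <;> simp

theorem vec_pv (X : V6) : vec (pv X) = X := by
  ext1
  · exact qv_vq X.1
  · exact qv_vq X.2

theorem vec_rd (s : ℚ × ℚ) : vec (rd s) = 0 := by
  ext i
  · change qv ((s.1 : ℚ) : ℍ[ℚ]) i = 0
    fin_cases i <;> simp
  · change qv ((s.2 : ℚ) : ℍ[ℚ]) i = 0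
    fin_cases i <;> simp

/-- The product of two expansions. -/
theorem prod_exp {R : Type} [Ring R] [Algebra ℚ R] (k : ℚ) (A B E A' B' E' : R) :
    (1 + k • A + k ^ 2 • B + k ^ 3 • E) * (1 + k • A' + k ^ 2 • B' + k ^ 3 • E') =
      1 + k • (A + A') + k ^ 2 • (B + B' + A * A') +
        k ^ 3 • (E + E' + A * B' + B * A' + k • (A * E' + E * A' + B * B') +
          k ^ 2 • (B * E' + E * B') + k ^ 3 • (E * E')) := by
  simp only [mul_add, add_mul, smul_mul_assoc, mul_smul_comm, one_mul, mul_one]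
  module

/-- The cross product of two combinations. -/
theorem crs_comb (a b a' b' : ℚ) (U V : V6) :
    crs (a • U + b • V) (a' • U + b' • V) = (a * b' - b * a') • crs U V := by
  ext i
  · fin_cases i <;> simp [crs, cross0, cross1, cross2] <;> ring
  · fin_cases i <;> simp [crs, cross0, cross1, cross2] <;> ring

/-- The dual quaternion is of type `(a, b, t)`. -/
def Typ (K j : ℕ) (U V : V6) (P : DH) (a b t : ℤ) : Prop :=
  ∃ (s : ℚ × ℚ) (E : DH), Dv K 0 s.1 ∧ Dv K 0 s.2 ∧ DvH K 0 E ∧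
    P = 1 + ((K : ℚ) ^ j) • pv ((a : ℚ) • U + (b : ℚ) • V) +
      (((K : ℚ) ^ j) ^ 2) • (pv (((a * b + 2 * t : ℤ) : ℚ) • crs U V) + rd s) +
      (((K : ℚ) ^ j) ^ 3) • E

theorem Dv_int (K : ℕ) (n : ℤ) : Dv K 0 (n : ℚ) := Dv_zero_iff.2 (RK_int K n)

theorem Dv6_comb {K : ℕ} {U V : V6} (hU : Dv6 K 0 U) (hV : Dv6 K 0 V) (a b : ℤ) :
    Dv6 K 0 ((a : ℚ) • U + (b : ℚ) • V) :=
  (Dv6.smul (m := 0) (n := 0) (Dv_int K a) hU).add (Dv6.smul (m := 0) (n := 0) (Dv_int K b) hV)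

theorem typ_mul {K j : ℕ} {U V : V6} (hU : Dv6 K 0 U) (hV : Dv6 K 0 V) {P P' : DH}
    {a b t a' b' t' : ℤ} (h : Typ K j U V P a b t) (h' : Typ K j U V P' a' b' t') :
    Typ K j U V (P * P') (a + a') (b + b') (t + t' - b * a') := by
  obtain ⟨s, E, hs1, hs2, hE, rfl⟩ := h
  obtain ⟨s', E', hs1', hs2', hE', rfl⟩ := h'
  set k : ℚ := (K : ℚ) ^ j with hk
  have hk0 : Dv K 0 k := Dv_zero_iff.2 ((RK K).pow_mem (RK_nat K K) _)
  have hkp : ∀ n : ℕ, Dv K 0 (k ^ n) := fun n =>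
    Dv_zero_iff.2 ((RK K).pow_mem (Dv_zero_iff.1 hk0) n)
  have hX := Dv6_comb hU hV a b
  have hX' := Dv6_comb hU hV a' b'
  have hC : Dv6 K 0 (crs U V) := Dv6.crs (m := 0) (n := 0) hU hV
  set X := (a : ℚ) • U + (b : ℚ) • V with hXd
  set X' := (a' : ℚ) • U + (b' : ℚ) • V with hXd'
  set B := pv (((a * b + 2 * t : ℤ) : ℚ) • crs U V) + rd s with hBd
  set B' := pv (((a' * b' + 2 * t' : ℤ) : ℚ) • crs U V) + rd s' with hBd'
  have hA : DvH K 0 (pv X) := DvH_pv hX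
  have hA' : DvH K 0 (pv X') := DvH_pv hX'
  have hB : DvH K 0 B := (DvH_pv (Dv6.smul (m := 0) (n := 0) (Dv_int K _) hC)).add
    (DvH_rd hs1 hs2)
  have hB' : DvH K 0 B' := (DvH_pv (Dv6.smul (m := 0) (n := 0) (Dv_int K _) hC)).add
    (DvH_rd hs1' hs2')
  have hmul : ∀ {x y : DH}, DvH K 0 x → DvH K 0 y → DvH K 0 (x * y) := fun hx hy =>
    DvH.mul (m := 0) (n := 0) hx hy
  have hsm : ∀ {c : ℚ} {x : DH}, Dv K 0 c → DvH K 0 x → DvH K 0 (c • x) := fun hc hx =>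
    DvH.smul (m := 0) (n := 0) hc hx
  refine ⟨s + s' + (-(X.1 ⬝ᵥ X'.1), -bil X X'),
    E + E' + pv X * B' + B * pv X' + k • (pv X * E' + E * pv X' + B * B') +
          k ^ 2 • (B * E' + E * B') + k ^ 3 • (E * E'), ?_, ?_, ?_, ?_⟩
  · exact (hs1.add hs1').add (Dv3.dot (m := 0) (n := 0) hX.1 hX'.1).neg
  · exact (hs2.add hs2').add (Dv6.bil (m := 0) (n := 0) hX hX').neg
  · exact (((((hE.add hE').add (hmul hA hB')).add (hmul hB hA')).add
      (hsm hk0 (((hmul hA hE').add (hmul hE hA')).add (hmul hB hB')))).add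
      (hsm (hkp 2) ((hmul hB hE').add (hmul hE hB')))).add (hsm (hkp 3) (hmul hE hE'))
  · rw [prod_exp]
    congr 1
    congr 1
    · congr 2
      rw [← pv_add]
      congr 1
      rw [hXd, hXd']
      push_cast
      module
    · congr 1
      rw [pv_mul, hBd, hBd', hXd, hXd', crs_comb, rd_add, rd_add, pv_smul, pv_smul, pv_smul, pv_smul]
      push_cast
      module

theorem typ_cj {K j : ℕ} {U V : V6} {P : DH} {a b t : ℤ} (h : Typ K j U V P a b t) :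
    Typ K j U V (cj P) (-a) (-b) (-t - a * b) := by
  obtain ⟨s, E, hs1, hs2, hE, rfl⟩ := h
  refine ⟨s, cj E, hs1, hs2, DvH_cj hE, ?_⟩
  rw [cj_add, cj_add, cj_add, cj_one, cj_smul, cj_smul, cj_smul, cj_pv, cj_add, cj_pv, cj_rd]
  congr 1
  congr 1
  · congr 3
    push_cast
    module
  · congr 3
    push_cast
    module

theorem typ_one (K j : ℕ) (U V : V6) : Typ K j U V 1 0 0 0 := by
  refine ⟨0, 0, Dv.zero K 0, Dv.zero K 0, DvH.zero K 0, ?_⟩
  have h1 : pv 0 = 0 := by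
    ext1
    · exact vq_zero
    · exact vq_zero
  have h2 : rd 0 = 0 := by
    ext1
    · exact Quaternion.coe_zero
    · exact Quaternion.coe_zero
  simp [h1, h2]

theorem nrm_eq (X : V6) : nrm X = 1 + pv X + rd (0, -kap X) := by
  ext1
  · rw [TrivSqZeroExt.fst_add, TrivSqZeroExt.fst_add, TrivSqZeroExt.fst_one, nrm_fst, fst_pv,
      fst_rd]
    simp
  · rw [TrivSqZeroExt.snd_add, TrivSqZeroExt.snd_add, TrivSqZeroExt.snd_one, nrm_snd, snd_pv,
      snd_rd, zero_add, add_comm]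

theorem rd_smul (c : ℚ) (s : ℚ × ℚ) : rd (c • s) = c • rd s := by
  ext1
  · rw [TrivSqZeroExt.fst_smul, fst_rd, fst_rd, Prod.smul_fst, smul_eq_mul]
    ext <;> simp
  · rw [TrivSqZeroExt.snd_smul, snd_rd, snd_rd, Prod.smul_snd, smul_eq_mul]
    ext <;> simp

theorem nrm_smul (k : ℚ) (X : V6) : nrm (k • X) = 1 + k • pv X + k ^ 2 • rd (0, -kap X) := by
  rw [nrm_eq, pv_smul, ← rd_smul]
  congr 2
  ext
  · simp
  · simp [kap, smul_dotProduct, dotProduct_smul]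
    ring

theorem typ_u {K : ℕ} (j : ℕ) {U : V6} (V : V6) (hU : Dv6 K 0 U) :
    Typ K j U V (nrm ((K : ℚ) ^ j • U)) 1 0 0 := by
  refine ⟨(0, -kap U), 0, Dv.zero K 0, (Dv6.kap (m := 0) (n := 0) hU.1 hU.2).neg,
    DvH.zero K 0, ?_⟩
  rw [nrm_smul, pv_smul]
  simp

theorem typ_v {K : ℕ} (j : ℕ) (U : V6) {V : V6} (hV : Dv6 K 0 V) :
    Typ K j U V (nrm ((K : ℚ) ^ j • V)) 0 1 0 := by
  refine ⟨(0, -kap V), 0, Dv.zero K 0, (Dv6.kap (m := 0) (n := 0) hV.1 hV.2).neg,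
    DvH.zero K 0, ?_⟩
  rw [nrm_smul, pv_smul]
  simp

end MAGM

open MAGM in
theorem MAG_thm : Stmt_MAG := by
  intro hG K j μ hK u v U V hU hV hu hv H hH g hg
  obtain ⟨G1, G2, -⟩ := hG (Equiv.Perm V3) u v H hH
  have key : ∃ (a b t : ℤ) (P : DH), Rep μ P g ∧ Typ K j U V P a b t ∧
      (u ^ a * v ^ b * (u * v * u⁻¹ * v⁻¹) ^ t)⁻¹ * g ∈ ⁅⁅H, H⁆, H⁆ := by
    have hg' : g ∈ Subgroup.closure {u, v} := hH ▸ hg
    induction hg' using Subgroup.closure_induction with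
    | mem x hx =>
      rcases hx with rfl | rfl
      · refine ⟨1, 0, 0, _, hu, typ_u j V hU, ?_⟩
        simp
      · refine ⟨0, 1, 0, _, hv, typ_v j U hV, ?_⟩
        simp
    | one =>
      refine ⟨0, 0, 0, _, Rep.one μ, typ_one K j U V, ?_⟩
      simp
    | mul x y hx hy ihx ihy =>
      have hx' : x ∈ H := by rw [hH]; exact hx
      have hy' : y ∈ H := by rw [hH]; exact hy
      obtain ⟨a, b, t, P, h1, h2, h3⟩ := ihx hx'
      obtain ⟨a', b', t', P', h1', h2', h3'⟩ := ihy hy'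
      exact ⟨_, _, _, _, h1.mul h1', typ_mul hU hV h2 h2', G1 x y a b t a' b' t' hx' hy' h3 h3'⟩
    | inv x hx ihx =>
      have hx' : x ∈ H := by rw [hH]; exact hx
      obtain ⟨a, b, t, P, h1, h2, h3⟩ := ihx hx'
      exact ⟨_, _, _, _, h1.inv, typ_cj h2, G2 x a b t hx' h3⟩
  obtain ⟨a, b, t, P, h1, ⟨s, E, hs1, hs2, hE, rfl⟩, h3⟩ := key
  refine ⟨a, b, t, _, vec E, h1, Dv6_vec hE, ?_, h3⟩
  rw [vec_add, vec_add, vec_add, vec_one, vec_smul, vec_smul, vec_smul, vec_pv, vec_add, vec_pv,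
    vec_rd, add_zero, zero_add, ← pow_mul, ← pow_mul, mul_comm j 2, mul_comm j 3]

end Pool.Agent.UVR
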