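import Pool.Agent.UVR.Stmts

/-!
# NRM: the normalised representation
-/

set_option autoImplicit false

namespace Pool.Agent.UVR

open Matrix Quaternion

theorem NRM_thm : Stmt_NRM := by
  intro μ P f hP h0
  have hs := hP.study
  have h1 : Rep μ ((P.fst.re)⁻¹ • P) f := Rep.smul (inv_ne_zero h0) hP
  have h2 : (P.fst.re)⁻¹ • P = nrm ((P.fst.re)⁻¹ • vec P) := by
    ext1
    · rw [TrivSqZeroExt.fst_smul, nrm_fst]
      ext
      · simp [h0]
      · simp [vec]
      · simp [vec]
      · simp [vec]
    · rw [TrivSqZeroExt.snd_smul, nrm_snd]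
      have h3 : P.snd.re = -(P.fst.re)⁻¹ * kap (vec P) := by
        field_simp
        linarith
      ext
      · simp [kap, vec, dotProduct, Fin.sum_univ_three] at h3 ⊢
        rw [h3]
        ring
      · simp [vec]
      · simp [vec]
      · simp [vec]
  rw [h2] at h1
  exact h1

end Pool.Agent.UVR
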