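import Pool.Agent.UVR.Stmts

/-!
# UVR: module ODD, rational orthogonal matrices have entries with odd denominators
-/

set_option autoImplicit false

namespace Pool.Agent.UVR

open Matrix

namespace ODDM

theorem even_of_sq (a : ℤ) (h : a ^ 2 % 4 = 0) : ∃ b, a = 2 * b := by
  rcases Int.even_or_odd a with ⟨b, hb⟩ | ⟨b, hb⟩
  · exact ⟨b, by omega⟩
  · exfalso
    subst hb
    have h1 : (2 * b + 1) ^ 2 = 4 * (b ^ 2 + b) + 1 := by ring
    omega

theorem sq_mod (a : ℤ) : a ^ 2 % 4 = 0 ∨ a ^ 2 % 4 = 1 := by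
  rcases Int.even_or_odd a with ⟨b, hb⟩ | ⟨b, hb⟩
  · left
    subst hb
    have h1 : (b + b) ^ 2 = 4 * b ^ 2 := by ring
    omega
  · right
    subst hb
    have h1 : (2 * b + 1) ^ 2 = 4 * (b ^ 2 + b) + 1 := by ring
    omega

theorem main : ∀ (N : ℕ), 0 < N → ∀ X Y Z : ℤ, X ^ 2 + Y ^ 2 + Z ^ 2 = (N : ℤ) ^ 2 →
    Odd ((X : ℚ) / (N : ℚ)).den := by
  intro N
  induction N using Nat.strong_induction_on with
  | _ N ih =>
    intro hN X Y Z h
    rcases Nat.even_or_odd N with ⟨M, hM⟩ | hodd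
    · have hN2 : (N : ℤ) ^ 2 = 4 * (M : ℤ) ^ 2 := by
        have : (N : ℤ) = 2 * M := by omega
        rw [this]
        ring
      rw [hN2] at h
      have hX := sq_mod X
      have hY := sq_mod Y
      have hZ := sq_mod Z
      obtain ⟨x, hx⟩ := even_of_sq X (by omega)
      obtain ⟨y, hy⟩ := even_of_sq Y (by omega)
      obtain ⟨z, hz⟩ := even_of_sq Z (by omega)
      have hM0 : 0 < M := by omega
      have h2 : x ^ 2 + y ^ 2 + z ^ 2 = (M : ℤ) ^ 2 := by
        subst hx hy hz
        have h3 : (2 * x) ^ 2 + (2 * y) ^ 2 + (2 * z) ^ 2 = 4 * (x ^ 2 + y ^ 2 + z ^ 2) := by ring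
        omega
      have h4 := ih M (by omega) hM0 x y z h2
      have h5 : (X : ℚ) / (N : ℚ) = (x : ℚ) / (M : ℚ) := by
        have h6 : (N : ℚ) = 2 * M := by
          rw [hM]
          push_cast
          ring
        have h7 : (M : ℚ) ≠ 0 := by exact_mod_cast hM0.ne'
        rw [h6, hx]
        push_cast
        field_simp
      rw [h5]
      exact h4
    · have h8 : ((X : ℚ) / (N : ℚ)).den ∣ N := by
        have h9 := Rat.den_dvd X N
        have h10 : ((X : ℚ) / ((N : ℤ) : ℚ)) = (X : ℚ) / (N : ℚ) := by push_cast; rfl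
        rw [Rat.divInt_eq_div, h10] at h9
        exact_mod_cast h9
      exact Odd.of_dvd_nat hodd h8

theorem row (x y z : ℚ) (h : x ^ 2 + y ^ 2 + z ^ 2 = 1) : Odd x.den := by
  have hx : x = (x.num : ℚ) / x.den := (Rat.num_div_den x).symm
  have hy : y = (y.num : ℚ) / y.den := (Rat.num_div_den y).symm
  have hz : z = (z.num : ℚ) / z.den := (Rat.num_div_den z).symm
  have dx : (x.den : ℚ) ≠ 0 := by exact_mod_cast x.den_nz
  have dy : (y.den : ℚ) ≠ 0 := by exact_mod_cast y.den_nz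
  have dz : (z.den : ℚ) ≠ 0 := by exact_mod_cast z.den_nz
  have hN : 0 < x.den * y.den * z.den := by
    have := x.den_pos
    have := y.den_pos
    have := z.den_pos
    positivity
  have key := main (x.den * y.den * z.den) hN (x.num * y.den * z.den) (y.num * x.den * z.den)
    (z.num * x.den * y.den) ?_
  · have h1 : (((x.num * y.den * z.den : ℤ) : ℚ) / ((x.den * y.den * z.den : ℕ) : ℚ)) = x := by
      conv_rhs => rw [hx]
      push_cast
      field_simp
    rw [h1] at key
    exact key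
  · have h2 : ((x.num : ℚ) * y.den * z.den) ^ 2 + ((y.num : ℚ) * x.den * z.den) ^ 2 +
        ((z.num : ℚ) * x.den * y.den) ^ 2 = ((x.den : ℚ) * y.den * z.den) ^ 2 := by
      rw [hx, hy, hz] at h
      simp only [Rat.num_div_den] at h
      have h3 : ((x.num : ℚ) / x.den) ^ 2 + ((y.num : ℚ) / y.den) ^ 2 +
          ((z.num : ℚ) / z.den) ^ 2 = 1 := by
        rw [← hx, ← hy, ← hz]
        exact h
      field_simp at h3
      linarith
    have h4 : (((x.num * y.den * z.den : ℤ)) ^ 2 + ((y.num * x.den * z.den : ℤ)) ^ 2 +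
        ((z.num * x.den * y.den : ℤ)) ^ 2 : ℤ) = (((x.den * y.den * z.den : ℕ) : ℤ)) ^ 2 := by
      have h5 : ((((x.num * y.den * z.den : ℤ)) ^ 2 + ((y.num * x.den * z.den : ℤ)) ^ 2 +
        ((z.num * x.den * y.den : ℤ)) ^ 2 : ℤ) : ℚ) =
        (((((x.den * y.den * z.den : ℕ) : ℤ)) ^ 2 : ℤ) : ℚ) := by
        push_cast
        exact h2
      exact_mod_cast h5
    exact h4

end ODDM

theorem ODD_thm : Stmt_ODD := by
  intro A hA i j
  have h := congrFun (congrFun hA i) i
  rw [Matrix.mul_apply, Fin.sum_univ_three] at h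
  simp only [Matrix.transpose_apply, Matrix.one_apply_eq] at h
  fin_cases j
  · exact ODDM.row (A i 0) (A i 1) (A i 2) (by linarith [h, sq (A i 0), sq (A i 1), sq (A i 2)])
  · exact ODDM.row (A i 1) (A i 0) (A i 2) (by linarith [h, sq (A i 0), sq (A i 1), sq (A i 2)])
  · exact ODDM.row (A i 2) (A i 1) (A i 0) (by linarith [h, sq (A i 0), sq (A i 1), sq (A i 2)])

end Pool.Agent.UVR
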