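import Pool.Agent.UVR.Stmts

/-!
# Rare fixed points in every free group of isometries of `ℚ³`: module PAR
-/

set_option autoImplicit false

namespace Pool.Agent.UVR

open Matrix Quaternion

namespace PARM

/-- The equation of the rotation part. -/
theorem rot_eq {f : Equiv.Perm V3} (hf : f ∈ Isom3) {P : DH} (h : Rep 1 P f) (x : V3) :
    vq (lin f *ᵥ x) * P.fst = P.fst * vq x := by
  have h1 := h.2 x
  have h2 := h.2 0
  rw [h1] at h2
  rw [one_smul, one_smul, apply_eq hf, apply_eq hf, Matrix.mulVec_zero, zero_add, vq_add, vq_zero,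
    mul_zero, sub_zero, add_mul] at h2
  have h3 : vq (lin f *ᵥ x) * P.fst - P.fst * vq x = 0 := by
    have h4 := sub_eq_zero.2 h2
    rw [← h4]
    abel
  exact sub_eq_zero.1 h3

/-- Parallel quaternions commute. -/
theorem comm_of_cross {a b : V3} (h : crossProduct a b = 0) :
    (1 + vq a) * (1 + vq b) = (1 + vq b) * (1 + vq a) := by
  have h' : crossProduct b a = 0 := by
    rw [← neg_cross a b] at *
    simp [h]
  have h1 : vq a * vq b = vq b * vq a := by
    rw [vq_mul, vq_mul, h, h', dotProduct_comm]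
  rw [mul_add, mul_add, add_mul, add_mul, add_mul, add_mul, h1]
  simp only [one_mul, mul_one]
  abel

end PARM

open PARM in
theorem PAR_thm : Stmt_PAR := by
  intro hG f hf g hg htf htg hc
  have hPf := hG 1 f hf htf
  have hPg := hG 1 g hg htg
  have hcomm : (nrm (gib 1 f)).fst * (nrm (gib 1 g)).fst =
      (nrm (gib 1 g)).fst * (nrm (gib 1 f)).fst := by
    change (1 + vq ((1 + (lin f).trace)⁻¹ • axis f)) * (1 + vq ((1 + (lin g).trace)⁻¹ • axis g)) =
      (1 + vq ((1 + (lin g).trace)⁻¹ • axis g)) * (1 + vq ((1 + (lin f).trace)⁻¹ • axis f))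
    apply comm_of_cross
    rw [LinearMap.map_smul, LinearMap.map_smul₂, hc]
    simp
  have key : ∀ x : V3, (lin f * lin g) *ᵥ x = (lin g * lin f) *ᵥ x := by
    intro x
    apply vq_inj
    have hne : (nrm (gib 1 f)).fst * (nrm (gib 1 g)).fst ≠ 0 := mul_ne_zero hPf.1 hPg.1
    apply mul_right_cancel₀ hne
    rw [← Matrix.mulVec_mulVec, ← Matrix.mulVec_mulVec]
    have e1 : vq (lin f *ᵥ (lin g *ᵥ x)) * ((nrm (gib 1 f)).fst * (nrm (gib 1 g)).fst) =
        (nrm (gib 1 f)).fst * (nrm (gib 1 g)).fst * vq x := by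
      rw [← mul_assoc, rot_eq hf.1 hPf, mul_assoc, rot_eq hg.1 hPg, mul_assoc]
    have e2 : vq (lin g *ᵥ (lin f *ᵥ x)) * ((nrm (gib 1 g)).fst * (nrm (gib 1 f)).fst) =
        (nrm (gib 1 g)).fst * (nrm (gib 1 f)).fst * vq x := by
      rw [← mul_assoc, rot_eq hg.1 hPg, mul_assoc, rot_eq hf.1 hPf, mul_assoc]
    rw [e1, hcomm, e2]
  exact Matrix.ext_of_mulVec_single fun i => key _

end Pool.Agent.UVR
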