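import Pool.Agent.UVR.Stmts

/-!
# UVR: powers
-/

set_option autoImplicit false

namespace Pool.Agent.UVR

open Matrix Quaternion

namespace POWM

/-- The dual quaternion `A + B Y`, `A = a + ε a'`, `B = b + ε b'`, `Y` the pure dual quaternion
of `X`. -/
def gq (a a' b b' : ℚ) (X : V6) : DH :=
  (((a : ℚ) : ℍ[ℚ]) + vq (b • X.1), ((a' : ℚ) : ℍ[ℚ]) + vq (b • X.2 + b' • X.1))

theorem gq_fst (a a' b b' : ℚ) (X : V6) :
    (gq a a' b b' X).fst = ((a : ℚ) : ℍ[ℚ]) + vq (b • X.1) := rfl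

theorem gq_snd (a a' b b' : ℚ) (X : V6) :
    (gq a a' b b' X).snd = ((a' : ℚ) : ℍ[ℚ]) + vq (b • X.2 + b' • X.1) := rfl

theorem gq_one (X : V6) : gq 1 0 0 0 X = 1 := by
  ext1
  · rw [gq_fst, TrivSqZeroExt.fst_one, zero_smul, vq_zero]
    simp
  · rw [gq_snd, TrivSqZeroExt.snd_one, zero_smul, zero_smul, zero_add, vq_zero]
    simp

theorem gq_mul (a a' b b' : ℚ) (X : V6) :
    gq a a' b b' X * nrm X =
      gq (a - b * (X.1 ⬝ᵥ X.1)) (a' - kap X * a - (X.1 ⬝ᵥ X.1) * b' - 2 * kap X * b) (a + b)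
        (a' + b' - kap X * b) X := by
  ext1
  · rw [TrivSqZeroExt.fst_mul, gq_fst, gq_fst, nrm_fst]
    ext <;> simp [dotProduct, Fin.sum_univ_three] <;> ring
  · rw [DualNumber.snd_mul, gq_fst, gq_snd, gq_snd, nrm_fst, nrm_snd]
    ext <;> simp [kap, dotProduct, Fin.sum_univ_three] <;> ring

theorem vec_gq (a a' b b' : ℚ) (X : V6) :
    vec (gq a a' b b' X) = (b • X.1, b • X.2 + b' • X.1) := by
  ext i
  · change qv (gq a a' b b' X).fst i = (b • X.1) i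
    rw [gq_fst]
    fin_cases i <;> simp
  · change qv (gq a a' b b' X).snd i = (b • X.2 + b' • X.1) i
    rw [gq_snd]
    fin_cases i <;> simp

theorem gq_re (a a' b b' : ℚ) (X : V6) : (gq a a' b b' X).fst.re = a := by
  rw [gq_fst]
  simp

theorem pow_form {K t : ℕ} {X : V6} (hX : Dv6 K t X) (n : ℕ) :
    ∃ a a' b b' : ℚ, nrm X ^ n = gq a a' b b' X ∧ Dv K (2 * t) (a - 1) ∧ Dv K (2 * t) a' ∧
      Dv K (2 * t) (b - n) ∧ Dv K (2 * t) b' := by
  have hw : Dv K (2 * t) (X.1 ⬝ᵥ X.1) := by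
    have h := hX.1.dot hX.1
    rwa [← two_mul] at h
  have hk : Dv K (2 * t) (kap X) := by
    have h := Dv6.kap hX.1 hX.2
    rwa [← two_mul] at h
  induction n with
  | zero =>
    refine ⟨1, 0, 0, 0, ?_, ?_, Dv.zero _ _, ?_, Dv.zero _ _⟩
    · rw [pow_zero, gq_one]
    · rw [sub_self]
      exact Dv.zero _ _
    · rw [Nat.cast_zero, sub_self]
      exact Dv.zero _ _
  | succ n ih =>
    obtain ⟨a, a', b, b', h0, h1, h2, h3, h4⟩ := ih
    have ha : a ∈ RK K := by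
      have h := (RK K).add_mem h1.mem (RK K).one_mem
      rwa [sub_add_cancel] at h
    have hb : b ∈ RK K := by
      have h := (RK K).add_mem h3.mem (RK_nat K n)
      rwa [sub_add_cancel] at h
    refine ⟨a - b * (X.1 ⬝ᵥ X.1), a' - kap X * a - (X.1 ⬝ᵥ X.1) * b' - 2 * kap X * b, a + b,
      a' + b' - kap X * b, ?_, ?_, ?_, ?_, ?_⟩
    · rw [pow_succ, h0, gq_mul]
    · have e : a - b * (X.1 ⬝ᵥ X.1) - 1 = (a - 1) - b * (X.1 ⬝ᵥ X.1) := by ring
      rw [e]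
      exact h1.sub (Dv.mul_left hb hw)
    · have e : a' - kap X * a - (X.1 ⬝ᵥ X.1) * b' - 2 * kap X * b =
          a' - a * kap X - b' * (X.1 ⬝ᵥ X.1) - (b + b) * kap X := by ring
      rw [e]
      exact ((h2.sub (Dv.mul_left ha hk)).sub (Dv.mul_left h4.mem hw)).sub
        (Dv.mul_left ((RK K).add_mem hb hb) hk)
    · have e : a + b - ((n + 1 : ℕ) : ℚ) = (a - 1) + (b - n) := by
        push_cast
        ring
      rw [e]
      exact h1.add h3
    · have e : a' + b' - kap X * b = a' + b' - b * kap X := by ring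
      rw [e]
      exact (h2.add h4).sub (Dv.mul_left hb hk)

theorem rep_pow {μ : ℚ} {P : DH} {f : Equiv.Perm V3} (h : Rep μ P f) (n : ℕ) :
    Rep μ (P ^ n) (f ^ n) := by
  induction n with
  | zero =>
    rw [pow_zero, pow_zero]
    exact Rep.one μ
  | succ n ih =>
    rw [pow_succ, pow_succ]
    exact ih.mul h

/-- One `K`-th power. -/
theorem step (h1 : Stmt_RKA) (h2 : Stmt_NRM) {K t : ℕ} {μ : ℚ} (hK : 2 ≤ K) (ht : 1 ≤ t)
    {y : Equiv.Perm V3} {X : V6} (hX : Dv6 K t X) (hy : Rep μ (nrm X) y) :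
    ∃ ρ : ℚ × ℚ, Dv K 1 (ρ.1 - 1) ∧ ρ.2 ∈ RK K ∧ Rep μ (nrm ((K : ℚ) • dsm ρ X)) (y ^ K) := by
  obtain ⟨a, a', b, b', h0, ha, -, hb, hb'⟩ := pow_form hX K
  have hK0 : (K : ℚ) ≠ 0 := by
    have : K ≠ 0 := by omega
    exact_mod_cast this
  obtain ⟨hane, hainv⟩ := (h1 K hK).1 a (ha.mono (by omega))
  have hr := rep_pow hy K
  rw [h0] at hr
  have hn := h2 μ _ _ hr (by rw [gq_re]; exact hane)
  rw [gq_re, vec_gq] at hn
  obtain ⟨e1, he1, hb1⟩ := hb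
  obtain ⟨e2, he2, hb2⟩ := hb'
  obtain ⟨s, hs⟩ : ∃ s, 2 * t = s + 2 := ⟨2 * t - 2, by omega⟩
  have hp : (K : ℚ) ^ (2 * t) = K * (K : ℚ) ^ (s + 1) := by
    rw [hs]
    ring
  have hb3 : b = K * (1 + (K : ℚ) ^ (s + 1) * e1) := by
    rw [hp] at hb1
    linear_combination hb1
  have hb4 : b' = K * ((K : ℚ) ^ (s + 1) * e2) := by
    rw [hp] at hb2
    linear_combination hb2
  refine ⟨(a⁻¹ * (1 + (K : ℚ) ^ (s + 1) * e1), a⁻¹ * ((K : ℚ) ^ (s + 1) * e2)), ?_, ?_, ?_⟩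
  · have e : a⁻¹ * (1 + (K : ℚ) ^ (s + 1) * e1) - 1 =
        a⁻¹ * ((K : ℚ) ^ (s + 1) * e1 - (a - 1)) := by
      have : a⁻¹ * ((K : ℚ) ^ (s + 1) * e1 - (a - 1)) =
          a⁻¹ * (1 + (K : ℚ) ^ (s + 1) * e1) - a⁻¹ * a := by ring
      rw [this, inv_mul_cancel₀ hane]
    change Dv K 1 (a⁻¹ * (1 + (K : ℚ) ^ (s + 1) * e1) - 1)
    rw [e]
    refine Dv.mul_left hainv (Dv.sub ?_ (ha.mono (by omega)))
    exact Dv.mono (show 1 ≤ s + 1 by omega) ⟨e1, he1, rfl⟩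
  · exact (RK K).mul_mem hainv ((RK K).mul_mem ((RK K).pow_mem (RK_nat K K) _) he2)
  · have e : (K : ℚ) • dsm (a⁻¹ * (1 + (K : ℚ) ^ (s + 1) * e1), a⁻¹ * ((K : ℚ) ^ (s + 1) * e2)) X =
        a⁻¹ • ((b • X.1, b • X.2 + b' • X.1) : V6) := by
      unfold dsm
      rw [hb3, hb4]
      ext1
      · simp only [Prod.smul_fst]
        module
      · simp only [Prod.smul_snd]
        module
    rw [e]
    exact hn

end POWM

theorem POW_thm : Stmt_POW := by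
  intro h1 h2 K t μ hK ht y X hX hy l
  induction l with
  | zero =>
    refine ⟨(1, 0), ?_, (RK K).zero_mem, ?_⟩
    · rw [sub_self]
      exact Dv.zero _ _
    · have e : dsm (1, 0) X = X := by
        unfold dsm
        ext1
        · simp
        · simp
      rw [pow_zero, pow_zero, pow_one, one_smul, e]
      exact hy
  | succ l ih =>
    obtain ⟨ρ, hρ1, hρ2, hr⟩ := ih
    have hρ : ρ.1 ∈ RK K := by
      have h := (RK K).add_mem hρ1.mem (RK K).one_mem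
      rwa [sub_add_cancel] at h
    have hX' : Dv6 K (l + t) ((K : ℚ) ^ l • dsm ρ X) := by
      have h := Dv6.smul (Dv_pow K l)
        (Dv6.dsm (Dv_zero_iff.2 hρ) (Dv_zero_iff.2 hρ2) hX)
      rwa [zero_add] at h
    obtain ⟨σ, hσ1, hσ2, hs⟩ := POWM.step h1 h2 hK (show 1 ≤ l + t by omega) hX' hr
    have hσ : σ.1 ∈ RK K := by
      have h := (RK K).add_mem hσ1.mem (RK K).one_mem
      rwa [sub_add_cancel] at h
    refine ⟨(σ.1 * ρ.1, σ.1 * ρ.2 + σ.2 * ρ.1), ?_, ?_, ?_⟩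
    · change Dv K 1 (σ.1 * ρ.1 - 1)
      have e : σ.1 * ρ.1 - 1 = ρ.1 * (σ.1 - 1) + (ρ.1 - 1) := by ring
      rw [e]
      exact (Dv.mul_left hρ hσ1).add hρ1
    · exact (RK K).add_mem ((RK K).mul_mem hσ hρ2) ((RK K).mul_mem hσ2 hρ)
    · have e1 : (K : ℚ) ^ (l + 1) • dsm (σ.1 * ρ.1, σ.1 * ρ.2 + σ.2 * ρ.1) X =
          (K : ℚ) • dsm σ ((K : ℚ) ^ l • dsm ρ X) := by
        unfold dsm
        ext1
        · simp only [Prod.smul_fst]
          module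
        · simp only [Prod.smul_fst, Prod.smul_snd]
          module
      have e2 : y ^ K ^ (l + 1) = (y ^ K ^ l) ^ K := by
        rw [pow_succ, pow_mul]
      rw [e1, e2]
      exact hs

end Pool.Agent.UVR
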