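import Pool.Agent.UVR.Stmts

/-!
# Module PRD of project UVR (MP_a80717_al): products of isometries close to the identity
-/

set_option autoImplicit false

namespace Pool.Agent.UVR

open Matrix Quaternion

namespace PRDM

theorem fst_re (X Y : V6) : (nrm X * nrm Y).fst.re = 1 - X.1 ⬝ᵥ Y.1 := by
  simp [nrm, TrivSqZeroExt.fst_mul, dotProduct, Fin.sum_univ_three]
  ring

theorem vec_fst (X Y : V6) : (vec (nrm X * nrm Y)).1 = X.1 + Y.1 + crossProduct X.1 Y.1 := by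
  funext i
  fin_cases i <;>
    simp [vec, nrm, TrivSqZeroExt.fst_mul, cross0, cross1, cross2] <;> ring

theorem vec_snd (X Y : V6) : (vec (nrm X * nrm Y)).2 = X.2 + Y.2 +
    ((-kap Y) • X.1 + crossProduct X.1 Y.2 + ((-kap X) • Y.1 + crossProduct X.2 Y.1)) := by
  funext i
  fin_cases i <;>
    simp [vec, nrm, TrivSqZeroExt.snd_mul, cross0, cross1, cross2] <;> ring

theorem two (hR : Stmt_RKA) (hN : Stmt_NRM) {K s : ℕ} {μ : ℚ} (hK : 2 ≤ K) (hs : 1 ≤ s)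
    {g h : Equiv.Perm V3} {X Y : V6} (hX : Dv6 K s X) (hY : Dv6 K s Y) (hg : Rep μ (nrm X) g)
    (hh : Rep μ (nrm Y) h) :
    ∃ Z : V6, Rep μ (nrm Z) (g * h) ∧ Dv6 K (2 * s) (Z - (X + Y)) := by
  have hrep := hg.mul hh
  have hd : Dv K (s + s) (X.1 ⬝ᵥ Y.1) := Dv3.dot hX.1 hY.1
  have hd2 : Dv K (2 * s) (X.1 ⬝ᵥ Y.1) := by rw [two_mul]; exact hd
  have hc : Dv K 1 ((nrm X * nrm Y).fst.re - 1) := by
    rw [fst_re]
    have : (1 : ℚ) - X.1 ⬝ᵥ Y.1 - 1 = -(X.1 ⬝ᵥ Y.1) := by ring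
    rw [this]
    exact (hd2.mono (by omega)).neg
  obtain ⟨hc0, hci⟩ := (hR K hK).1 _ hc
  refine ⟨_, hN μ _ _ hrep hc0, ?_⟩
  obtain ⟨c, hc'⟩ : ∃ c, c = (nrm X * nrm Y).fst.re := ⟨_, rfl⟩
  rw [← hc'] at hc0 hci ⊢
  have hE : Dv6 K (2 * s) (vec (nrm X * nrm Y) - (X + Y)) := by
    constructor
    · have h1 : (vec (nrm X * nrm Y) - (X + Y)).1 = crossProduct X.1 Y.1 := by
        rw [Prod.fst_sub, Prod.fst_add, vec_fst]
        abel
      rw [h1, two_mul]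
      exact Dv3.cross hX.1 hY.1
    · have h1 : (vec (nrm X * nrm Y) - (X + Y)).2 =
          (-kap Y) • X.1 + crossProduct X.1 Y.2 + ((-kap X) • Y.1 + crossProduct X.2 Y.1) := by
        rw [Prod.snd_sub, Prod.snd_add, vec_snd]
        abel
      rw [h1]
      have kX : Dv K (s + s) (kap X) := Dv6.kap hX.1 hX.2
      have kY : Dv K (s + s) (kap Y) := Dv6.kap hY.1 hY.2
      have a1 : Dv3 K (s + s + s) ((-kap Y) • X.1) := Dv3.smul kY.neg hX.1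
      have a2 : Dv3 K (s + s + s) ((-kap X) • Y.1) := Dv3.smul kX.neg hY.1
      have a3 : Dv3 K (s + s) (crossProduct X.1 Y.2) := Dv3.cross hX.1 hY.2
      have a4 : Dv3 K (s + s) (crossProduct X.2 Y.1) := Dv3.cross hX.2 hY.1
      rw [two_mul]
      exact ((a1.mono (by omega)).add a3).add ((a2.mono (by omega)).add a4)
  have e1 : c⁻¹ • vec (nrm X * nrm Y) - (X + Y) =
      c⁻¹ • (vec (nrm X * nrm Y) - (X + Y)) + (c⁻¹ * (X.1 ⬝ᵥ Y.1)) • (X + Y) := by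
    have e2 : c⁻¹ * (X.1 ⬝ᵥ Y.1) = c⁻¹ - 1 := by
      have e3 : c = 1 - X.1 ⬝ᵥ Y.1 := by rw [hc', fst_re]
      have e4 : X.1 ⬝ᵥ Y.1 = 1 - c := by rw [e3]; ring
      rw [e4, mul_sub, mul_one, inv_mul_cancel₀ hc0]
    rw [e2]
    module
  rw [e1]
  have hci' : Dv K 0 c⁻¹ := Dv_zero_iff.2 hci
  have b1 : Dv6 K (0 + 2 * s) (c⁻¹ • (vec (nrm X * nrm Y) - (X + Y))) := Dv6.smul hci' hE
  have b2 : Dv6 K (2 * s + s) ((c⁻¹ * (X.1 ⬝ᵥ Y.1)) • (X + Y)) :=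
    Dv6.smul (Dv.mul_left hci hd2) (hX.add hY)
  exact (b1.mono (by omega)).add (b2.mono (by omega))

theorem nrm_zero : nrm 0 = 1 := by
  have h1 : (nrm 0).fst = 1 := by
    show 1 + vq 0 = 1
    rw [vq_zero, add_zero]
  have h2 : (nrm 0).snd = 0 := by
    show ((-kap 0 : ℚ) : ℍ[ℚ]) + vq 0 = 0
    have h3 : kap 0 = 0 := by simp [kap]
    rw [vq_zero, add_zero, h3]
    simp
  exact TrivSqZeroExt.ext h1 h2

/-- `f` has a normalised vector congruent to `S` -/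
def Ok (K s : ℕ) (μ : ℚ) (f : Equiv.Perm V3) (S : V6) : Prop :=
  Dv6 K s S ∧ ∃ Z : V6, Rep μ (nrm Z) f ∧ Dv6 K (2 * s) (Z - S)

theorem ok_one (K s : ℕ) (μ : ℚ) : Ok K s μ 1 0 := by
  refine ⟨Dv6.zero K s, 0, ?_, ?_⟩
  · rw [nrm_zero]
    exact Rep.one μ
  · rw [sub_zero]
    exact Dv6.zero K _

theorem ok_mul (hR : Stmt_RKA) (hN : Stmt_NRM) {K s : ℕ} {μ : ℚ} (hK : 2 ≤ K) (hs : 1 ≤ s)
    {g h : Equiv.Perm V3} {S T : V6} (hg : Ok K s μ g S) (hh : Ok K s μ h T) :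
    Ok K s μ (g * h) (S + T) := by
  obtain ⟨hS, X, hX, hXS⟩ := hg
  obtain ⟨hT, Y, hY, hYT⟩ := hh
  have h1 : Dv6 K s X := by
    have h2 : X = (X - S) + S := by abel
    rw [h2]
    exact (hXS.mono (by omega)).add hS
  have h2 : Dv6 K s Y := by
    have h2 : Y = (Y - T) + T := by abel
    rw [h2]
    exact (hYT.mono (by omega)).add hT
  obtain ⟨Z, hZ, hZ'⟩ := two hR hN hK hs h1 h2 hX hY
  refine ⟨hS.add hT, Z, hZ, ?_⟩
  have h3 : Z - (S + T) = (Z - (X + Y)) + ((X - S) + (Y - T)) := by abel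
  rw [h3]
  exact hZ'.add (hXS.add hYT)

theorem ok_pow (hR : Stmt_RKA) (hN : Stmt_NRM) {K s : ℕ} {μ : ℚ} (hK : 2 ≤ K) (hs : 1 ≤ s)
    {g : Equiv.Perm V3} {S : V6} (hg : Ok K s μ g S) (m : ℕ) :
    Ok K s μ (g ^ m) ((m : ℚ) • S) := by
  induction m with
  | zero =>
    rw [pow_zero, Nat.cast_zero, zero_smul]
    exact ok_one K s μ
  | succ m ih =>
    have h1 := ok_mul hR hN hK hs ih hg
    have h2 : ((m + 1 : ℕ) : ℚ) • S = (m : ℚ) • S + S := by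
      push_cast
      rw [add_smul, one_smul]
    rw [pow_succ, h2]
    exact h1

end PRDM

open PRDM in
theorem PRD_thm : Stmt_PRD := by
  intro hR hN K s μ hK hs L hL
  suffices h : Ok K s μ (L.map fun q => q.1 ^ q.2.2).prod
      (L.map fun q => (q.2.2 : ℚ) • q.2.1).sum from h.2
  induction L with
  | nil => exact ok_one K s μ
  | cons q L ih =>
    rw [List.map_cons, List.prod_cons, List.map_cons, List.sum_cons]
    have hq := hL q (by simp)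
    refine ok_mul hR hN hK hs (ok_pow hR hN hK hs ⟨hq.1, q.2.1, hq.2, ?_⟩ _)
      (ih fun q' hq' => hL q' (by simp [hq']))
    rw [sub_self]
    exact Dv6.zero K _

end Pool.Agent.UVR
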