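import Pool.Agent.UVR.Stmts

/-!
# Project UVR, module RKA: rational numbers with denominators prime to `K`
-/

set_option autoImplicit false

namespace Pool.Agent.UVR

namespace RKAM

theorem ne_inv {K : ℕ} (hK : 2 ≤ K) {x : ℚ} (h : Dv K 1 (x - 1)) : x ≠ 0 ∧ x⁻¹ ∈ RK K := by
  obtain ⟨z, hz, hx⟩ := h
  rw [pow_one] at hx
  obtain ⟨h1, h2⟩ := RK_spec hz
  have hxe : x * (z.den : ℤ) = ((z.den + K * z.num : ℤ) : ℚ) := by
    have : x = 1 + K * z := by linarith
    rw [this]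
    push_cast
    push_cast at h2
    linear_combination (K : ℚ) * h2
  have hcop : IsCoprime ((z.den : ℤ) + K * z.num) (K : ℤ) := by
    have := h1.add_mul_left_left (z := z.num)
    exact this
  have hne : ((z.den : ℤ) + K * z.num) ≠ 0 := by
    intro h0
    rw [h0, isCoprime_zero_left, Int.isUnit_iff_natAbs_eq, Int.natAbs_natCast] at hcop
    omega
  have hden : ((z.den : ℤ) : ℚ) ≠ 0 := by
    exact_mod_cast z.den_nz
  have hx0 : x ≠ 0 := by
    rintro rfl
    rw [zero_mul] at hxe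
    exact hne (by exact_mod_cast hxe.symm)
  refine ⟨hx0, ?_⟩
  refine RK_of_mul (d := (z.den : ℤ) + K * z.num) (n := (z.den : ℤ)) hcop ?_
  rw [← hxe, ← mul_assoc, inv_mul_cancel₀ hx0, one_mul]

theorem approx {K : ℕ} (hK : 2 ≤ K) {c : ℚ} (hc : c ∈ RK K) (N : ℕ) :
    ∃ n : ℕ, Dv K N (c - n) := by
  obtain ⟨h1, h2⟩ := RK_spec hc
  have h3 : IsCoprime (c.den : ℤ) ((K : ℤ) ^ N) := h1.pow_right
  obtain ⟨s, r, hsr⟩ := h3
  -- `n = c.num * s + k K ^ N`
  have hKpos : (0 : ℤ) < (K : ℤ) ^ N := by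
    have : (0 : ℤ) < K := by exact_mod_cast (by omega : 0 < K)
    positivity
  set m : ℤ := (c.num * s) % (K : ℤ) ^ N with hm
  have hm0 : 0 ≤ m := Int.emod_nonneg _ hKpos.ne'
  obtain ⟨k, hk⟩ : ∃ k, c.num * s - m = (K : ℤ) ^ N * k := by
    refine ⟨c.num * s / (K : ℤ) ^ N, ?_⟩
    have := Int.mul_ediv_add_emod (c.num * s) ((K : ℤ) ^ N)
    rw [hm]
    linarith
  refine ⟨m.toNat, ?_⟩
  have hcast : ((m.toNat : ℕ) : ℚ) = (m : ℚ) := by
    have : ((m.toNat : ℕ) : ℤ) = m := Int.toNat_of_nonneg hm0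
    exact_mod_cast congrArg (fun t : ℤ => (t : ℚ)) this
  rw [hcast]
  have hdc : (c.num : ℤ) - m * c.den = (K : ℤ) ^ N * (k * c.den + r * c.num) := by
    have e1 : c.num = c.num * (s * c.den + r * (K : ℤ) ^ N) := by rw [hsr, mul_one]
    have e2 : m = c.num * s - (K : ℤ) ^ N * k := by linarith
    calc (c.num : ℤ) - m * c.den
        = c.num * (s * c.den + r * (K : ℤ) ^ N) - (c.num * s - (K : ℤ) ^ N * k) * c.den := by
          rw [← e1, ← e2]
      _ = _ := by ring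
  have hden : ((c.den : ℤ) : ℚ) ≠ 0 := by exact_mod_cast c.den_nz
  refine ⟨((k * c.den + r * c.num : ℤ) : ℚ) / ((c.den : ℤ) : ℚ), ?_, ?_⟩
  · refine RK_of_mul (d := (c.den : ℤ)) (n := k * c.den + r * c.num) h1 ?_
    rw [div_mul_cancel₀ _ hden]
  · have h4 : (c - m) * ((c.den : ℤ) : ℚ) = (K : ℚ) ^ N * ((k * c.den + r * c.num : ℤ) : ℚ) := by
      rw [sub_mul, h2]
      exact_mod_cast congrArg (fun t : ℤ => (t : ℚ)) hdc
    rw [← mul_div_assoc, eq_div_iff hden]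
    exact h4

theorem den_split {K : ℕ} : ∀ d : ℕ, 0 < d → ∃ G d' : ℕ, d'.Coprime K ∧
    ∃ e : ℕ, K ^ G * d' = d * e := by
  intro d
  induction d using Nat.strong_induction_on with
  | _ d ih =>
    intro hd
    by_cases hg : d.gcd K = 1
    · exact ⟨0, d, hg, 1, by ring⟩
    · have hg0 : 0 < d.gcd K := Nat.gcd_pos_of_pos_left _ hd
      obtain ⟨d₁, hd₁⟩ := Nat.gcd_dvd_left d K
      obtain ⟨K₁, hK₁⟩ := Nat.gcd_dvd_right d K
      have hd₁pos : 0 < d₁ := by
        rcases Nat.eq_zero_or_pos d₁ with h | h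
        · rw [h, mul_zero] at hd₁
          omega
        · exact h
      have hlt : d₁ < d := by
        have h2 : 2 ≤ d.gcd K := by omega
        calc d₁ < 2 * d₁ := by omega
          _ ≤ d.gcd K * d₁ := Nat.mul_le_mul_right _ h2
          _ = d := hd₁.symm
      obtain ⟨G, d', hd', e, he⟩ := ih d₁ hlt hd₁pos
      refine ⟨G + 1, d', hd', e * K₁, ?_⟩
      calc K ^ (G + 1) * d' = K * (K ^ G * d') := by ring
        _ = K * (d₁ * e) := by rw [he]
        _ = (d.gcd K * K₁) * (d₁ * e) := by rw [← hK₁]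
        _ = (d.gcd K * d₁) * (e * K₁) := by ring
        _ = d * (e * K₁) := by rw [← hd₁]

theorem clear (K : ℕ) (x : ℚ) : ∃ G : ℕ, (K : ℚ) ^ G * x ∈ RK K := by
  obtain ⟨G, d', hd', e, he⟩ := den_split (K := K) x.den x.den_pos
  refine ⟨G, RK_of_mul (d := (d' : ℤ)) (n := x.num * e) (Nat.isCoprime_iff_coprime.2 hd') ?_⟩
  have h1 : (K : ℚ) ^ G * d' = x.den * e := by exact_mod_cast congrArg (fun t : ℕ => (t : ℚ)) he
  have h2 : x * x.den = x.num := Rat.mul_den_eq_num x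
  push_cast
  calc (K : ℚ) ^ G * x * d' = x * ((K : ℚ) ^ G * d') := by ring
    _ = x * (x.den * e) := by rw [h1]
    _ = (x * x.den) * e := by ring
    _ = x.num * e := by rw [h2]

end RKAM

theorem RKA_thm : Stmt_RKA := fun K hK =>
  ⟨fun _ h => RKAM.ne_inv hK h, fun _ hc N => RKAM.approx hK hc N, fun x => RKAM.clear K x⟩

end Pool.Agent.UVR
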