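import Pool.Agent.UVR.Stmts

/-!
# Rare fixed points in every free group of isometries of `ℚ³`: module SPA

The vectors `Ad(f) X`, `f ∈ ⟨a, b, c⟩`, span `ℚ⁶`, if `a, b, c` have no common fixed point and the
axes of `a, b` are independent.
-/

set_option autoImplicit false

namespace Pool.Agent.UVR

open Matrix

namespace SPAM

theorem Ad_add (μ : ℚ) (f : Equiv.Perm V3) (X Y : V6) :
    Ad μ f (X + Y) = Ad μ f X + Ad μ f Y := by
  unfold Ad
  ext1
  · simp only [Prod.fst_add, Matrix.mulVec_add]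
  · simp only [Prod.snd_add, Prod.fst_add, Matrix.mulVec_add, map_add, smul_add]
    abel

theorem Ad_smul (μ c : ℚ) (f : Equiv.Perm V3) (X : V6) : Ad μ f (c • X) = c • Ad μ f X := by
  unfold Ad
  ext1
  · simp only [Prod.smul_fst, Matrix.mulVec_smul]
  · simp only [Prod.smul_snd, Prod.smul_fst, Matrix.mulVec_smul, map_smul, smul_add]
    rw [smul_comm c]

/-- The adjoint action as a linear map. -/
def AdL (μ : ℚ) (f : Equiv.Perm V3) : V6 →ₗ[ℚ] V6 where
  toFun := Ad μ f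
  map_add' := Ad_add μ f
  map_smul' := fun c X => Ad_smul μ c f X

theorem Ad_mul (μ : ℚ) {f g : Equiv.Perm V3} (hf : f ∈ SIsom3) (hg : g ∈ SIsom3) (X : V6) :
    Ad μ (f * g) X = Ad μ f (Ad μ g X) := by
  have hc : ∀ u v, crossProduct (lin f *ᵥ u) (lin f *ᵥ v) = lin f *ᵥ crossProduct u v :=
    rot_cross (lin_orth hf.1) hf.2
  unfold Ad
  ext1
  · simp only [lin_mul hf.1 hg.1, Matrix.mulVec_mulVec]
  · simp only [lin_mul hf.1 hg.1, trn_mul hf.1, ← Matrix.mulVec_mulVec, Matrix.mulVec_add,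
      Matrix.mulVec_smul, ← hc, map_add, LinearMap.add_apply, smul_add]
    abel

/-- The matrix of `b × ·`. -/
def cm (b : V3) : Matrix (Fin 3) (Fin 3) ℚ := !![0, -b 2, b 1; b 2, 0, -b 0; -b 1, b 0, 0]

theorem cm_mulVec (b x : V3) : cm b *ᵥ x = crossProduct b x := by
  ext i
  fin_cases i <;>
    simp [cm, cross_apply, Matrix.mulVec, dotProduct, Fin.sum_univ_three] <;> ring

theorem cm_transpose (b : V3) : (cm b)ᵀ = -cm b := by
  ext i j
  fin_cases i <;> fin_cases j <;> simp [cm]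

theorem cm_inj {x y : V3} (h : cm x = cm y) : x = y := by
  funext i
  fin_cases i
  · exact congrFun (congrFun h 2) 1
  · exact congrFun (congrFun h 0) 2
  · exact congrFun (congrFun h 1) 0

theorem cm_add (x y : V3) : cm (x + y) = cm x + cm y := by
  ext i j
  fin_cases i <;> fin_cases j <;> simp [cm] <;> ring

theorem cm_smul (c : ℚ) (x : V3) : cm (c • x) = c • cm x := by
  ext i j
  fin_cases i <;> fin_cases j <;> simp [cm]

/-- The axis vector of a matrix. -/
def ax (T : Matrix (Fin 3) (Fin 3) ℚ) : V3 := ![T 2 1 - T 1 2, T 0 2 - T 2 0, T 1 0 - T 0 1]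

theorem cm_ax (T : Matrix (Fin 3) (Fin 3) ℚ) : cm (ax T) = T - Tᵀ := by
  ext i j
  fin_cases i <;> fin_cases j <;> simp [cm, ax]

theorem axis_cross (f : Equiv.Perm V3) (w : V3) :
    crossProduct (axis f) w = lin f *ᵥ w - (lin f)ᵀ *ᵥ w := by
  have h : axis f = ax (lin f) := rfl
  rw [h, ← cm_mulVec, cm_ax, Matrix.sub_mulVec]

/-- Conjugation of the matrix of `b × ·` by a rotation. -/
theorem cm_conj {A : Matrix (Fin 3) (Fin 3) ℚ} (h1 : Aᵀ * A = 1) (h2 : A.det = 1) (x : V3) :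
    A * cm x * Aᵀ = cm (A *ᵥ x) := by
  apply Matrix.mulVec_injective
  funext v
  rw [cm_mulVec, ← Matrix.mulVec_mulVec, ← Matrix.mulVec_mulVec, cm_mulVec, ← rot_cross h1 h2,
    Matrix.mulVec_mulVec v A Aᵀ, mul_eq_one_comm.1 h1, Matrix.one_mulVec]

/-- The fixed point given by an equivariant matrix. -/
theorem fix {A T : Matrix (Fin 3) (Fin 3) ℚ} (h1 : Aᵀ * A = 1) (h2 : A.det = 1) {μ : ℚ} {b : V3}
    (h : ∀ w, T *ᵥ (A *ᵥ w) = A *ᵥ (T *ᵥ w) + (2 * μ) • crossProduct b (A *ᵥ w)) :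
    ax T = A *ᵥ ax T + (4 * μ) • b := by
  have h3 : A * Aᵀ = 1 := mul_eq_one_comm.1 h1
  have e1 : T = A * T * Aᵀ + (2 * μ) • cm b := by
    apply Matrix.mulVec_injective
    funext v
    have h4 := h (Aᵀ *ᵥ v)
    rw [Matrix.mulVec_mulVec v A Aᵀ, h3, Matrix.one_mulVec] at h4
    rw [h4, Matrix.add_mulVec, Matrix.smul_mulVec, cm_mulVec, ← Matrix.mulVec_mulVec,
      ← Matrix.mulVec_mulVec]
  have e2 : Tᵀ = A * Tᵀ * Aᵀ - (2 * μ) • cm b := by
    conv_lhs => rw [e1]
    rw [Matrix.transpose_add, Matrix.transpose_mul, Matrix.transpose_mul, Matrix.transpose_transpose,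
      Matrix.transpose_smul, cm_transpose, smul_neg, ← sub_eq_add_neg, Matrix.mul_assoc]
  apply cm_inj
  have e4 : T - Tᵀ = (A * T * Aᵀ + (2 * μ) • cm b) - (A * Tᵀ * Aᵀ - (2 * μ) • cm b) :=
    congrArg₂ (fun x y => x - y) e1 e2
  rw [cm_add, cm_smul, ← cm_conj h1 h2, cm_ax, Matrix.mul_sub, Matrix.sub_mul, e4]
  have e3 : (4 * μ) • cm b = (2 * μ) • cm b + (2 * μ) • cm b := by
    rw [← add_smul]
    congr 1
    ring
  rw [e3]
  abel

end SPAM

open SPAM

theorem SPA_thm : Stmt_SPA := by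
  intro hIRR μ hμ a ha b hb c hc hab hfix X hX
  have hcl : Subgroup.closure {a, b, c} ≤ SIsom3 := by
    rw [Subgroup.closure_le]
    rintro x (rfl | rfl | rfl)
    · exact ha
    · exact hb
    · exact hc
  have haG : a ∈ Subgroup.closure {a, b, c} := Subgroup.subset_closure (by simp)
  have hbG : b ∈ Subgroup.closure {a, b, c} := Subgroup.subset_closure (by simp)
  have hcG : c ∈ Subgroup.closure {a, b, c} := Subgroup.subset_closure (by simp)
  set G := Subgroup.closure {a, b, c} with hG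
  set W := Submodule.span ℚ {Y : V6 | ∃ f ∈ G, Y = Ad μ f X} with hW
  -- the span is invariant
  have hinv : ∀ g ∈ G, ∀ Y ∈ W, Ad μ g Y ∈ W := by
    intro g hg
    have h1 : W ≤ W.comap (AdL μ g) := by
      rw [hW, Submodule.span_le]
      rintro Y ⟨f, hf, rfl⟩
      change Ad μ g (Ad μ f X) ∈ Submodule.span ℚ {Y : V6 | ∃ f ∈ G, Y = Ad μ f X}
      rw [← Ad_mul μ (hcl hg) (hcl hf)]
      exact Submodule.subset_span ⟨g * f, G.mul_mem hg hf, rfl⟩
    exact h1
  have hXW : X ∈ W := by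
    apply Submodule.subset_span
    refine ⟨1, G.one_mem, ?_⟩
    unfold Ad
    rw [lin_one, trn_one, Matrix.one_mulVec, Matrix.one_mulVec]
    ext1
    · rfl
    · simp
  -- invariance of a subspace of `V3` under the linear parts gives invariance under the axes
  have hirr : ∀ V : Submodule ℚ V3, (∀ g ∈ G, ∀ w ∈ V, lin g *ᵥ w ∈ V) → (∃ w ∈ V, w ≠ 0) →
      V = ⊤ := by
    intro V hV hne
    have h1 : ∀ g ∈ G, ∀ w ∈ V, crossProduct (axis g) w ∈ V := by
      intro g hg w hw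
      rw [axis_cross, ← lin_inv (hcl hg).1]
      exact V.sub_mem (hV g hg w hw) (hV _ (G.inv_mem hg) w hw)
    exact hIRR V (axis a) (axis b) hab (h1 a haG) (h1 b hbG) hne
  -- the projection
  have hW1 : W.map (LinearMap.fst ℚ V3 V3) = ⊤ := by
    apply hirr
    · rintro g hg w ⟨Y, hY, rfl⟩
      exact ⟨Ad μ g Y, hinv g hg Y hY, rfl⟩
    · exact ⟨X.1, ⟨X, hXW, rfl⟩, hX⟩
  have hlift : ∀ w : V3, ∃ s : V3, ((w, s) : V6) ∈ W := by
    intro w
    have h1 : w ∈ W.map (LinearMap.fst ℚ V3 V3) := by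
      rw [hW1]
      exact Submodule.mem_top
    obtain ⟨Y, hY, rfl⟩ := h1
    exact ⟨Y.2, hY⟩
  have hW0 : ∀ g ∈ G, ∀ w ∈ W.comap (LinearMap.inr ℚ V3 V3),
      lin g *ᵥ w ∈ W.comap (LinearMap.inr ℚ V3 V3) := by
    intro g hg w hw
    have h1 : Ad μ g (0, w) ∈ W := hinv g hg _ hw
    have h2 : Ad μ g (0, w) = (0, lin g *ᵥ w) := by
      unfold Ad
      simp
    rw [h2] at h1
    exact h1
  by_cases hne : ∃ w ∈ W.comap (LinearMap.inr ℚ V3 V3), w ≠ 0
  · -- the fibre over zero is everything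
    have h0 := hirr _ hW0 hne
    rw [eq_top_iff]
    intro Y _
    obtain ⟨s, hs⟩ := hlift Y.1
    have h1 : Y.2 - s ∈ W.comap (LinearMap.inr ℚ V3 V3) := by
      rw [h0]
      exact Submodule.mem_top
    have h2 : ((0, Y.2 - s) : V6) ∈ W := h1
    have h3 : Y = ((Y.1, s) : V6) + ((0, Y.2 - s) : V6) := by
      ext1 <;> simp
    rw [h3]
    exact W.add_mem hs h2
  · -- the fibre over zero is zero: a common fixed point
    exfalso
    have hz : ∀ w : V3, ((0, w) : V6) ∈ W → w = 0 := by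
      intro w hw
      by_contra hw0
      exact hne ⟨w, hw, hw0⟩
    choose s hs using hlift
    let T : Matrix (Fin 3) (Fin 3) ℚ := Matrix.of fun j i => s (Pi.single i 1) j
    have hT : ∀ w : V3, ((w, T *ᵥ w) : V6) ∈ W := by
      intro w
      have h1 : ((w, T *ᵥ w) : V6) =
          ∑ i : Fin 3, (w i) • ((Pi.single i 1, s (Pi.single i 1)) : V6) := by
        ext1
        · rw [Prod.fst_sum]
          ext j
          rw [Finset.sum_apply]
          simp [Pi.single_apply]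
        · rw [Prod.snd_sum]
          ext j
          rw [Finset.sum_apply]
          simp [T, Matrix.mulVec, dotProduct, Fin.sum_univ_three, mul_comm]
      rw [h1]
      exact W.sum_mem fun i _ => W.smul_mem _ (hs _)
    have hfx : ∀ g ∈ G, g ((4 * μ)⁻¹ • ax T) = (4 * μ)⁻¹ • ax T := by
      intro g hg
      have hS := hcl hg
      have h1 : ∀ w, T *ᵥ (lin g *ᵥ w) =
          lin g *ᵥ (T *ᵥ w) + (2 * μ) • crossProduct (trn g) (lin g *ᵥ w) := by
        intro w
        have h2 : Ad μ g (w, T *ᵥ w) ∈ W := hinv g hg _ (hT w)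
        have h3 := W.sub_mem h2 (hT (lin g *ᵥ w))
        have h4 : Ad μ g (w, T *ᵥ w) - (lin g *ᵥ w, T *ᵥ (lin g *ᵥ w)) =
            ((0, lin g *ᵥ (T *ᵥ w) + (2 * μ) • crossProduct (trn g) (lin g *ᵥ w) -
              T *ᵥ (lin g *ᵥ w)) : V6) := by
          unfold Ad
          ext1
          · simp
          · rfl
        rw [h4] at h3
        exact (sub_eq_zero.1 (hz _ h3)).symm
      have h5 := fix (lin_orth hS.1) hS.2 h1
      have h4μ : (4 * μ) ≠ 0 := mul_ne_zero (by norm_num) hμ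
      rw [apply_eq hS.1, Matrix.mulVec_smul]
      conv_rhs => rw [h5]
      rw [smul_add, smul_smul, inv_mul_cancel₀ h4μ, one_smul]
    exact hfix ⟨(4 * μ)⁻¹ • ax T, hfx a haG, hfx b hbG, hfx c hcG⟩

end Pool.Agent.UVR
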