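import Pool.Agent.UVR.Stmts

/-!
# UVR: prescribed vectors
-/

set_option autoImplicit false

namespace Pool.Agent.UVR

open Matrix Quaternion

namespace TARM

theorem Ad_comm (μ c : ℚ) (ρ : ℚ × ℚ) (f : Equiv.Perm V3) (X : V6) :
    Ad μ f (c • dsm ρ X) = c • dsm ρ (Ad μ f X) := by
  unfold Ad dsm
  ext1
  · simp only [Prod.smul_fst, Matrix.mulVec_smul]
  · simp only [Prod.smul_fst, Prod.smul_snd, Matrix.mulVec_smul, Matrix.mulVec_add, map_smul]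
    module

theorem Ad_dv {K t : ℕ} {μ : ℚ} {f : Equiv.Perm V3} (h1 : ∀ i j, lin f i j ∈ RK K)
    (h2 : Dv3 K 0 (μ • trn f)) {X : V6} (hX : Dv6 K t X) : Dv6 K t (Ad μ f X) := by
  have hA1 : Dv3 K t (lin f *ᵥ X.1) := Dv3.mulVec h1 hX.1
  refine ⟨hA1, ?_⟩
  change Dv3 K t (lin f *ᵥ X.2 + (2 * μ) • crossProduct (trn f) (lin f *ᵥ X.1))
  refine (Dv3.mulVec h1 hX.2).add ?_
  have e : (2 * μ) • crossProduct (trn f) (lin f *ᵥ X.1) =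
      (2 : ℚ) • crossProduct (μ • trn f) (lin f *ᵥ X.1) := by
    rw [map_smul, LinearMap.smul_apply, smul_smul]
  rw [e]
  have h3 : Dv K 0 (2 : ℚ) := Dv_zero_iff.2 (by exact_mod_cast RK_nat K 2)
  have h4 := Dv3.smul h3 (Dv3.cross h2 hA1)
  rwa [zero_add, zero_add] at h4

theorem dsm_add (ρ : ℚ × ℚ) (X Y : V6) : dsm ρ (X + Y) = dsm ρ X + dsm ρ Y := by
  unfold dsm
  ext1
  · simp only [Prod.fst_add]
    module
  · simp only [Prod.snd_add, Prod.fst_add]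
    module

theorem dsm_smul (ρ : ℚ × ℚ) (c : ℚ) (X : V6) : dsm ρ (c • X) = c • dsm ρ X := by
  unfold dsm
  ext1
  · simp only [Prod.smul_fst]
    module
  · simp only [Prod.smul_fst, Prod.smul_snd]
    module

theorem dsm_zero (ρ : ℚ × ℚ) : dsm ρ 0 = 0 := by
  have h := dsm_smul ρ 0 0
  rwa [zero_smul, zero_smul] at h

theorem dsm_sum {n : ℕ} (ρ : ℚ × ℚ) (g : Fin n → V6) :
    dsm ρ (∑ i, g i) = ∑ i, dsm ρ (g i) := by
  classical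
  refine Finset.induction_on (Finset.univ : Finset (Fin n)) ?_ ?_
  · rw [Finset.sum_empty, Finset.sum_empty, dsm_zero]
  · intro a s ha ih
    rw [Finset.sum_insert ha, Finset.sum_insert ha, dsm_add, ih]

theorem dsm_inv {ρ : ℚ × ℚ} (h : ρ.1 ≠ 0) (U : V6) :
    dsm ρ (dsm (ρ.1⁻¹, -ρ.2 * ρ.1⁻¹ * ρ.1⁻¹) U) = U := by
  unfold dsm
  ext1
  · simp only
    rw [smul_smul, mul_inv_cancel₀ h, one_smul]
  · simp only
    have e1 : ρ.1 * ρ.1⁻¹ = 1 := mul_inv_cancel₀ h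
    rw [smul_add, smul_smul, smul_smul, smul_smul, e1, one_smul, add_assoc, ← add_smul]
    have e2 : ρ.1 * (-ρ.2 * ρ.1⁻¹ * ρ.1⁻¹) + ρ.2 * ρ.1⁻¹ = 0 := by
      have : ρ.1 * (-ρ.2 * ρ.1⁻¹ * ρ.1⁻¹) + ρ.2 * ρ.1⁻¹ =
          ρ.2 * ρ.1⁻¹ * (1 - ρ.1 * ρ.1⁻¹) := by ring
      rw [this, e1, sub_self, mul_zero]
    rw [e2, zero_smul, add_zero]

theorem Dv.cancel {K j m : ℕ} (hK : (K : ℚ) ≠ 0) {x : ℚ} (h : Dv K (j + m) ((K : ℚ) ^ j * x)) :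
    Dv K m x := by
  obtain ⟨z, hz, e⟩ := h
  refine ⟨z, hz, ?_⟩
  rw [pow_add, mul_assoc] at e
  exact mul_left_cancel₀ (pow_ne_zero j hK) e

theorem Dv6.cancel {K j m : ℕ} (hK : (K : ℚ) ≠ 0) {X : V6}
    (h : Dv6 K (j + m) ((K : ℚ) ^ j • X)) : Dv6 K m X :=
  ⟨fun i => Dv.cancel hK (h.1 i), fun i => Dv.cancel hK (h.2 i)⟩

theorem one (hRKA : Stmt_RKA) (hPRD : Stmt_PRD) (hNRM : Stmt_NRM)
    {K t l G n : ℕ} {μ : ℚ} (hK : 2 ≤ K) (ht : 1 ≤ t) (hl : G + 2 ≤ l)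
    {F : Subgroup (Equiv.Perm V3)} (hF : F ≤ SIsom3)
    (hFK : ∀ f ∈ F, (∀ i j, lin f i j ∈ RK K) ∧ Dv3 K 0 (μ • trn f))
    {y' : Equiv.Perm V3} (hy' : y' ∈ F) {X : V6} (hX : Dv6 K t X) {ρ : ℚ × ℚ}
    (hρ1 : Dv K 1 (ρ.1 - 1)) (hρ2 : ρ.2 ∈ RK K)
    (hrep : Rep μ (nrm ((K : ℚ) ^ l • dsm ρ X)) y')
    (f : Fin n → Equiv.Perm V3) (hf : ∀ i, f i ∈ F)
    (hLAT : ∀ T : V6, Dv6 K 0 T →
      ∃ c : Fin n → ℚ, (∀ i, c i ∈ RK K) ∧ (K : ℚ) ^ G • T = ∑ i, c i • Ad μ (f i) X)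
    (U : V6) (hU : Dv6 K 0 U) :
    ∃ u ∈ F, ∃ U' : V6, Dv6 K 2 (U' - U) ∧ Rep μ (nrm ((K : ℚ) ^ (l + G) • U')) u := by
  have hK0 : (K : ℚ) ≠ 0 := by
    have : K ≠ 0 := by omega
    exact_mod_cast this
  obtain ⟨hR1, hR2, -⟩ := hRKA K hK
  obtain ⟨hρ0, hρinv⟩ := hR1 ρ.1 hρ1
  have hρm : ρ.1 ∈ RK K := by
    have h := (RK K).add_mem hρ1.mem (RK K).one_mem
    rwa [sub_add_cancel] at h
  -- the vectors D i
  set D : Fin n → V6 := fun i => dsm ρ (Ad μ (f i) X) with hD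
  have hDt : ∀ i, Dv6 K t (D i) := by
    intro i
    have h1 := Ad_dv (hFK _ (hf i)).1 (hFK _ (hf i)).2 hX
    have h2 := Dv6.dsm (Dv_zero_iff.2 hρm) (Dv_zero_iff.2 hρ2) h1
    rwa [zero_add] at h2
  have hW : ∀ i, Ad μ (f i) ((K : ℚ) ^ l • dsm ρ X) = (K : ℚ) ^ l • D i := fun i =>
    Ad_comm _ _ _ _ _
  -- the coefficients
  have hT : Dv6 K 0 (dsm (ρ.1⁻¹, -ρ.2 * ρ.1⁻¹ * ρ.1⁻¹) U) := by
    have h := Dv6.dsm (K := K) (m := 0) (ρ := (ρ.1⁻¹, -ρ.2 * ρ.1⁻¹ * ρ.1⁻¹))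
      (Dv_zero_iff.2 hρinv)
      (Dv_zero_iff.2 ((RK K).mul_mem ((RK K).mul_mem ((RK K).neg_mem hρ2) hρinv) hρinv)) hU
    rwa [zero_add] at h
  obtain ⟨c, hc, hce⟩ := hLAT _ hT
  have hU2 : (K : ℚ) ^ G • U = ∑ i, c i • D i := by
    have h := congrArg (dsm ρ) hce
    rw [dsm_smul, dsm_inv hρ0, dsm_sum] at h
    rw [h]
    exact Finset.sum_congr rfl fun i _ => dsm_smul _ _ _
  choose m hm using fun i => hR2 (c i) (hc i) (G + 2)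
  -- the product
  let L : List (Equiv.Perm V3 × V6 × ℕ) :=
    List.ofFn fun i => (f i * y' * (f i)⁻¹, (K : ℚ) ^ l • D i, m i)
  have hL : ∀ q ∈ L, Dv6 K (t + l) q.2.1 ∧ Rep μ (nrm q.2.1) q.1 := by
    intro q hq
    obtain ⟨i, rfl⟩ := (List.mem_ofFn' _ _).1 hq
    refine ⟨?_, ?_⟩
    · have h := Dv6.smul (Dv_pow K l) (hDt i)
      rwa [add_comm] at h
    · have h := Rep.conj (hF (hf i)) hrep
      rwa [hW i] at h
  obtain ⟨Z, hZ1, hZ2⟩ := hPRD hRKA hNRM K (t + l) μ hK (by omega) L hL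
  have hsum : (L.map fun q => (q.2.2 : ℚ) • q.2.1).sum = ∑ i, (m i : ℚ) • ((K : ℚ) ^ l • D i) := by
    rw [List.map_ofFn, List.sum_ofFn]
    rfl
  refine ⟨(L.map fun q => q.1 ^ q.2.2).prod, ?_, ((K : ℚ) ^ (l + G))⁻¹ • Z, ?_, ?_⟩
  · refine Subgroup.list_prod_mem _ fun x hx => ?_
    obtain ⟨q, hq, rfl⟩ := List.mem_map.1 hx
    obtain ⟨i, rfl⟩ := (List.mem_ofFn' _ _).1 hq
    exact F.pow_mem (F.mul_mem (F.mul_mem (hf i) hy') (F.inv_mem (hf i))) _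
  · refine Dv6.cancel (j := l + G) hK0 ?_
    rw [smul_sub, smul_smul, mul_inv_cancel₀ (pow_ne_zero _ hK0), one_smul]
    have e : Z - (K : ℚ) ^ (l + G) • U =
        (Z - (L.map fun q => (q.2.2 : ℚ) • q.2.1).sum) +
          -((K : ℚ) ^ l • ∑ i, (c i - m i) • D i) := by
      rw [hsum, pow_add, mul_smul, hU2]
      have e2 : ∑ i, (c i - m i) • D i = ∑ i, c i • D i - ∑ i, (m i : ℚ) • D i := by
        rw [← Finset.sum_sub_distrib]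
        exact Finset.sum_congr rfl fun i _ => sub_smul _ _ _
      have e3 : ∑ i, (m i : ℚ) • ((K : ℚ) ^ l • D i) = (K : ℚ) ^ l • ∑ i, (m i : ℚ) • D i := by
        rw [Finset.smul_sum]
        exact Finset.sum_congr rfl fun i _ => smul_comm _ _ _
      rw [e2, e3, smul_sub]
      abel
    rw [e]
    refine (hZ2.mono (by omega)).add (Dv6.neg ?_)
    have h1 : Dv6 K (G + 2) (∑ i, (c i - m i) • D i) := by
      refine Dv6.sum _ fun i _ => ?_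
      have h := Dv6.smul (hm i) ((hDt i).mono (Nat.zero_le t))
      rwa [add_zero] at h
    have h2 := Dv6.smul (Dv_pow K l) h1
    exact h2.mono (by omega)
  · rw [smul_smul, mul_inv_cancel₀ (pow_ne_zero _ hK0), one_smul]
    exact hZ1

end TARM

/-- Prescribed vectors. -/
theorem TAR_thm : Stmt_TAR := by
  intro hRKA hPOW hLAT hPRD hNRM K t μ hK ht F hF hFK y hy X hX hrep hspan U V hU hV j0
  obtain ⟨n, G, f, hf, hc⟩ := hLAT hRKA K μ hK F X hspan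
  obtain ⟨ρ, hρ1, hρ2, hr⟩ := hPOW hRKA hNRM K t μ hK ht y X hX hrep (G + 2 + j0)
  have hy' : y ^ K ^ (G + 2 + j0) ∈ F := F.pow_mem hy _
  obtain ⟨u, hu, U', hU', hUr⟩ := TARM.one hRKA hPRD hNRM hK ht (by omega) hF hFK hy' hX hρ1 hρ2 hr
    f hf hc U hU
  obtain ⟨v, hv, V', hV', hVr⟩ := TARM.one hRKA hPRD hNRM hK ht (by omega) hF hFK hy' hX hρ1 hρ2 hr
    f hf hc V hV
  exact ⟨G + 2 + j0 + G, by omega, u, hu, v, hv, U', V', hU', hV', hUr, hVr⟩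

end Pool.Agent.UVR
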