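import Pool.Agent.UVR.Fin
import Pool.Agent.UVR.RKA
import Pool.Agent.UVR.NRM
import Pool.Agent.UVR.IRR
import Pool.Agent.UVR.SPA
import Pool.Agent.UVR.LOC
import Pool.Agent.UVR.GIB
import Pool.Agent.UVR.GIS
import Pool.Agent.UVR.POW
import Pool.Agent.UVR.LAT
import Pool.Agent.UVR.PRD
import Pool.Agent.UVR.TAR
import Pool.Agent.UVR.GRP
import Pool.Agent.UVR.MAG
import Pool.Agent.UVR.ARI
import Pool.Agent.UVR.CHO
import Pool.Agent.UVR.ARK
import Pool.Agent.UVR.ODD
import Pool.Agent.UVR.FRC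
import Pool.Agent.UVR.CNVb
import Pool.Agent.UVR.HLF
import Pool.Agent.UVR.COM
import Pool.Agent.UVR.PAR
import Pool.Agent.UVR.GEN
import Pool.Agent.UVR.CNJ
import Pool.Agent.UVR.GNK

/-!
# Rare fixed points in every free group of isometries of `ℚ³`: all the modules
-/

set_option autoImplicit false

namespace Pool.Agent.UVR

theorem all_thm : All where
  rka := RKA_thm
  nrm := NRM_thm
  irr := IRR_thm
  spa := SPA_thm
  loc := LOC_thm
  gib := GIB_thm
  gis := GIS_thm
  pow := POW_thm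
  lat := LAT_thm
  prd := PRD_thm
  tar := TAR_thm
  grp := GRP_thm
  mag := MAG_thm
  ari := ARI_thm
  cho := CHO_thm
  ark := ARK_thm
  odd := ODD_thm
  frc := FRC_thm
  cnv := CNV_thm'
  hlf := HLF_thm
  com := COM_thm
  par := PAR_thm
  gen := GEN_thm
  cnj := CNJ_thm
  gnk := GNK_thm

end Pool.Agent.UVR
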