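import Pool.Agent.UVR.Defs

/-!
# Rare fixed points in every free group of isometries of `ℚ³`: basic facts
-/

set_option autoImplicit false

namespace Pool.Agent.UVR

open Matrix Quaternion

/-! ### Isometries are affine -/

theorem dist3_eq {x y z w : V3} (h : dist3 x y = dist3 z w) :
    ∑ i, (x i - y i) ^ 2 = ∑ i, (z i - w i) ^ 2 := by
  unfold dist3 at h
  have h1 : ∑ i, ((x i - y i : ℚ) : ℝ) ^ 2 = ∑ i, ((z i - w i : ℚ) : ℝ) ^ 2 :=
    (Real.sqrt_inj (Finset.sum_nonneg fun i _ => sq_nonneg _)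
      (Finset.sum_nonneg fun i _ => sq_nonneg _)).1 h
  exact_mod_cast h1

theorem inner_eq {f : Equiv.Perm V3} (hf : f ∈ Isom3) (x y : V3) :
    (f x - f 0) ⬝ᵥ (f y - f 0) = x ⬝ᵥ y := by
  have h1 := dist3_eq (hf x 0)
  have h2 := dist3_eq (hf y 0)
  have h3 := dist3_eq (hf x y)
  simp only [Fin.sum_univ_three, Pi.zero_apply, sub_zero] at h1 h2 h3
  simp only [dotProduct, Fin.sum_univ_three, Pi.sub_apply]
  linear_combination (1 / 2 : ℚ) * h1 + (1 / 2 : ℚ) * h2 - (1 / 2 : ℚ) * h3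

theorem lin_col (f : Equiv.Perm V3) (j : Fin 3) : (fun i => lin f i j) = f (Pi.single j 1) - f 0 := by
  funext i
  simp [lin]

theorem lin_orth {f : Equiv.Perm V3} (hf : f ∈ Isom3) : (lin f)ᵀ * lin f = 1 := by
  ext i j
  have h := inner_eq hf (Pi.single i 1) (Pi.single j 1)
  rw [← lin_col, ← lin_col] at h
  simp only [Matrix.mul_apply, Matrix.transpose_apply]
  have h2 : (Pi.single i 1 : V3) ⬝ᵥ (Pi.single j 1 : V3) = (1 : Matrix (Fin 3) (Fin 3) ℚ) i j := by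
    rw [single_dotProduct, one_mul, Matrix.one_apply, Pi.single_apply]
  rw [h2] at h
  rw [← h]
  rfl

theorem lin_orth' {f : Equiv.Perm V3} (hf : f ∈ Isom3) : lin f * (lin f)ᵀ = 1 :=
  mul_eq_one_comm.1 (lin_orth hf)

theorem apply_eq {f : Equiv.Perm V3} (hf : f ∈ Isom3) (x : V3) : f x = lin f *ᵥ x + trn f := by
  have h1 : (lin f)ᵀ *ᵥ (f x - f 0) = x := by
    funext i
    have h := inner_eq hf (Pi.single i 1) x
    rw [← lin_col, single_dotProduct, one_mul] at h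
    rw [← h]
    rfl
  have h2 : f x - f 0 = lin f *ᵥ x := by
    conv_rhs => rw [← h1]
    rw [Matrix.mulVec_mulVec, lin_orth' hf, Matrix.one_mulVec]
  rw [← h2]
  simp [trn]

theorem lin_of {f : Equiv.Perm V3} {A : Matrix (Fin 3) (Fin 3) ℚ} {b : V3}
    (h : ∀ x, f x = A *ᵥ x + b) : lin f = A := by
  ext i j
  simp only [lin, Matrix.of_apply, h]
  simp

theorem lin_one : lin 1 = 1 := by
  apply lin_of (b := 0)
  intro x
  simp

theorem trn_one : trn 1 = 0 := rfl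

theorem lin_mul {f g : Equiv.Perm V3} (hf : f ∈ Isom3) (hg : g ∈ Isom3) :
    lin (f * g) = lin f * lin g := by
  apply lin_of (b := lin f *ᵥ trn g + trn f)
  intro x
  rw [Equiv.Perm.mul_apply, apply_eq hf, apply_eq hg, Matrix.mulVec_add, Matrix.mulVec_mulVec,
    add_assoc]

theorem trn_mul {f g : Equiv.Perm V3} (hf : f ∈ Isom3) : trn (f * g) = lin f *ᵥ trn g + trn f := by
  unfold trn
  rw [Equiv.Perm.mul_apply, apply_eq hf]
  rfl

theorem lin_inv {f : Equiv.Perm V3} (hf : f ∈ Isom3) : lin f⁻¹ = (lin f)ᵀ := by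
  have h1 : lin f⁻¹ * lin f = 1 := by
    rw [← lin_mul (Isom3.inv_mem hf) hf, inv_mul_cancel, lin_one]
  have h2 : lin f⁻¹ * (lin f * (lin f)ᵀ) = (lin f)ᵀ := by
    rw [← Matrix.mul_assoc, h1, Matrix.one_mul]
  rwa [lin_orth' hf, Matrix.mul_one] at h2

theorem trn_inv {f : Equiv.Perm V3} (hf : f ∈ Isom3) : trn f⁻¹ = -((lin f)ᵀ *ᵥ trn f) := by
  have h1 : trn (f⁻¹ * f) = (lin f)ᵀ *ᵥ trn f + trn f⁻¹ := by
    rw [trn_mul (Isom3.inv_mem hf), lin_inv hf]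
  rw [inv_mul_cancel, trn_one] at h1
  exact (neg_eq_of_add_eq_zero_right h1.symm).symm

theorem det_sq {f : Equiv.Perm V3} (hf : f ∈ Isom3) : (lin f).det = 1 ∨ (lin f).det = -1 := by
  have h := congrArg Matrix.det (lin_orth hf)
  rw [Matrix.det_mul, Matrix.det_transpose, Matrix.det_one] at h
  exact mul_self_eq_one_iff.1 h

/-- The direct isometries. -/
def SIsom3 : Subgroup (Equiv.Perm V3) where
  carrier := {f | f ∈ Isom3 ∧ (lin f).det = 1}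
  mul_mem' := by
    intro f g hf hg
    exact ⟨Isom3.mul_mem hf.1 hg.1, by rw [lin_mul hf.1 hg.1, Matrix.det_mul, hf.2, hg.2, one_mul]⟩
  one_mem' := ⟨Isom3.one_mem, by rw [lin_one, Matrix.det_one]⟩
  inv_mem' := by
    intro f hf
    exact ⟨Isom3.inv_mem hf.1, by rw [lin_inv hf.1, Matrix.det_transpose, hf.2]⟩

/-- The cofactors of a rotation are its entries. -/
theorem adj_eq {A : Matrix (Fin 3) (Fin 3) ℚ} (h1 : Aᵀ * A = 1) (h2 : A.det = 1) :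
    A.adjugate = Aᵀ := by
  have h3 : A * A.adjugate = 1 := by rw [Matrix.mul_adjugate, h2, one_smul]
  calc A.adjugate = (Aᵀ * A) * A.adjugate := by rw [h1, Matrix.one_mul]
    _ = Aᵀ := by rw [Matrix.mul_assoc, h3, Matrix.mul_one]

/-- A rotation preserves the cross product. -/
theorem rot_cross {A : Matrix (Fin 3) (Fin 3) ℚ} (h1 : Aᵀ * A = 1) (h2 : A.det = 1) (x y : V3) :
    crossProduct (A *ᵥ x) (A *ᵥ y) = A *ᵥ crossProduct x y := by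
  have h := adj_eq h1 h2
  rw [Matrix.adjugate_fin_three] at h
  have h00 := congrFun (congrFun h 0) 0
  have h01 := congrFun (congrFun h 0) 1
  have h02 := congrFun (congrFun h 0) 2
  have h10 := congrFun (congrFun h 1) 0
  have h11 := congrFun (congrFun h 1) 1
  have h12 := congrFun (congrFun h 1) 2
  have h20 := congrFun (congrFun h 2) 0
  have h21 := congrFun (congrFun h 2) 1
  have h22 := congrFun (congrFun h 2) 2
  simp [Matrix.transpose_apply] at h00 h01 h02 h10 h11 h12 h20 h21 h22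
  funext i
  fin_cases i
  · simp [cross_apply, Matrix.mulVec, dotProduct, Fin.sum_univ_three]
    rw [← h00, ← h10, ← h20]
    ring
  · simp [cross_apply, Matrix.mulVec, dotProduct, Fin.sum_univ_three]
    rw [← h01, ← h11, ← h21]
    ring
  · simp [cross_apply, Matrix.mulVec, dotProduct, Fin.sum_univ_three]
    rw [← h02, ← h12, ← h22]
    ring

/-- A rotation preserves the dot product. -/
theorem rot_dot {A : Matrix (Fin 3) (Fin 3) ℚ} (h1 : Aᵀ * A = 1) (x y : V3) :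
    (A *ᵥ x) ⬝ᵥ (A *ᵥ y) = x ⬝ᵥ y := by
  rw [Matrix.dotProduct_mulVec, Matrix.vecMul_mulVec, h1, Matrix.vecMul_one]

/-- The Cayley-Hamilton theorem for rotations. -/
theorem rot_ch {A : Matrix (Fin 3) (Fin 3) ℚ} (h1 : Aᵀ * A = 1) (h2 : A.det = 1) :
    A * A - A.trace • A + A.trace • (1 : Matrix (Fin 3) (Fin 3) ℚ) = Aᵀ := by
  have h := adj_eq h1 h2
  have ht : A.adjugate.trace = A.trace := by rw [h, Matrix.trace_transpose]
  have hc : A * A - A.trace • A + A.adjugate.trace • (1 : Matrix (Fin 3) (Fin 3) ℚ) =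
      A.adjugate := by
    rw [Matrix.adjugate_fin_three]
    ext i j
    fin_cases i <;> fin_cases j <;>
      simp [Matrix.mul_apply, Fin.sum_univ_three, Matrix.trace_fin_three] <;> ring
  rw [ht, h] at hc
  exact hc

/-! ### Rational numbers with denominators prime to `K` -/

theorem RK_int (K : ℕ) (n : ℤ) : (n : ℚ) ∈ RK K := intCast_mem _ n

theorem RK_nat (K : ℕ) (n : ℕ) : (n : ℚ) ∈ RK K := natCast_mem _ n

theorem RK_of_mul {K : ℕ} {x : ℚ} {d n : ℤ} (hd : IsCoprime d (K : ℤ)) (h : x * d = n) :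
    x ∈ RK K := by
  change x.den.Coprime K
  rcases eq_or_ne d 0 with rfl | hd0
  · rw [isCoprime_zero_left, Int.isUnit_iff_natAbs_eq, Int.natAbs_natCast] at hd
    rw [hd]
    exact Nat.coprime_one_right _
  · have h1 : x = n / d := by
      rw [eq_div_iff (by exact_mod_cast hd0)]
      exact h
    have h2 : (x.den : ℤ) ∣ d := by
      rw [h1, ← Rat.divInt_eq_div]
      exact Rat.den_dvd n d
    have h3 : IsCoprime (x.den : ℤ) (K : ℤ) := hd.of_isCoprime_of_dvd_left h2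
    exact Nat.isCoprime_iff_coprime.1 h3

theorem RK_spec {K : ℕ} {x : ℚ} (hx : x ∈ RK K) : IsCoprime (x.den : ℤ) (K : ℤ) ∧
    x * (x.den : ℤ) = x.num := by
  refine ⟨Nat.isCoprime_iff_coprime.2 hx, ?_⟩
  rw [Int.cast_natCast]
  exact Rat.mul_den_eq_num x

theorem Dv_zero_iff {K : ℕ} {x : ℚ} : Dv K 0 x ↔ x ∈ RK K := by
  constructor
  · rintro ⟨z, hz, rfl⟩
    rwa [pow_zero, one_mul]
  · intro h
    exact ⟨x, h, by rw [pow_zero, one_mul]⟩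

theorem Dv.zero (K m : ℕ) : Dv K m 0 := ⟨0, (RK K).zero_mem, by rw [mul_zero]⟩

theorem Dv.add {K m : ℕ} {x y : ℚ} (hx : Dv K m x) (hy : Dv K m y) : Dv K m (x + y) := by
  obtain ⟨a, ha, rfl⟩ := hx
  obtain ⟨b, hb, rfl⟩ := hy
  exact ⟨a + b, (RK K).add_mem ha hb, by ring⟩

theorem Dv.neg {K m : ℕ} {x : ℚ} (hx : Dv K m x) : Dv K m (-x) := by
  obtain ⟨a, ha, rfl⟩ := hx
  exact ⟨-a, (RK K).neg_mem ha, by ring⟩

theorem Dv.sub {K m : ℕ} {x y : ℚ} (hx : Dv K m x) (hy : Dv K m y) : Dv K m (x - y) := by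
  rw [sub_eq_add_neg]
  exact hx.add hy.neg

theorem Dv.mul {K m n : ℕ} {x y : ℚ} (hx : Dv K m x) (hy : Dv K n y) : Dv K (m + n) (x * y) := by
  obtain ⟨a, ha, rfl⟩ := hx
  obtain ⟨b, hb, rfl⟩ := hy
  exact ⟨a * b, (RK K).mul_mem ha hb, by ring⟩

theorem Dv.mul_left {K m : ℕ} {x y : ℚ} (hx : x ∈ RK K) (hy : Dv K m y) : Dv K m (x * y) := by
  have h := (Dv_zero_iff.2 hx).mul hy
  rwa [zero_add] at h

theorem Dv.mono {K m n : ℕ} {x : ℚ} (h : m ≤ n) (hx : Dv K n x) : Dv K m x := by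
  obtain ⟨a, ha, rfl⟩ := hx
  refine ⟨(K : ℚ) ^ (n - m) * a, (RK K).mul_mem ((RK K).pow_mem (RK_nat K K) _) ha, ?_⟩
  rw [← mul_assoc, ← pow_add, Nat.add_sub_cancel' h]

theorem Dv.mem {K m : ℕ} {x : ℚ} (hx : Dv K m x) : x ∈ RK K :=
  Dv_zero_iff.1 (hx.mono (Nat.zero_le m))

theorem Dv_pow (K m : ℕ) : Dv K m ((K : ℚ) ^ m) := ⟨1, (RK K).one_mem, by rw [mul_one]⟩

theorem Dv.sum {K m : ℕ} {ι : Type} (s : Finset ι) {f : ι → ℚ} (h : ∀ i ∈ s, Dv K m (f i)) :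
    Dv K m (∑ i ∈ s, f i) := by
  classical
  induction s using Finset.induction_on with
  | empty => simpa using Dv.zero K m
  | insert a s ha ih =>
    rw [Finset.sum_insert ha]
    exact (h a (Finset.mem_insert_self a s)).add
      (ih fun i hi => h i (Finset.mem_insert_of_mem hi))

/-! ### Divisible vectors and dual quaternions -/

theorem Dv3.add {K m : ℕ} {x y : V3} (hx : Dv3 K m x) (hy : Dv3 K m y) : Dv3 K m (x + y) :=
  fun i => (hx i).add (hy i)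

theorem Dv3.neg {K m : ℕ} {x : V3} (hx : Dv3 K m x) : Dv3 K m (-x) := fun i => (hx i).neg

theorem Dv3.sub {K m : ℕ} {x y : V3} (hx : Dv3 K m x) (hy : Dv3 K m y) : Dv3 K m (x - y) :=
  fun i => (hx i).sub (hy i)

theorem Dv3.zero (K m : ℕ) : Dv3 K m 0 := fun _ => Dv.zero K m

theorem Dv3.smul {K m n : ℕ} {c : ℚ} {x : V3} (hc : Dv K m c) (hx : Dv3 K n x) :
    Dv3 K (m + n) (c • x) := fun i => hc.mul (hx i)

theorem Dv3.mono {K m n : ℕ} {x : V3} (h : m ≤ n) (hx : Dv3 K n x) : Dv3 K m x :=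
  fun i => (hx i).mono h

theorem Dv3.cross {K m n : ℕ} {x y : V3} (hx : Dv3 K m x) (hy : Dv3 K n y) :
    Dv3 K (m + n) (crossProduct x y) := by
  intro i
  fin_cases i <;> simp only [cross_apply]
  · exact ((hx 1).mul (hy 2)).sub ((hx 2).mul (hy 1))
  · exact ((hx 2).mul (hy 0)).sub ((hx 0).mul (hy 2))
  · exact ((hx 0).mul (hy 1)).sub ((hx 1).mul (hy 0))

theorem Dv3.dot {K m n : ℕ} {x y : V3} (hx : Dv3 K m x) (hy : Dv3 K n y) :
    Dv K (m + n) (x ⬝ᵥ y) := Dv.sum _ fun i _ => (hx i).mul (hy i)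

theorem Dv3.mulVec {K m : ℕ} {A : Matrix (Fin 3) (Fin 3) ℚ} {x : V3}
    (hA : ∀ i j, A i j ∈ RK K) (hx : Dv3 K m x) : Dv3 K m (A *ᵥ x) := by
  intro i
  change Dv K m (∑ j, A i j * x j)
  exact Dv.sum _ fun j _ => Dv.mul_left (hA i j) (hx j)

theorem Dv6.add {K m : ℕ} {x y : V6} (hx : Dv6 K m x) (hy : Dv6 K m y) : Dv6 K m (x + y) :=
  ⟨hx.1.add hy.1, hx.2.add hy.2⟩

theorem Dv6.neg {K m : ℕ} {x : V6} (hx : Dv6 K m x) : Dv6 K m (-x) := ⟨hx.1.neg, hx.2.neg⟩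

theorem Dv6.sub {K m : ℕ} {x y : V6} (hx : Dv6 K m x) (hy : Dv6 K m y) : Dv6 K m (x - y) :=
  ⟨hx.1.sub hy.1, hx.2.sub hy.2⟩

theorem Dv6.zero (K m : ℕ) : Dv6 K m 0 := ⟨Dv3.zero K m, Dv3.zero K m⟩

theorem Dv6.smul {K m n : ℕ} {c : ℚ} {x : V6} (hc : Dv K m c) (hx : Dv6 K n x) :
    Dv6 K (m + n) (c • x) := ⟨Dv3.smul hc hx.1, Dv3.smul hc hx.2⟩

theorem Dv6.mono {K m n : ℕ} {x : V6} (h : m ≤ n) (hx : Dv6 K n x) : Dv6 K m x :=
  ⟨hx.1.mono h, hx.2.mono h⟩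

theorem Dv6.sum {K m : ℕ} {ι : Type} (s : Finset ι) {f : ι → V6} (h : ∀ i ∈ s, Dv6 K m (f i)) :
    Dv6 K m (∑ i ∈ s, f i) := by
  classical
  induction s using Finset.induction_on with
  | empty => simpa using Dv6.zero K m
  | insert a s ha ih =>
    rw [Finset.sum_insert ha]
    exact (h a (Finset.mem_insert_self a s)).add
      (ih fun i hi => h i (Finset.mem_insert_of_mem hi))

theorem Dv6.dsm {K m n : ℕ} {ρ : ℚ × ℚ} {X : V6} (h1 : Dv K m ρ.1) (h2 : Dv K m ρ.2)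
    (hX : Dv6 K n X) : Dv6 K (m + n) (dsm ρ X) :=
  ⟨Dv3.smul h1 hX.1, (Dv3.smul h1 hX.2).add (Dv3.smul h2 hX.1)⟩

theorem Dv6.kap {K m n : ℕ} {X : V6} (h1 : Dv3 K m X.1) (h2 : Dv3 K n X.2) :
    Dv K (m + n) (kap X) := h1.dot h2

theorem Dv6.bil {K m n : ℕ} {X Y : V6} (h1 : Dv6 K m X) (h2 : Dv6 K n Y) :
    Dv K (m + n) (bil X Y) := (h1.1.dot h2.2).add (h1.2.dot h2.1)

theorem Dv6.crs {K m n : ℕ} {X Y : V6} (h1 : Dv6 K m X) (h2 : Dv6 K n Y) :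
    Dv6 K (m + n) (crs X Y) :=
  ⟨h1.1.cross h2.1, (h1.1.cross h2.2).add (h1.2.cross h2.1)⟩

theorem Dvq_iff {K m : ℕ} {q : ℍ[ℚ]} :
    Dvq K m q ↔ Dv K m q.re ∧ Dv K m q.imI ∧ Dv K m q.imJ ∧ Dv K m q.imK := by
  constructor
  · rintro ⟨h1, h2⟩
    exact ⟨h1, h2 0, h2 1, h2 2⟩
  · rintro ⟨h1, h2, h3, h4⟩
    refine ⟨h1, fun i => ?_⟩
    fin_cases i
    · exact h2
    · exact h3
    · exact h4

theorem Dvq.add {K m : ℕ} {x y : ℍ[ℚ]} (hx : Dvq K m x) (hy : Dvq K m y) : Dvq K m (x + y) := by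
  rw [Dvq_iff] at hx hy ⊢
  exact ⟨hx.1.add hy.1, hx.2.1.add hy.2.1, hx.2.2.1.add hy.2.2.1, hx.2.2.2.add hy.2.2.2⟩

theorem Dvq.neg {K m : ℕ} {x : ℍ[ℚ]} (hx : Dvq K m x) : Dvq K m (-x) := by
  rw [Dvq_iff] at hx ⊢
  exact ⟨hx.1.neg, hx.2.1.neg, hx.2.2.1.neg, hx.2.2.2.neg⟩

theorem Dvq.sub {K m : ℕ} {x y : ℍ[ℚ]} (hx : Dvq K m x) (hy : Dvq K m y) : Dvq K m (x - y) := by
  rw [sub_eq_add_neg]
  exact hx.add hy.neg

theorem Dvq.zero (K m : ℕ) : Dvq K m 0 := by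
  rw [Dvq_iff]
  exact ⟨Dv.zero K m, Dv.zero K m, Dv.zero K m, Dv.zero K m⟩

theorem Dvq.mono {K m n : ℕ} {x : ℍ[ℚ]} (h : m ≤ n) (hx : Dvq K n x) : Dvq K m x :=
  ⟨hx.1.mono h, hx.2.mono h⟩

theorem Dvq.smul {K m n : ℕ} {c : ℚ} {x : ℍ[ℚ]} (hc : Dv K m c) (hx : Dvq K n x) :
    Dvq K (m + n) (c • x) := by
  rw [Dvq_iff] at hx ⊢
  simp only [Quaternion.re_smul, Quaternion.imI_smul, Quaternion.imJ_smul, Quaternion.imK_smul,
    smul_eq_mul]
  exact ⟨hc.mul hx.1, hc.mul hx.2.1, hc.mul hx.2.2.1, hc.mul hx.2.2.2⟩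

theorem Dvq.mul {K m n : ℕ} {x y : ℍ[ℚ]} (hx : Dvq K m x) (hy : Dvq K n y) :
    Dvq K (m + n) (x * y) := by
  rw [Dvq_iff] at hx hy ⊢
  obtain ⟨a0, a1, a2, a3⟩ := hx
  obtain ⟨b0, b1, b2, b3⟩ := hy
  simp only [Quaternion.re_mul, Quaternion.imI_mul, Quaternion.imJ_mul, Quaternion.imK_mul]
  refine ⟨?_, ?_, ?_, ?_⟩
  · exact (((a0.mul b0).sub (a1.mul b1)).sub (a2.mul b2)).sub (a3.mul b3)
  · exact (((a0.mul b1).add (a1.mul b0)).add (a2.mul b3)).sub (a3.mul b2)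
  · exact (((a0.mul b2).sub (a1.mul b3)).add (a2.mul b0)).add (a3.mul b1)
  · exact (((a0.mul b3).add (a1.mul b2)).sub (a2.mul b1)).add (a3.mul b0)

theorem DvH.add {K m : ℕ} {x y : DH} (hx : DvH K m x) (hy : DvH K m y) : DvH K m (x + y) :=
  ⟨hx.1.add hy.1, hx.2.add hy.2⟩

theorem DvH.neg {K m : ℕ} {x : DH} (hx : DvH K m x) : DvH K m (-x) := ⟨hx.1.neg, hx.2.neg⟩

theorem DvH.sub {K m : ℕ} {x y : DH} (hx : DvH K m x) (hy : DvH K m y) : DvH K m (x - y) := by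
  rw [sub_eq_add_neg]
  exact hx.add hy.neg

theorem DvH.zero (K m : ℕ) : DvH K m 0 := ⟨Dvq.zero K m, Dvq.zero K m⟩

theorem DvH.mono {K m n : ℕ} {x : DH} (h : m ≤ n) (hx : DvH K n x) : DvH K m x :=
  ⟨hx.1.mono h, hx.2.mono h⟩

theorem DvH.smul {K m n : ℕ} {c : ℚ} {x : DH} (hc : Dv K m c) (hx : DvH K n x) :
    DvH K (m + n) (c • x) := ⟨Dvq.smul hc hx.1, Dvq.smul hc hx.2⟩

theorem DvH.mul {K m n : ℕ} {x y : DH} (hx : DvH K m x) (hy : DvH K n y) :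
    DvH K (m + n) (x * y) := by
  refine ⟨?_, ?_⟩
  · rw [TrivSqZeroExt.fst_mul]
    exact hx.1.mul hy.1
  · rw [DualNumber.snd_mul]
    exact (hx.1.mul hy.2).add (hx.2.mul hy.1)

theorem DvH.one (K : ℕ) : DvH K 0 1 := by
  have h0 : Dv K 0 (1 : ℚ) := Dv_zero_iff.2 (RK K).one_mem
  refine ⟨Dvq_iff.2 ⟨?_, ?_, ?_, ?_⟩, Dvq_iff.2 ⟨?_, ?_, ?_, ?_⟩⟩ <;>
    simp <;> first | exact h0 | exact Dv.zero K 0

end Pool.Agent.UVR
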