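import Mathlib

/-!
# Rare fixed points in every free group of isometries of `ℚ³`: definitions

See `Stmts.lean` for the theorem and the plan of the proof.
-/

set_option autoImplicit false

namespace Pool.Agent.UVR

open Matrix Quaternion

/-- The rational space. -/
abbrev V3 : Type := Fin 3 → ℚ

/-- The Euclidean distance on `ℚ³`. -/
noncomputable def dist3 (z w : Fin 3 → ℚ) : ℝ := Real.sqrt (∑ i, ((z i - w i : ℚ) : ℝ) ^ 2)

/-- The isometry group of `ℚ³`: all the bijections of `ℚ³` which preserve the Euclidean distance. -/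
def Isom3 : Subgroup (Equiv.Perm (Fin 3 → ℚ)) where
  carrier := {g | ∀ z w, dist3 (g z) (g w) = dist3 z w}
  mul_mem' := by
    intro g h hg hh z w
    rw [Equiv.Perm.mul_apply, Equiv.Perm.mul_apply, hg, hh]
  one_mem' := by
    intro z w
    rfl
  inv_mem' := by
    intro g hg z w
    have h := hg (g⁻¹ z) (g⁻¹ w)
    have h1 : ∀ u, g (g⁻¹ u) = u := fun u => g.apply_symm_apply u
    rw [h1, h1] at h
    exact h.symm

/-- The translation part: the image of the origin. -/
def trn (f : Equiv.Perm V3) : V3 := f 0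

/-- The linear part of an isometry. -/
def lin (f : Equiv.Perm V3) : Matrix (Fin 3) (Fin 3) ℚ :=
  Matrix.of fun i j => f (Pi.single j 1) i - f 0 i

/-- The vectors `(ω, s)`, i.e. the dual vectors `ω + ε s`. -/
abbrev V6 : Type := V3 × V3

/-- The Klein form `⟨ω, s⟩`. -/
def kap (X : V6) : ℚ := X.1 ⬝ᵥ X.2

/-- Its polar form. -/
def bil (X Y : V6) : ℚ := X.1 ⬝ᵥ Y.2 + X.2 ⬝ᵥ Y.1

/-- The dual cross product. -/
def crs (X Y : V6) : V6 := (crossProduct X.1 Y.1, crossProduct X.1 Y.2 + crossProduct X.2 Y.1)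

/-- The multiplication by the dual number `ρ.1 + ε ρ.2`. -/
def dsm (ρ : ℚ × ℚ) (X : V6) : V6 := (ρ.1 • X.1, ρ.1 • X.2 + ρ.2 • X.1)

/-- The adjoint action of the isometry `x ↦ A x + b`, `A = lin f`, `b = trn f`. -/
def Ad (μ : ℚ) (f : Equiv.Perm V3) (X : V6) : V6 :=
  (lin f *ᵥ X.1, lin f *ᵥ X.2 + (2 * μ) • crossProduct (trn f) (lin f *ᵥ X.1))

/-- The dual quaternions `p + ε r`. -/
abbrev DH : Type := DualNumber ℍ[ℚ]

/-- The quaternion of a vector. -/
def vq (x : V3) : ℍ[ℚ] := ⟨0, x 0, x 1, x 2⟩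

/-- The vector part of a quaternion. -/
def qv (q : ℍ[ℚ]) : V3 := ![q.imI, q.imJ, q.imK]

/-- The vector part of a dual quaternion. -/
def vec (P : DH) : V6 := (qv P.fst, qv P.snd)

/-- The dual quaternion `1 + X - ε κ(X)`. -/
def nrm (X : V6) : DH := (1 + vq X.1, ((-kap X : ℚ) : ℍ[ℚ]) + vq X.2)

/-- The conjugate. -/
def cj (P : DH) : DH := (star P.fst, star P.snd)

/-- The dual quaternion `P = p + ε r` represents the isometry `f`, with the scale `μ`. -/
def Rep (μ : ℚ) (P : DH) (f : Equiv.Perm V3) : Prop :=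
  P.fst ≠ 0 ∧ ∀ x, P.snd = μ • (vq (f x) * P.fst - P.fst * vq x)

/-- The rational numbers with denominator prime to `K`. -/
def RK (K : ℕ) : Subring ℚ where
  carrier := {x | x.den.Coprime K}
  mul_mem' := by
    intro a b ha hb
    exact Nat.Coprime.coprime_dvd_left (Rat.mul_den_dvd a b) (Nat.Coprime.mul_left ha hb)
  one_mem' := by
    simp
  add_mem' := by
    intro a b ha hb
    exact Nat.Coprime.coprime_dvd_left (Rat.add_den_dvd a b) (Nat.Coprime.mul_left ha hb)
  zero_mem' := by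
    simp
  neg_mem' := by
    intro a ha
    simpa using ha

/-- The number lies in `K ^ m RK K`. -/
def Dv (K m : ℕ) (x : ℚ) : Prop := ∃ z ∈ RK K, x = (K : ℚ) ^ m * z

/-- The vector has components in `K ^ m RK K`. -/
def Dv3 (K m : ℕ) (x : V3) : Prop := ∀ i, Dv K m (x i)

/-- The dual vector has components in `K ^ m RK K`. -/
def Dv6 (K m : ℕ) (X : V6) : Prop := Dv3 K m X.1 ∧ Dv3 K m X.2

/-- The quaternion has components in `K ^ m RK K`. -/
def Dvq (K m : ℕ) (q : ℍ[ℚ]) : Prop := Dv K m q.re ∧ Dv3 K m (qv q)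

/-- The dual quaternion has components in `K ^ m RK K`. -/
def DvH (K m : ℕ) (P : DH) : Prop := Dvq K m P.fst ∧ Dvq K m P.snd

end Pool.Agent.UVR
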