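import Pool.Agent.UVR.Stmts

/-!
# FRC: roots and abelian normal subgroups in free groups (helper33)
-/

set_option autoImplicit false

namespace Pool.Agent.UVR

namespace FRCM

theorem tf (F : Type) [Group F] [IsFreeGroup F] : IsMulTorsionFree F :=
  Function.Injective.isMulTorsionFree (IsFreeGroup.toFreeGroup F).toMonoidHom
    (IsFreeGroup.toFreeGroup F).injective

/-- a commutative free group has at most one generator -/
theorem sub_gen {X : Type} (h : ∀ x y : FreeGroup X, x * y = y * x) (a b : X) : a = b := by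
  classical
  by_contra hab
  let f : X → Equiv.Perm (Fin 3) := fun x => if x = a then Equiv.swap 0 1 else Equiv.swap 1 2
  have h1 := congrArg (FreeGroup.lift f) (h (FreeGroup.of a) (FreeGroup.of b))
  rw [map_mul, map_mul, FreeGroup.lift_apply_of, FreeGroup.lift_apply_of] at h1
  have ha : f a = Equiv.swap 0 1 := if_pos rfl
  have hb : f b = Equiv.swap 1 2 := if_neg (Ne.symm hab)
  rw [ha, hb] at h1
  revert h1
  decide

/-- a commutative free group is cyclic -/
theorem cyc (F : Type) [Group F] [IsFreeGroup F] (h : ∀ x y : F, x * y = y * x) :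
    ∃ r : F, ∀ x : F, ∃ k : ℤ, r ^ k = x := by
  let e := IsFreeGroup.toFreeGroup F
  have h' : ∀ x y : FreeGroup (IsFreeGroup.Generators F), x * y = y * x := by
    intro x y
    apply e.symm.injective
    rw [map_mul, map_mul, h]
  have hs := sub_gen h'
  rcases isEmpty_or_nonempty (IsFreeGroup.Generators F) with hE | ⟨⟨a⟩⟩
  · refine ⟨1, fun x => ⟨0, ?_⟩⟩
    apply e.injective
    exact Subsingleton.elim _ _
  · refine ⟨e.symm (FreeGroup.of a), fun x => ?_⟩
    have h1 : e x ∈ Subgroup.closure (Set.range (FreeGroup.of (α := IsFreeGroup.Generators F))) := by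
      rw [FreeGroup.closure_range_of]
      trivial
    have h2 : Set.range (FreeGroup.of (α := IsFreeGroup.Generators F)) = {FreeGroup.of a} := by
      ext y
      constructor
      · rintro ⟨b, rfl⟩
        rw [hs b a]
        rfl
      · intro hy
        exact ⟨a, hy.symm⟩
    rw [h2, ← Subgroup.zpowers_eq_closure] at h1
    obtain ⟨k, hk⟩ := h1
    refine ⟨k, ?_⟩
    rw [← map_zpow]
    apply e.injective
    rw [e.apply_symm_apply]
    exact hk

/-- commuting elements of a free group are powers of one element -/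
theorem com (F : Type) [Group F] [IsFreeGroup F] (x y : F) (h : x * y = y * x) :
    ∃ (r : F) (i k : ℤ), r ^ i = x ∧ r ^ k = y := by
  let H : Subgroup F := Subgroup.closure {x, y}
  have hc : IsMulCommutative H := by
    refine Subgroup.isMulCommutative_closure ?_
    rintro a (rfl | rfl) b (rfl | rfl)
    · rfl
    · exact h
    · exact h.symm
    · rfl
  have : IsFreeGroup H := subgroupIsFreeOfIsFree H
  obtain ⟨r, hr⟩ := cyc H fun a b => hc.is_comm.comm a b
  obtain ⟨i, hi⟩ := hr ⟨x, Subgroup.subset_closure (Set.mem_insert _ _)⟩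
  obtain ⟨k, hk⟩ := hr ⟨y, Subgroup.subset_closure (Set.mem_insert_of_mem _ rfl)⟩
  exact ⟨r, i, k, congrArg Subtype.val hi, congrArg Subtype.val hk⟩

theorem sq_comm (F : Type) [Group F] [IsFreeGroup F] (g h : F)
    (H : g ^ 2 * h ^ 2 = h ^ 2 * g ^ 2) : g * h = h * g := by
  have := tf F
  have inj : ∀ a b : F, a ^ 2 = b ^ 2 → a = b := fun a b => (pow_left_inj (two_ne_zero)).1
  have conj2 : ∀ a b : F, (a * b * a⁻¹) ^ 2 = a * b ^ 2 * a⁻¹ := fun a b => conj_pow
  have h1 : h ^ 2 * g * (h ^ 2)⁻¹ = g := by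
    apply inj
    rw [conj2, ← H, mul_inv_cancel_right]
  have h2 : g * h * g⁻¹ = h := by
    apply inj
    rw [conj2]
    have h3 : g * h ^ 2 = h ^ 2 * g := (mul_inv_eq_iff_eq_mul.1 h1).symm
    rw [h3, mul_inv_cancel_right]
  exact mul_inv_eq_iff_eq_mul.1 h2

/-- an element commuting up to a power with an abelian normal subgroup -/
theorem sq_root (F : Type) [Group F] [IsFreeGroup F] (N : Subgroup F) (hN : N.Normal) (r : F)
    (hr : r ∈ N) (hr1 : r ≠ 1) (hgen : ∀ x ∈ N, ∃ k : ℤ, r ^ k = x) (g : F) :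
    ∃ i k : ℤ, k ≠ 0 ∧ (g ^ 2) ^ k = r ^ i := by
  have := tf F
  obtain ⟨k, hk⟩ := hgen _ (hN.conj_mem r hr g)
  obtain ⟨l, hl⟩ := hgen _ (hN.conj_mem r hr g⁻¹)
  rw [inv_inv] at hl
  have h1 : r = r ^ (k * l) := by
    have : r = g * (g⁻¹ * r * g) * g⁻¹ := by group
    rw [← hl] at this
    rw [zpow_mul, hk, conj_zpow]
    exact this
  have h2 : k * l = 1 := by
    have h3 : r ^ (k * l - 1) = 1 := by
      rw [zpow_sub_one, ← h1, mul_inv_cancel]
    rcases IsMulTorsionFree.zpow_eq_one_iff.1 h3 with h4 | h4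
    · exact absurd h4 hr1
    · omega
  have h3 : k * k = 1 := by
    rcases Int.eq_one_or_neg_one_of_mul_eq_one h2 with h | h <;> rw [h] <;> norm_num
  have h4 : g ^ 2 * r * (g ^ 2)⁻¹ = r := by
    have h5 : g ^ 2 * r * (g ^ 2)⁻¹ = g * (g * r * g⁻¹) * g⁻¹ := by
      rw [pow_two, mul_inv_rev]
      simp only [mul_assoc]
    rw [h5, ← hk, ← conj_zpow, ← hk, ← zpow_mul, h3, zpow_one]
  obtain ⟨s, i, j, hi, hj⟩ := com F (g ^ 2) r (mul_inv_eq_iff_eq_mul.1 h4)
  have hj0 : j ≠ 0 := by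
    rintro rfl
    rw [zpow_zero] at hj
    exact hr1 hj.symm
  refine ⟨i, j, hj0, ?_⟩
  rw [← hi, ← hj, ← zpow_mul, ← zpow_mul, mul_comm]

theorem normal_comm (F : Type) [Group F] [IsFreeGroup F] (N : Subgroup F) (hN : N.Normal)
    (hc : ∀ x ∈ N, ∀ y ∈ N, x * y = y * x) (hb : N ≠ ⊥) (g h : F) : g * h = h * g := by
  have := tf F
  have : IsFreeGroup N := subgroupIsFreeOfIsFree N
  obtain ⟨r, hr⟩ := cyc N fun a b => Subtype.ext (hc a a.2 b b.2)
  have hr1 : (r : F) ≠ 1 := by
    intro h1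
    apply hb
    rw [eq_bot_iff]
    intro x hx
    obtain ⟨k, hk⟩ := hr ⟨x, hx⟩
    have h2 : (r : F) ^ k = x := congrArg Subtype.val hk
    rw [h1, one_zpow] at h2
    exact Subgroup.mem_bot.2 h2.symm
  have hgen : ∀ x ∈ N, ∃ k : ℤ, (r : F) ^ k = x := by
    intro x hx
    obtain ⟨k, hk⟩ := hr ⟨x, hx⟩
    exact ⟨k, congrArg Subtype.val hk⟩
  obtain ⟨i, k, hk0, hk⟩ := sq_root F N hN r r.2 hr1 hgen g
  obtain ⟨l, m, hm0, hm⟩ := sq_root F N hN r r.2 hr1 hgen h
  have key : g ^ (2 * k * l) = h ^ (2 * m * i) := by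
    have h1 : g ^ (2 * k * l) = (r : F) ^ (i * l) := by
      rw [zpow_mul, zpow_mul, zpow_mul, ← hk, zpow_ofNat]
    have h2 : h ^ (2 * m * i) = (r : F) ^ (l * i) := by
      rw [zpow_mul, zpow_mul, zpow_mul, ← hm, zpow_ofNat]
    rw [h1, h2, mul_comm]
  rcases eq_or_ne i 0 with rfl | hi
  · rw [zpow_zero] at hk
    have h1 : g ^ 2 = 1 := (IsMulTorsionFree.zpow_eq_one_iff_left hk0).1 hk
    have h2 : g = 1 := (pow_eq_one_iff_left two_ne_zero).1 h1
    rw [h2, one_mul, mul_one]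
  rcases eq_or_ne l 0 with rfl | hl
  · rw [zpow_zero] at hm
    have h1 : h ^ 2 = 1 := (IsMulTorsionFree.zpow_eq_one_iff_left hm0).1 hm
    have h2 : h = 1 := (pow_eq_one_iff_left two_ne_zero).1 h1
    rw [h2, one_mul, mul_one]
  have hP : 2 * k * l ≠ 0 := mul_ne_zero (mul_ne_zero two_ne_zero hk0) hl
  have h1 : (h * g * h⁻¹) ^ (2 * k * l) = g ^ (2 * k * l) := by
    rw [conj_zpow, key, ← zpow_one_add, ← zpow_sub_one]
    congr 1
    ring
  have h2 : h * g * h⁻¹ = g := (zpow_left_inj hP).1 h1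
  exact (mul_inv_eq_iff_eq_mul.1 h2).symm

end FRCM

theorem FRC_thm : Stmt_FRC := by
  intro F _ _
  refine ⟨?_, ?_, ?_⟩
  · intro g n hn h
    have := FRCM.tf F
    exact (pow_eq_one_iff_left hn).1 h
  · intro N hN hc hb g h
    exact FRCM.normal_comm F N hN hc hb g h
  · intro g h H
    exact FRCM.sq_comm F g h H

end Pool.Agent.UVR
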