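import Pool.Agent.UVR.INT

/-!
# Rare fixed points in every free group of isometries of `ℚ³`: integrality for one `K`
-/

set_option autoImplicit false

namespace Pool.Agent.UVR

open Matrix Quaternion

open INTM in
theorem INK_thm (K : ℕ) {a b c : Equiv.Perm V3} (ha : a ∈ SIsom3) (hb : b ∈ SIsom3)
    (hc : c ∈ SIsom3) (la : ∀ i j, lin a i j ∈ RK K) (lb : ∀ i j, lin b i j ∈ RK K)
    (lc : ∀ i j, lin c i j ∈ RK K) : ∃ μ : ℚ, μ ≠ 0 ∧ ∀ f ∈ Subgroup.closure {a, b, c},
      (∀ i j, lin f i j ∈ RK K) ∧ Dv3 K 0 (μ • trn f) := by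
  refine ⟨((mm a * mm b * mm c : ℕ) : ℚ), ?_, ?_⟩
  · exact Nat.cast_ne_zero.2 (Nat.mul_ne_zero (Nat.mul_ne_zero (mm_ne a) (mm_ne b)) (mm_ne c))
  · intro f hf
    have hS : Subgroup.closure {a, b, c} ≤ SIsom3 := by
      rw [Subgroup.closure_le]
      rintro x (rfl | rfl | rfl)
      · exact ha
      · exact hb
      · exact hc
    induction hf using Subgroup.closure_induction with
    | mem x hx =>
      rcases hx with rfl | rfl | rfl
      · exact ⟨la, trn_mem ⟨mm b * mm c, by ring⟩ _⟩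
      · exact ⟨lb, trn_mem ⟨mm a * mm c, by ring⟩ _⟩
      · exact ⟨lc, trn_mem ⟨mm a * mm b, by ring⟩ _⟩
    | one =>
      refine ⟨fun i j => ?_, ?_⟩
      · rw [lin_one, Matrix.one_apply]
        split_ifs
        · exact (RK K).one_mem
        · exact (RK K).zero_mem
      · rw [trn_one, smul_zero]
        exact Dv3.zero _ _
    | mul x y hx hy px py =>
      have hx' := (hS hx).1
      have hy' := (hS hy).1
      refine ⟨fun i j => ?_, ?_⟩
      · rw [lin_mul hx' hy', Matrix.mul_apply]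
        exact (RK K).sum_mem fun k _ => (RK K).mul_mem (px.1 i k) (py.1 k j)
      · rw [trn_mul hx', smul_add, ← Matrix.mulVec_smul]
        exact (Dv3.mulVec px.1 py.2).add px.2
    | inv x hx px =>
      have hx' := (hS hx).1
      refine ⟨fun i j => ?_, ?_⟩
      · rw [lin_inv hx']
        exact px.1 j i
      · rw [trn_inv hx', smul_neg, ← Matrix.mulVec_smul]
        exact (Dv3.mulVec (fun i j => px.1 j i) px.2).neg

end Pool.Agent.UVR
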