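import Pool.Agent.UVR.Stmts2
import Pool.Agent.UVR.RTW
import Pool.Agent.UVR.INK

/-!
# Rare fixed points in every free group of isometries of `ℚ³`: assembly
-/

set_option autoImplicit false

namespace Pool.Agent.UVR

open Matrix Quaternion

/-- All the statements of `Stmts.lean`. -/
structure All : Prop where
  rka : Stmt_RKA
  nrm : Stmt_NRM
  irr : Stmt_IRR
  spa : Stmt_SPA
  loc : Stmt_LOC
  gib : Stmt_GIB
  gis : Stmt_GIS
  pow : Stmt_POW
  lat : Stmt_LAT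
  prd : Stmt_PRD
  tar : Stmt_TAR
  grp : Stmt_GRP
  mag : Stmt_MAG
  ari : Stmt_ARI
  cho : Stmt_CHO
  ark : Stmt_ARK
  odd : Stmt_ODD
  frc : Stmt_FRC
  cnv : Stmt_CNV
  hlf : Stmt_HLF
  com : Stmt_COM
  par : Stmt_PAR
  gen : Stmt_GEN
  cnj : Stmt_CNJ
  gnk : Stmt_GNK

/-- The subgroup generated by the third term of the lower central series and the `K`-th powers. -/
def sub3 (H : Subgroup (Equiv.Perm V3)) (K : ℕ) : Subgroup (Equiv.Perm V3) :=
  ⁅⁅H, H⁆, H⁆ ⊔ Subgroup.closure {x | ∃ h ∈ H, x = h ^ K}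

theorem sub3_mono (H : Subgroup (Equiv.Perm V3)) (K L : ℕ) (h : K ∣ L) : sub3 H L ≤ sub3 H K := by
  obtain ⟨m, rfl⟩ := h
  apply sup_le_sup_left
  rw [Subgroup.closure_le]
  rintro x ⟨y, hy, rfl⟩
  apply Subgroup.subset_closure
  exact ⟨y ^ m, H.pow_mem hy m, by rw [← pow_mul, mul_comm]⟩

theorem Dv3_V0 (K : ℕ) (k z : ℤ) : Dv6 K 0 (V0 k z) := by
  refine ⟨fun i => ?_, fun i => ?_⟩ <;> rw [Dv_zero_iff] <;> fin_cases i
  · exact (RK K).zero_mem
  · exact (RK K).one_mem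
  · exact RK_int K z
  · exact RK_int K k
  · have := RK_int K (2 * k - 1 - z ^ 2)
    push_cast at this
    simpa [V0] using this
  · exact (RK K).zero_mem

theorem Dv3_U0 (K : ℕ) : Dv6 K 0 U0 := by
  refine ⟨fun i => ?_, fun i => ?_⟩ <;> rw [Dv_zero_iff] <;> fin_cases i
  · exact (RK K).one_mem
  · exact (RK K).zero_mem
  · exact (RK K).zero_mem
  · exact (RK K).one_mem
  · exact (RK K).zero_mem
  · exact (RK K).zero_mem

/-- Integral vectors congruent to integral ones are integral. -/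
theorem Dv6_of_sub {K : ℕ} {U W : V6} (hW : Dv6 K 0 W) (h : Dv6 K 2 (U - W)) : Dv6 K 0 U := by
  have h1 : U = (U - W) + W := by abel
  rw [h1]
  exact (h.mono (Nat.zero_le 2)).add hW

/-- A number in `K ^ m RK K` with `m ≥ 1`, `K ≥ 2` is not one. -/
theorem not_one {K m : ℕ} (hK : 2 ≤ K) (hm : 1 ≤ m) (hR : Stmt_RKA) {x : ℚ} (h : Dv K m x) :
    1 - x ≠ 0 := by
  have h1 : Dv K 1 ((1 - x) - 1) := by
    have h2 : (1 - x) - 1 = -x := by ring
    rw [h2]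
    exact (h.mono hm).neg
  exact ((hR K hK).1 _ h1).1

/-- `1 + K ^ j` times something: the two elements do not commute. -/
theorem not_comm (A : All) {K j : ℕ} (hK : 2 ≤ K) (hj : 1 ≤ j) {μ : ℚ} (hμ : μ ≠ 0)
    {u v : Equiv.Perm V3} (hu : u ∈ Isom3) (hv : v ∈ Isom3) {k z : ℤ} {U V : V6}
    (hU : Dv6 K 2 (U - U0)) (hV : Dv6 K 2 (V - V0 k z))
    (ru : Rep μ (nrm ((K : ℚ) ^ j • U)) u) (rv : Rep μ (nrm ((K : ℚ) ^ j • V)) v) :
    u * v ≠ v * u := by
  intro huv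
  have hKq : (K : ℚ) ^ j ≠ 0 := pow_ne_zero _ (by positivity)
  have hU0 := Dv6_of_sub (Dv3_U0 K) hU
  have hV0 := Dv6_of_sub (Dv3_V0 K k z) hV
  have h1 : Dv K (j + 0 + (j + 0)) (((K : ℚ) ^ j • U).1 ⬝ᵥ ((K : ℚ) ^ j • V).1) :=
    (Dv3.smul (Dv_pow K j) hU0.1).dot (Dv3.smul (Dv_pow K j) hV0.1)
  have h2 := A.com μ hμ u hu v hv _ _ ru rv (not_one hK (by omega) A.rka h1) huv
  have h3 : crossProduct ((K : ℚ) ^ j • U).1 ((K : ℚ) ^ j • V).1 =
      ((K : ℚ) ^ j * (K : ℚ) ^ j) • crossProduct U.1 V.1 := by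
    change crossProduct ((K : ℚ) ^ j • U.1) ((K : ℚ) ^ j • V.1) = _
    rw [map_smul, map_smul, LinearMap.smul_apply, smul_smul]
  rw [h3, smul_eq_zero] at h2
  have h4 : crossProduct U.1 V.1 = 0 := h2.resolve_left (mul_ne_zero hKq hKq)
  have h5 : U.1 0 * V.1 1 - U.1 1 * V.1 0 = 0 := by
    rw [← cross2, h4]
    rfl
  obtain ⟨a, ha, ea⟩ := hU.1 0
  obtain ⟨b, hb, eb⟩ := hU.1 1
  obtain ⟨c, hc, ec⟩ := hV.1 0
  obtain ⟨d, hd, ed⟩ := hV.1 1
  have ea' : U.1 0 = 1 + (K : ℚ) ^ 2 * a := by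
    have : (U - U0).1 0 = U.1 0 - 1 := rfl
    rw [this] at ea
    linarith
  have eb' : U.1 1 = (K : ℚ) ^ 2 * b := by
    have : (U - U0).1 1 = U.1 1 - 0 := rfl
    rw [this] at eb
    linarith
  have ec' : V.1 0 = (K : ℚ) ^ 2 * c := by
    have : (V - V0 k z).1 0 = V.1 0 - 0 := rfl
    rw [this] at ec
    linarith
  have ed' : V.1 1 = 1 + (K : ℚ) ^ 2 * d := by
    have : (V - V0 k z).1 1 = V.1 1 - 1 := rfl
    rw [this] at ed
    linarith
  rw [ea', eb', ec', ed'] at h5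
  have h6 : Dv K 2 ((K : ℚ) ^ 2 * (-(a + d + (K : ℚ) ^ 2 * (a * d)) + (K : ℚ) ^ 2 * (b * c))) := by
    refine ⟨_, ?_, rfl⟩
    have hK2 : (K : ℚ) ^ 2 ∈ RK K := (RK K).pow_mem (RK_nat K K) 2
    exact (RK K).add_mem ((RK K).neg_mem ((RK K).add_mem ((RK K).add_mem ha hd)
      ((RK K).mul_mem hK2 ((RK K).mul_mem ha hd)))) ((RK K).mul_mem hK2 ((RK K).mul_mem hb hc))
  apply not_one hK (by norm_num : 1 ≤ 2) A.rka h6
  linear_combination h5

/-- The main theorem for one `K`. -/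
theorem main_K (A : All) {F : Subgroup (Equiv.Perm V3)}
    (hF3 : ∀ f ∈ F, lin f = 1 → f = 1) (hF4 : ∀ f ∈ F, ∀ n : ℕ, n ≠ 0 → f ^ n = 1 → f = 1)
    {a b c : Equiv.Perm V3} (haF : a ∈ F) (hbF : b ∈ F) (hcF : c ∈ F) (ha : a ∈ SIsom3)
    (hb : b ∈ SIsom3) (hc : c ∈ SIsom3) (hax : crossProduct (axis a) (axis b) ≠ 0)
    (hfix : ¬ ∃ x : V3, a x = x ∧ b x = x ∧ c x = x) {μ : ℚ} (hμ : μ ≠ 0) (L : ℕ) (hL : 1 ≤ L)
    (hint : ∀ f ∈ Subgroup.closure {a, b, c}, (∀ i j, lin f i j ∈ RK (2 * L)) ∧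
      Dv3 (2 * L) 0 (μ • trn f)) :
    ∃ u ∈ F, ∃ v ∈ F, u * v ≠ v * u ∧ ∀ H : Subgroup (Equiv.Perm V3),
      H = Subgroup.closure {u, v} → ∀ g ∈ H, (∃ x, g x = x) → g ∈ sub3 H L := by
  set K := 2 * L with hKd
  have hK : 2 ≤ K := by omega
  have hKe : Even K := ⟨L, by omega⟩
  set F1 := Subgroup.closure {a, b, c} with hF1
  have hF1S : F1 ≤ SIsom3 := by
    rw [hF1, Subgroup.closure_le]
    rintro x (rfl | rfl | hx)
    · exact ha
    · exact hb
    · rw [Set.mem_singleton_iff] at hx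
      exact hx ▸ hc
  have hF1F : F1 ≤ F := by
    rw [hF1, Subgroup.closure_le]
    rintro x (rfl | rfl | hx)
    · exact haF
    · exact hbF
    · rw [Set.mem_singleton_iff] at hx
      exact hx ▸ hcF
  have haF1 : a ∈ F1 := Subgroup.subset_closure (Set.mem_insert a _)
  have ha1 : a ≠ 1 := by
    rintro rfl
    apply hax
    have h0 : axis 1 = 0 := by
      funext i
      fin_cases i <;> simp [axis, lin_one]
    rw [h0]
    simp
  -- a small element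
  obtain ⟨n, hn, h1, h2⟩ := A.loc K 3 μ hK a ha fun n => hint _ (F1.pow_mem haF1 n)
  set y := a ^ n with hy
  have hyF1 : y ∈ F1 := F1.pow_mem haF1 n
  have hyS : y ∈ SIsom3 := hF1S hyF1
  have hy1 : lin y ≠ 1 := by
    intro h
    have h3 := hF3 y (hF1F hyF1) h
    exact ha1 (hF4 a haF n (by omega) h3)
  obtain ⟨h3, h4, h5⟩ := A.gis A.rka K 1 μ hK hKe le_rfl y hyS h1 (h2.mono (by norm_num))
  set X := gib μ y with hX
  have hrep : Rep μ (nrm X) y := A.gib μ y hyS h3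
  have hspan := A.spa A.irr μ hμ a ha b hb c hc hax hfix X (h5 hy1)
  obtain ⟨k, z, hkz⟩ := A.cho K hK hKe
  obtain ⟨j, hj, u, hu, v, hv, U, V, hU, hV, ru, rv⟩ :=
    A.tar A.rka A.pow A.lat A.prd A.nrm K 1 μ hK le_rfl F1 hF1S hint y hyF1 X h4 hrep hspan
      U0 (V0 k z) (Dv3_U0 K) (Dv3_V0 K k z) 4
  refine ⟨u, hF1F hu, v, hF1F hv, ?_, ?_⟩
  · exact not_comm A hK (by omega) hμ (hF1S hu).1 (hF1S hv).1 hU hV ru rv
  · intro H hH g hg hx
    obtain ⟨x, hx⟩ := hx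
    obtain ⟨p, q, t, P, E, hP, hE, hvec, hcos⟩ := A.mag A.grp K j μ hK u v U V
      (Dv6_of_sub (Dv3_U0 K) hU) (Dv6_of_sub (Dv3_V0 K k z) hV) ru rv H hH g hg
    have hkap := hP.kap_eq hx
    rw [hvec] at hkap
    obtain ⟨d1, d2, d3⟩ := A.ark A.ari K j k z hK hj hkz U V E p q t hU hV hE hkap
    have h6 := (A.grp (Equiv.Perm V3) u v H hH).2.2 K g p q t d1 d2 d3 hcos
    exact sub3_mono H L K ⟨2, by omega⟩ h6

/-- The group `H` in the theorem. -/
def Good (F : Subgroup (Equiv.Perm V3)) (K : ℕ) : Prop :=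
  ∃ H : Subgroup (Equiv.Perm V3), H ≤ F ∧ Nonempty (FreeGroup (Fin 2) ≃* H) ∧
    ∀ g ∈ H, (∃ x, g x = x) → g ∈ sub3 H K

/-- The main theorem. -/
theorem main (A : All) (F : Subgroup (Equiv.Perm V3)) (hF : F ≤ Isom3) (hfree : IsFreeGroup F)
    (hno : ¬ ∃ x : V3, ∀ g ∈ F, g x = x) (K : ℕ) (hK : 1 ≤ K) (a0 : Equiv.Perm V3) (ha0 : a0 ∈ F)
    (b0 : Equiv.Perm V3) (hb0 : b0 ∈ F) (hab : a0 * b0 ≠ b0 * a0)
    (la : ∀ i j, lin a0 i j ∈ RK K) (lb : ∀ i j, lin b0 i j ∈ RK K) : Good F K := by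
  have hodd : ∀ g ∈ F, (∀ i j, lin g i j ∈ RK K) → ∀ i j, lin g i j ∈ RK (2 * K) := by
    intro g hg h i j
    change (lin g i j).den.Coprime (2 * K)
    have h1 := A.odd (lin g) (lin_orth' (hF hg)) i j
    exact Nat.Coprime.mul_right (Nat.coprime_two_right.2 h1) (h i j)
  have hna : ∃ a ∈ F, ∃ b ∈ F, a * b ≠ b * a := ⟨a0, ha0, b0, hb0, hab⟩
  obtain ⟨h1, h2, -⟩ := A.gen A.frc A.gib A.par A.hlf F hF hfree hna hno
  obtain ⟨a, haF, b, hbF, c, hcF, ha, hb, hc, hax, hfix, ka, kb, kc⟩ :=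
    A.gnk A.frc A.gib A.par A.hlf A.gen A.cnj A.rka A.loc (2 * K) (by omega) F hF hfree hno a0 ha0
      b0 hb0 hab (hodd a0 ha0 la) (hodd b0 hb0 lb)
  obtain ⟨μ, hμ, hint⟩ := INK_thm (2 * K) ha hb hc ka kb kc
  obtain ⟨u, hu, v, hv, huv, h3⟩ :=
    main_K A h1 h2 haF hbF hcF ha hb hc hax hfix hμ K hK hint
  have hHF : Subgroup.closure {u, v} ≤ F := by
    rw [Subgroup.closure_le]
    rintro x (rfl | hx)
    · exact hu
    · rw [Set.mem_singleton_iff] at hx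
      exact hx ▸ hv
  exact ⟨Subgroup.closure {u, v}, hHF,
    (RTW_thm (Equiv.Perm V3) F hfree u hu v hv huv _ rfl).2, fun g hg hx => h3 _ rfl g hg hx⟩

/-- For `K = 2` there is an element without fixed point. -/
theorem good_two (A : All) (F : Subgroup (Equiv.Perm V3)) (hfree : IsFreeGroup F)
    (h : Good F 2) : ∃ g ∈ F, ∀ x, g x ≠ x := by
  obtain ⟨H, hHF, ⟨e⟩, h2⟩ := h
  -- the generators of `H`
  set u : Equiv.Perm V3 := ((e (FreeGroup.of 0) : H) : Equiv.Perm V3) with hu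
  set v : Equiv.Perm V3 := ((e (FreeGroup.of 1) : H) : Equiv.Perm V3) with hv
  have huH : u ∈ H := (e (FreeGroup.of 0)).2
  have hvH : v ∈ H := (e (FreeGroup.of 1)).2
  have huv : u * v ≠ v * u := by
    intro h3
    have h4 : e (FreeGroup.of 0 * FreeGroup.of 1) = e (FreeGroup.of 1 * FreeGroup.of 0) := by
      rw [map_mul, map_mul]
      exact Subtype.ext h3
    have h5 := e.injective h4
    revert h5
    decide
  have hH : H = Subgroup.closure {u, v} := by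
    apply le_antisymm
    · intro x hx
      have h6 : ∀ w : FreeGroup (Fin 2), ((e w : H) : Equiv.Perm V3) ∈
          Subgroup.closure {u, v} := by
        intro w
        induction w using FreeGroup.induction_on with
        | C1 =>
          rw [map_one]
          exact Subgroup.one_mem _
        | of i =>
          fin_cases i
          · exact Subgroup.subset_closure (Set.mem_insert u _)
          · exact Subgroup.subset_closure (Set.mem_insert_of_mem u rfl)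
        | inv_of i hi =>
          rw [map_inv]
          exact Subgroup.inv_mem _ hi
        | mul x y hx hy =>
          rw [map_mul]
          exact Subgroup.mul_mem _ hx hy
      have h7 := h6 (e.symm ⟨x, hx⟩)
      rwa [MulEquiv.apply_symm_apply] at h7
    · rw [Subgroup.closure_le]
      rintro x (rfl | hx)
      · exact huH
      · rw [Set.mem_singleton_iff] at hx
        exact hx ▸ hvH
  obtain ⟨g, hg, hg2⟩ := A.cnv (Equiv.Perm V3) F hfree u (hHF huH) v (hHF hvH) huv H hH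
  exact ⟨g, hHF hg, fun x hx => hg2 (h2 g hg ⟨x, hx⟩)⟩

/-- The equivalent conditions. -/
theorem final (A : All) (F : Subgroup (Equiv.Perm V3)) (hF : F ≤ Isom3) (hfree : IsFreeGroup F)
    (hna : ∃ a ∈ F, ∃ b ∈ F, a * b ≠ b * a) :
    List.TFAE [
      ¬ ∃ x : V3, ∀ g ∈ F, g x = x,
      ∃ g ∈ F, ∀ x, g x ≠ x,
      ∀ K : ℕ, 1 ≤ K → (∃ a ∈ F, ∃ b ∈ F, a * b ≠ b * a ∧ (∀ i j, lin a i j ∈ RK K) ∧
        ∀ i j, lin b i j ∈ RK K) → Good F K,
      ∃ E : Finset ℕ, (∀ q ∈ E, q.Prime ∧ Odd q) ∧ ∀ K : ℕ, 1 ≤ K → (∀ q ∈ E, ¬ q ∣ K) →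
        Good F K] := by
  tfae_have 1 → 3 := by
    intro hno K hK ⟨a, ha, b, hb, hab, la, lb⟩
    exact main A F hF hfree hno K hK a ha b hb hab la lb
  tfae_have 3 → 4 := by
    intro h
    obtain ⟨a, ha, b, hb, hab⟩ := hna
    have key : ∀ g ∈ F, ∀ q ∈ INTM.EE g, q.Prime ∧ Odd q := by
      intro g hg q hq
      unfold INTM.EE at hq
      rw [Finset.mem_biUnion] at hq
      obtain ⟨i, -, hi⟩ := hq
      rw [Finset.mem_biUnion] at hi
      obtain ⟨j, -, hj⟩ := hi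
      obtain ⟨h1, h2, -⟩ := Nat.mem_primeFactors.1 hj
      exact ⟨h1, (A.odd (lin g) (lin_orth' (hF hg)) i j).of_dvd_nat h2⟩
    refine ⟨INTM.EE a ∪ INTM.EE b, ?_, ?_⟩
    · intro q hq
      rcases Finset.mem_union.1 hq with h1 | h1
      · exact key a ha q h1
      · exact key b hb q h1
    · intro K hK hKE
      refine h K hK ⟨a, ha, b, hb, hab, fun i j => ?_, fun i j => ?_⟩
      · refine Nat.coprime_of_dvd fun q hq h1 h2 => ?_
        exact hKE q (Finset.mem_union_left _ (INTM.mem_EE hq h1)) h2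
      · refine Nat.coprime_of_dvd fun q hq h1 h2 => ?_
        exact hKE q (Finset.mem_union_right _ (INTM.mem_EE hq h1)) h2
  tfae_have 4 → 2 := by
    rintro ⟨E, hE, h⟩
    refine good_two A F hfree (h 2 (by norm_num) fun q hq h3 => ?_)
    obtain ⟨h1, h2⟩ := hE q hq
    rcases (Nat.dvd_prime Nat.prime_two).1 h3 with h4 | h4
    · exact h1.one_lt.ne' h4
    · rw [h4] at h2
      exact absurd h2 (by decide)
  tfae_have 2 → 1 := by
    rintro ⟨g, hg, h⟩ ⟨x, hx⟩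
    exact h x (hx g hg)
  tfae_finish

end Pool.Agent.UVR
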