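import Pool.Agent.UVR.Stmts

/-!
# Rare fixed points in every free group of isometries of `ℚ³`: module INT (denominators)
-/

set_option autoImplicit false

namespace Pool.Agent.UVR

open Matrix Quaternion

namespace INTM

/-- the primes which divide a denominator of an entry of `lin g` -/
def EE (g : Equiv.Perm V3) : Finset ℕ :=
  Finset.univ.biUnion fun i : Fin 3 => Finset.univ.biUnion fun j : Fin 3 =>
    (lin g i j).den.primeFactors

/-- the product of the denominators of the coordinates of `trn g` -/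
def mm (g : Equiv.Perm V3) : ℕ := ∏ i : Fin 3, (trn g i).den

theorem mm_ne (g : Equiv.Perm V3) : mm g ≠ 0 :=
  Finset.prod_ne_zero_iff.2 fun _ _ => Rat.den_nz _

theorem mem_EE {g : Equiv.Perm V3} {q : ℕ} {i j : Fin 3} (hq : q.Prime)
    (h : q ∣ (lin g i j).den) : q ∈ EE g := by
  unfold EE
  rw [Finset.mem_biUnion]
  refine ⟨i, Finset.mem_univ _, ?_⟩
  rw [Finset.mem_biUnion]
  exact ⟨j, Finset.mem_univ _, Nat.mem_primeFactors.2 ⟨hq, h, Rat.den_nz _⟩⟩

theorem EE_odd (hO : Stmt_ODD) {g : Equiv.Perm V3} (hg : g ∈ SIsom3) {q : ℕ} (hq : q ∈ EE g) :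
    q.Prime ∧ Odd q := by
  unfold EE at hq
  rw [Finset.mem_biUnion] at hq
  obtain ⟨i, -, hi⟩ := hq
  rw [Finset.mem_biUnion] at hi
  obtain ⟨j, -, hj⟩ := hi
  obtain ⟨h1, h2, -⟩ := Nat.mem_primeFactors.1 hj
  have h3 := hO (lin g) (lin_orth' hg.1) i j
  exact ⟨h1, h3.of_dvd_nat h2⟩

theorem lin_mem (hO : Stmt_ODD) {g : Equiv.Perm V3} (hg : g ∈ SIsom3) {K : ℕ}
    (hK : ∀ q ∈ EE g, ¬ q ∣ K) (i j : Fin 3) : lin g i j ∈ RK (2 * K) := by
  change (lin g i j).den.Coprime (2 * K)
  refine Nat.coprime_of_dvd fun q hq h1 h2 => ?_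
  have h3 := mem_EE hq h1
  rcases (Nat.Prime.dvd_mul hq).1 h2 with h4 | h4
  · have h5 := (Nat.prime_dvd_prime_iff_eq hq Nat.prime_two).1 h4
    have h6 := (EE_odd hO hg h3).2
    rw [h5] at h6
    exact absurd h6 (by decide)
  · exact hK q h3 h4

theorem trn_mem {g : Equiv.Perm V3} {M : ℕ} (hM : mm g ∣ M) (K : ℕ) :
    Dv3 K 0 ((M : ℚ) • trn g) := by
  intro i
  rw [Dv_zero_iff]
  have h1 : (trn g i).den ∣ M :=
    (Finset.dvd_prod_of_mem (fun i : Fin 3 => (trn g i).den) (Finset.mem_univ i)).trans hM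
  obtain ⟨m, hm⟩ := h1
  have h2 : ((M : ℚ) • trn g) i = ((m : ℕ) : ℚ) * (((trn g i).num : ℤ) : ℚ) := by
    show (M : ℚ) * trn g i = _
    rw [← Rat.mul_den_eq_num (trn g i), hm]
    push_cast
    ring
  rw [h2]
  exact (RK K).mul_mem (RK_nat K m) (RK_int K _)

end INTM

open INTM in
theorem INT_thm : Stmt_INT := by
  intro hO a ha b hb c hc
  refine ⟨EE a ∪ EE b ∪ EE c, ?_, ((mm a * mm b * mm c : ℕ) : ℚ), ?_, ?_⟩
  · intro q hq
    rw [Finset.mem_union, Finset.mem_union] at hq
    rcases hq with (h | h) | h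
    · exact EE_odd hO ha h
    · exact EE_odd hO hb h
    · exact EE_odd hO hc h
  · exact Nat.cast_ne_zero.2 (Nat.mul_ne_zero (Nat.mul_ne_zero (mm_ne a) (mm_ne b)) (mm_ne c))
  · intro K _ hK f hf
    have hS : Subgroup.closure {a, b, c} ≤ SIsom3 := by
      rw [Subgroup.closure_le]
      rintro x (rfl | rfl | rfl)
      · exact ha
      · exact hb
      · exact hc
    induction hf using Subgroup.closure_induction with
    | mem x hx =>
      rcases hx with rfl | rfl | rfl
      · exact ⟨lin_mem hO ha fun q hq => hK q (by simp [hq]),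
          trn_mem ⟨mm b * mm c, by ring⟩ _⟩
      · exact ⟨lin_mem hO hb fun q hq => hK q (by simp [hq]),
          trn_mem ⟨mm a * mm c, by ring⟩ _⟩
      · exact ⟨lin_mem hO hc fun q hq => hK q (by simp [hq]),
          trn_mem ⟨mm a * mm b, by ring⟩ _⟩
    | one =>
      refine ⟨fun i j => ?_, ?_⟩
      · rw [lin_one, Matrix.one_apply]
        split_ifs
        · exact (RK (2 * K)).one_mem
        · exact (RK (2 * K)).zero_mem
      · rw [trn_one, smul_zero]
        exact Dv3.zero _ _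
    | mul x y hx hy px py =>
      have hx' := (hS hx).1
      have hy' := (hS hy).1
      refine ⟨fun i j => ?_, ?_⟩
      · rw [lin_mul hx' hy', Matrix.mul_apply]
        exact (RK (2 * K)).sum_mem fun k _ => (RK (2 * K)).mul_mem (px.1 i k) (py.1 k j)
      · rw [trn_mul hx', smul_add, ← Matrix.mulVec_smul]
        exact (Dv3.mulVec px.1 py.2).add px.2
    | inv x hx px =>
      have hx' := (hS hx).1
      refine ⟨fun i j => ?_, ?_⟩
      · rw [lin_inv hx']
        exact px.1 j i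
      · rw [trn_inv hx', smul_neg, ← Matrix.mulVec_smul]
        exact (Dv3.mulVec (fun i j => px.1 j i) px.2).neg

end Pool.Agent.UVR
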