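import Pool.Agent.UVR.Basic

/-!
# Rare fixed points in every free group of isometries of `ℚ³`: dual quaternions
-/

set_option autoImplicit false

namespace Pool.Agent.UVR

open Matrix Quaternion

theorem cross0 (x y : V3) : crossProduct x y 0 = x 1 * y 2 - x 2 * y 1 := by
  simp [cross_apply]

theorem cross1 (x y : V3) : crossProduct x y 1 = x 2 * y 0 - x 0 * y 2 := by
  simp [cross_apply]

theorem cross2 (x y : V3) : crossProduct x y 2 = x 0 * y 1 - x 1 * y 0 := by
  simp [cross_apply]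

@[simp] theorem vq_re (x : V3) : (vq x).re = 0 := rfl

@[simp] theorem vq_imI (x : V3) : (vq x).imI = x 0 := rfl

@[simp] theorem vq_imJ (x : V3) : (vq x).imJ = x 1 := rfl

@[simp] theorem vq_imK (x : V3) : (vq x).imK = x 2 := rfl

@[simp] theorem qv_zero' (q : ℍ[ℚ]) : qv q 0 = q.imI := rfl

@[simp] theorem qv_one' (q : ℍ[ℚ]) : qv q 1 = q.imJ := rfl

@[simp] theorem qv_two' (q : ℍ[ℚ]) : qv q 2 = q.imK := rfl

theorem vq_add (x y : V3) : vq (x + y) = vq x + vq y := by
  ext <;> simp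

theorem vq_smul (c : ℚ) (x : V3) : vq (c • x) = c • vq x := by
  ext <;> simp

theorem vq_zero : vq 0 = 0 := by
  ext <;> simp

theorem vq_mul (x y : V3) : vq x * vq y = ((-(x ⬝ᵥ y) : ℚ) : ℍ[ℚ]) + vq (crossProduct x y) := by
  ext <;> simp [cross_apply, dotProduct, Fin.sum_univ_three] <;> ring

theorem star_vq (x : V3) : star (vq x) = -vq x := by
  ext <;> simp

theorem qv_vq (x : V3) : qv (vq x) = x := by
  funext i
  fin_cases i <;> rfl

theorem quat_eq (q : ℍ[ℚ]) : q = ((q.re : ℚ) : ℍ[ℚ]) + vq (qv q) := by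
  ext <;> simp

theorem vq_inj {x y : V3} (h : vq x = vq y) : x = y := by
  rw [← qv_vq x, h, qv_vq]

theorem Rep.mul {μ : ℚ} {P Q : DH} {f g : Equiv.Perm V3} (hP : Rep μ P f) (hQ : Rep μ Q g) :
    Rep μ (P * Q) (f * g) := by
  refine ⟨?_, fun x => ?_⟩
  · rw [TrivSqZeroExt.fst_mul]
    exact mul_ne_zero hP.1 hQ.1
  · rw [DualNumber.snd_mul, TrivSqZeroExt.fst_mul, hP.2 (g x), hQ.2 x, Equiv.Perm.mul_apply]
    simp only [mul_smul_comm, smul_mul_assoc, mul_sub, sub_mul, smul_sub]
    simp only [mul_assoc]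
    abel

theorem Rep.one (μ : ℚ) : Rep μ 1 1 := by
  refine ⟨?_, fun x => ?_⟩
  · rw [TrivSqZeroExt.fst_one]
    exact one_ne_zero
  · simp

theorem Rep.smul {μ c : ℚ} (hc : c ≠ 0) {P : DH} {f : Equiv.Perm V3} (hP : Rep μ P f) :
    Rep μ (c • P) f := by
  refine ⟨?_, fun x => ?_⟩
  · rw [TrivSqZeroExt.fst_smul]
    exact smul_ne_zero hc hP.1
  · rw [TrivSqZeroExt.snd_smul, TrivSqZeroExt.fst_smul, hP.2 x]
    simp only [mul_smul_comm, smul_mul_assoc, ← smul_sub]
    rw [smul_comm]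

/-- The Study condition. -/
theorem Rep.study {μ : ℚ} {P : DH} {f : Equiv.Perm V3} (hP : Rep μ P f) :
    P.fst.re * P.snd.re + kap (vec P) = 0 := by
  have h := hP.2 0
  rw [vq_zero, mul_zero, sub_zero] at h
  rw [h]
  simp [kap, vec, dotProduct, Fin.sum_univ_three, h]
  ring

theorem Rep.fixed {μ : ℚ} {P : DH} {f : Equiv.Perm V3} (hP : Rep μ P f) {x : V3} (hx : f x = x) :
    P.snd.re = 0 := by
  rw [hP.2 x, hx]
  simp
  right
  ring

theorem Rep.kap_eq {μ : ℚ} {P : DH} {f : Equiv.Perm V3} (hP : Rep μ P f) {x : V3} (hx : f x = x) :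
    kap (vec P) = 0 := by
  have h := hP.study
  rwa [hP.fixed hx, mul_zero, zero_add] at h

theorem star_mul_re {μ : ℚ} {P : DH} {f : Equiv.Perm V3} (hP : Rep μ P f) :
    star P.fst * P.snd = -(star P.snd * P.fst) := by
  have h := hP.2 0
  rw [vq_zero, mul_zero, sub_zero] at h
  rw [h, Quaternion.star_smul, star_mul, star_vq]
  simp only [mul_smul_comm, smul_mul_assoc, mul_assoc, mul_neg, neg_mul, smul_neg, neg_neg]

theorem Rep.inv {μ : ℚ} {P : DH} {f : Equiv.Perm V3} (hP : Rep μ P f) :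
    Rep μ (cj P) f⁻¹ := by
  have hn : normSq P.fst ≠ 0 := by
    rw [Ne, normSq_eq_zero]
    exact hP.1
  refine ⟨?_, fun x => ?_⟩
  · change star P.fst ≠ 0
    exact star_ne_zero.2 hP.1
  · change star P.snd = μ • (vq (f⁻¹ x) * star P.fst - star P.fst * vq x)
    have h1 := hP.2 (f⁻¹ x)
    have h2 : f (f⁻¹ x) = x := f.apply_symm_apply x
    rw [h2] at h1
    have h3 : star P.fst * P.snd * star P.fst = -((normSq P.fst) • star P.snd) := by
      rw [star_mul_re hP, neg_mul, mul_assoc, Quaternion.self_mul_star]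
      rw [← Quaternion.coe_mul_eq_smul, Quaternion.coe_commutes]
    have h4 : star P.fst * P.snd * star P.fst =
        μ • ((normSq P.fst) • (star P.fst * vq x) - (normSq P.fst) • (vq (f⁻¹ x) * star P.fst)) := by
      rw [h1]
      simp only [mul_smul_comm, smul_mul_assoc, mul_sub, sub_mul]
      congr 2
      · rw [← mul_assoc, mul_assoc (star P.fst * vq x), Quaternion.self_mul_star,
          ← Quaternion.coe_mul_eq_smul, Quaternion.coe_commutes]
      · rw [← mul_assoc, Quaternion.star_mul_self, ← Quaternion.coe_mul_eq_smul, mul_assoc]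
    rw [h3] at h4
    have h5 : (normSq P.fst) • star P.snd =
        (normSq P.fst) • (μ • (vq (f⁻¹ x) * star P.fst - star P.fst * vq x)) := by
      rw [← neg_inj, h4]
      simp only [smul_sub, smul_comm (normSq P.fst) μ]
      abel
    exact smul_right_injective _ hn h5

/-- The conjugate of a product of conjugates. -/
theorem cj_mul (P Q : DH) : cj (P * Q) = cj Q * cj P := by
  ext1
  · change star (P * Q).fst = _
    rw [TrivSqZeroExt.fst_mul, star_mul, TrivSqZeroExt.fst_mul]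
    rfl
  · change star (P * Q).snd = _
    rw [DualNumber.snd_mul, star_add, star_mul, star_mul, DualNumber.snd_mul, add_comm]
    rfl

theorem cj_smul (c : ℚ) (P : DH) : cj (c • P) = c • cj P := by
  ext1
  · change star (c • P.fst) = c • star P.fst
    rw [Quaternion.star_smul]
  · change star (c • P.snd) = c • star P.snd
    rw [Quaternion.star_smul]

theorem cj_add (P Q : DH) : cj (P + Q) = cj P + cj Q := by
  ext1
  · exact star_add P.fst Q.fst
  · exact star_add P.snd Q.snd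

theorem cj_one : cj 1 = 1 := by
  ext1
  · exact star_one _
  · exact star_zero _

theorem nrm_fst (X : V6) : (nrm X).fst = 1 + vq X.1 := rfl

theorem nrm_snd (X : V6) : (nrm X).snd = ((-kap X : ℚ) : ℍ[ℚ]) + vq X.2 := rfl

theorem nrm_fst_ne (X : V6) : (nrm X).fst ≠ 0 := by
  intro h
  have h1 := congrArg (fun q : ℍ[ℚ] => q.re) h
  rw [nrm_fst] at h1
  simp at h1

theorem vec_nrm (X : V6) : vec (nrm X) = X := by
  ext i
  · change qv (nrm X).fst i = X.1 i
    rw [nrm_fst]
    fin_cases i <;> simp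
  · change qv (nrm X).snd i = X.2 i
    rw [nrm_snd]
    fin_cases i <;> simp

/-- The representation in terms of vectors. -/
theorem rep_nrm_iff {μ : ℚ} {X : V6} {y : Equiv.Perm V3} :
    Rep μ (nrm X) y ↔ ∀ z, kap X = μ * (y z ⬝ᵥ X.1 - X.1 ⬝ᵥ z) ∧
      X.2 = μ • (y z + crossProduct (y z) X.1 - z - crossProduct X.1 z) := by
  have key : ∀ z, (nrm X).snd = μ • (vq (y z) * (nrm X).fst - (nrm X).fst * vq z) ↔
      kap X = μ * (y z ⬝ᵥ X.1 - X.1 ⬝ᵥ z) ∧
      X.2 = μ • (y z + crossProduct (y z) X.1 - z - crossProduct X.1 z) := by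
    intro z
    have h1 : μ • (vq (y z) * (nrm X).fst - (nrm X).fst * vq z) =
        ((-(μ * (y z ⬝ᵥ X.1 - X.1 ⬝ᵥ z)) : ℚ) : ℍ[ℚ]) +
          vq (μ • (y z + crossProduct (y z) X.1 - z - crossProduct X.1 z)) := by
      rw [nrm_fst]
      ext <;> simp [cross0, cross1, cross2, dotProduct, Fin.sum_univ_three] <;> ring_nf <;> simp
    rw [h1, nrm_snd]
    constructor
    · intro h
      have hr := congrArg (fun q : ℍ[ℚ] => q.re) h
      have hv := congrArg qv h
      have e : ∀ (c : ℚ) (x : V3), qv ((c : ℍ[ℚ]) + vq x) = x := by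
        intro c x
        funext i
        fin_cases i <;> simp
      rw [e, e] at hv
      simp only [Quaternion.re_add, vq_re, add_zero] at hr
      exact ⟨neg_injective hr, hv⟩
    · rintro ⟨h2, h3⟩
      rw [← h2, ← h3]
  constructor
  · intro h z
    exact (key z).1 (h.2 z)
  · intro h
    exact ⟨nrm_fst_ne X, fun z => (key z).2 (h z)⟩

theorem kap_Ad {μ : ℚ} {f : Equiv.Perm V3} (hf : f ∈ SIsom3) (X : V6) :
    kap (Ad μ f X) = kap X := by
  unfold kap Ad
  simp only
  rw [dotProduct_add, dotProduct_smul, dot_cross_self, smul_zero, add_zero,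
    rot_dot (lin_orth hf.1)]

/-- The adjoint action represents the conjugate. -/
theorem Rep.conj {μ : ℚ} {f y : Equiv.Perm V3} (hf : f ∈ SIsom3) {X : V6}
    (hy : Rep μ (nrm X) y) : Rep μ (nrm (Ad μ f X)) (f * y * f⁻¹) := by
  rw [rep_nrm_iff] at hy ⊢
  intro x
  obtain ⟨h1, h2⟩ := hy (f⁻¹ x)
  set z := f⁻¹ x with hz
  have hx : x = lin f *ᵥ z + trn f := by
    rw [← apply_eq hf.1, hz]
    exact (f.apply_symm_apply x).symm
  have hg : (f * y * f⁻¹) x = lin f *ᵥ (y z) + trn f := by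
    rw [Equiv.Perm.mul_apply, Equiv.Perm.mul_apply, apply_eq hf.1]
  have ho := lin_orth hf.1
  have hc : ∀ u v, crossProduct (lin f *ᵥ u) (lin f *ᵥ v) = lin f *ᵥ crossProduct u v :=
    rot_cross ho hf.2
  rw [hg, kap_Ad hf, h1]
  constructor
  · rw [hx]
    simp only [Ad, add_dotProduct, dotProduct_add, rot_dot ho]
    rw [dotProduct_comm (trn f)]
    ring
  · rw [hx]
    simp only [Ad]
    rw [h2, Matrix.mulVec_smul, Matrix.mulVec_sub, Matrix.mulVec_sub, Matrix.mulVec_add,
      map_add, LinearMap.add_apply, hc, map_add, hc, ← cross_anticomm (lin f *ᵥ X.1) (trn f)]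
    module

end Pool.Agent.UVR
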