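import Pool.Agent.UVR.RepFacts

/-!
# Rare fixed points in every free group of isometries of `ℚ³`: statements and proofs

THEOREM.  Let `F` be a free non-abelian subgroup of `Isom(ℚ³)`.  Equivalent: (1) `F` has no common
fixed point; (2) some element of `F` has no fixed point; (3) there is a finite set `E` of odd primes
such that for every `K ≥ 1` prime to `E` there are `u, v ∈ F` with `u v ≠ v u` such that every
element of `H = ⟨u, v⟩` with a fixed point lies in `[[H, H], H] H^K`.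

Method.  An isometry `f x = A x + b`, `det A = 1`, is represented by dual quaternions `P = p + ε r`
(`Rep μ P f`, `μ` a scale).  If `f` has a fixed point then `κ(vec P) = 0` (`Rep.kap_eq`), `κ` the
Klein form.  `nrm X = 1 + X - ε κ(X)` is the representation with `p.re = 1` and vector part `X`.
Working modulo powers of `K` at all primes dividing `K` at once: for `y ∈ F` close to `1` the
vectors `Ad(f) X(y)` span `ℚ⁶` (SPA; here the absence of a common fixed point is used), so `F`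
contains `u, v` with `X(u) = K^j U`, `X(v) = K^j V`, where `U, V` are given modulo `K²` (TAR).
For `w ∈ ⟨u, v⟩`, `w ≡ u^a v^b [u, v]^t` modulo `γ₃`, the vector part is
`K^j (a U + b V) + K^(2j) (a b + 2 t) U × V + K^(3j) (..)` (MAG).  `U, V` are chosen such that
`κ(a U + b V)` is an anisotropic binary form modulo all primes `q | K` and `κ(U × V)` is divisible
by `q` but not by `q²`; then `κ = 0` forces `K | a, b, t` (ARK).

One module for each `Stmt_...`; a module may use all the facts of `Basic.lean`, `RepFacts.lean` and,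
as hypotheses, the statements which it names (`theorem XXX_thm : Stmt_A → Stmt_B → Stmt_XXX`, or
inside the statement).  `crossProduct` components: `cross0`, `cross1`, `cross2`.
-/

set_option autoImplicit false

namespace Pool.Agent.UVR

open Matrix Quaternion

/-! ### A. Rational numbers with denominators prime to `K` -/

/-- RKA.  (1) Write `x = 1 + K z`; `x ≠ 0` as otherwise `K z = -1`, with `z = n/d`, `K n = -d`,
`K ∣ d`, against `d` prime to `K ≥ 2`.  `x⁻¹`: `x d' = n'` (`RK_spec`), `z e = m` with `e` prime to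
`K`: `x e = e + K m`, so `x⁻¹ (e + K m) = e` and `e + K m` is prime to `K` (`RK_of_mul`).
(2) `c d = a` with `d` prime to `K ^ N`; take a natural `n ≡ a d⁻¹` modulo `K ^ N` (Bezout:
`d s + K ^ N r = 1`, `n = a s + k K ^ N ≥ 0` for large `k`); then `(c - n) d = a - n d` is divisible
by `K ^ N`.
(3) `den x = d₁ d₂` with `d₁ ∣ K ^ G`, `d₂` prime to `K` (strong induction on the denominator: if
`g = gcd(d, K) > 1` then `d = g d'`, `d' < d`). -/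
def Stmt_RKA : Prop := ∀ K : ℕ, 2 ≤ K →
  (∀ x : ℚ, Dv K 1 (x - 1) → x ≠ 0 ∧ x⁻¹ ∈ RK K) ∧
  (∀ c ∈ RK K, ∀ N : ℕ, ∃ n : ℕ, Dv K N (c - n)) ∧
  (∀ x : ℚ, ∃ G : ℕ, (K : ℚ) ^ G * x ∈ RK K)

/-- NRM.  `P = p + ε r`, `α = p.re`.  `α⁻¹ P` represents `f` (`Rep.smul`), its first part is
`1 + vq (α⁻¹ ω)`, its second part has vector part `α⁻¹ s` and real part `α⁻¹ r.re`, and by
`Rep.study` `α r.re = -κ(vec P)`, so `α⁻¹ r.re = -κ(α⁻¹ vec P)`: it is `nrm (α⁻¹ vec P)`. -/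
def Stmt_NRM : Prop := ∀ (μ : ℚ) (P : DH) (f : Equiv.Perm V3), Rep μ P f → P.fst.re ≠ 0 →
  Rep μ (nrm ((P.fst.re)⁻¹ • vec P)) f

/-! ### B. The vectors `Ad(f) X` span -/

/-- IRR.  `W` is invariant under `d × ·`, `d = m × n`, as `d × w = m × (n × w) - n × (m × w)`, hence
under `x × ·` for all `x`, since `|d|² x = ⟨x, n × d⟩ m + ⟨x, d × m⟩ n + ⟨x, d⟩ d` and `|d|² ≠ 0`
(rational squares).  For `0 ≠ w ∈ W` and any `z`: `|w|² z = ⟨w, z⟩ w + (w × z) × w ∈ W`. -/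
def Stmt_IRR : Prop := ∀ (W : Submodule ℚ V3) (m n : V3), crossProduct m n ≠ 0 →
  (∀ w ∈ W, crossProduct m w ∈ W) → (∀ w ∈ W, crossProduct n w ∈ W) → (∃ w ∈ W, w ≠ 0) → W = ⊤

/-- The axis vector of the linear part `A`: `(A - Aᵀ) w = axis × w`. -/
def axis (f : Equiv.Perm V3) : V3 :=
  ![lin f 2 1 - lin f 1 2, lin f 0 2 - lin f 2 0, lin f 1 0 - lin f 0 1]

/-- SPA (from IRR).  Let `W` be the span; it is invariant under `Ad μ g` for all `g ∈ ⟨a, b, c⟩`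
(`Ad (g f) = Ad g ∘ Ad f` by `lin_mul`, `trn_mul`, `rot_cross`; `Ad` is linear).
(i) The projection `W₁ = {ω | ∃ s, (ω, s) ∈ W}` is a subspace, not zero (`X.1`), invariant under
`A, Aᵀ` for `A = lin a, lin b` (`lin_inv`), so under `(A - Aᵀ) = axis × ·`; by IRR `W₁ = ⊤`.
(ii) `W₀ = {s | (0, s) ∈ W}` is invariant under the same maps (`Ad (0, s) = (0, A s)`), so it is
`⊤` or `⊥`.  (iii) If `W₀ = ⊤` then `W = ⊤`.
(iv) If `W₀ = ⊥`: for `i = 0, 1, 2` choose `s i` with `(e_i, s i) ∈ W`; let `T` be the matrix with the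
columns `s i`.  For `g ∈ {a, b, c}` with `A = lin g`, `b = trn g`: `Ad (e_i, s i) =
(A e_i, A s i + 2μ b × A e_i) ∈ W` and `(A e_i, T A e_i) = ∑ k A k i (e_k, s k) ∈ W`, so the difference
gives `T A e_i = A T e_i + 2μ b × A e_i`, for all `i`; hence `T = A T Aᵀ + 2μ [b]`, `[b] x = b × x`.
Take the antisymmetric parts: let `σ` be the vector with `T - Tᵀ = [σ]`; `A [σ] Aᵀ = [A σ]`
(`rot_cross`), `[b]ᵀ = -[b]`, so `σ = A σ + 4μ b`, i.e. `x = σ / (4μ)` satisfies `A x + b = x`: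
a common fixed point of `a, b, c`.  Contradiction. -/
def Stmt_SPA : Prop := Stmt_IRR → ∀ μ : ℚ, μ ≠ 0 → ∀ a ∈ SIsom3, ∀ b ∈ SIsom3, ∀ c ∈ SIsom3,
  crossProduct (axis a) (axis b) ≠ 0 → (¬ ∃ x : V3, a x = x ∧ b x = x ∧ c x = x) →
  ∀ X : V6, X.1 ≠ 0 →
  Submodule.span ℚ {Y : V6 | ∃ f ∈ Subgroup.closure {a, b, c}, Y = Ad μ f X} = ⊤

/-! ### C. Elements close to one -/

/-- LOC.  The integral affine maps modulo `K ^ h` are finite in number: let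
`φ n = ` the classes of the 9 entries of `lin (x ^ n)` and the 3 entries of `μ • trn (x ^ n)` modulo
`K ^ h` (the class of `c = num / den`: `(num : ZMod (K ^ h)) * (den : ZMod (K ^ h))⁻¹`, where `den` is
a unit; equal classes give `Dv K h` of the difference).  By the pigeonhole principle
(`Finite.exists_ne_map_eq_of_infinite`) there are `m < m'` with `φ m = φ m'`; let `n = m' - m`.
`lin (x ^ m') = lin (x ^ m) * lin (x ^ n)`, so with `A = lin (x ^ m)`,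
`lin (x ^ n) - 1 = Aᵀ (lin (x ^ m') - lin (x ^ m))`, and
`trn (x ^ m') = A trn (x ^ n) + trn (x ^ m)`, so `trn (x ^ n) = Aᵀ (trn (x ^ m') - trn (x ^ m))`. -/
def Stmt_LOC : Prop := ∀ (K h : ℕ) (μ : ℚ), 2 ≤ K → ∀ x ∈ SIsom3,
  (∀ n : ℕ, (∀ i j, lin (x ^ n) i j ∈ RK K) ∧ Dv3 K 0 (μ • trn (x ^ n))) →
  ∃ n : ℕ, 1 ≤ n ∧ (∀ i j, Dv K h ((lin (x ^ n) - 1) i j)) ∧ Dv3 K h (μ • trn (x ^ n))

/-- The normalised dual vector of an isometry. -/
def gib (μ : ℚ) (f : Equiv.Perm V3) : V6 :=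
  ((1 + (lin f).trace)⁻¹ • axis f,
    μ • (trn f + crossProduct (trn f) ((1 + (lin f).trace)⁻¹ • axis f)))

/-- GIB.  Existence of the normalised representation.  By `rep_nrm_iff`, with `A = lin f`,
`b = trn f`, `n = axis f`, `ω = n / (1 + t)`, `t = trace A`, `f z = A z + b`: the first condition is
`κ = ⟨ω, μ (b + b × ω)⟩ = μ ⟨ω, b⟩` and `⟨A z + b, ω⟩ - ⟨ω, z⟩ = ⟨b, ω⟩` as `Aᵀ ω = ω`, i.e.
`A n = n`.  The second is `A z + b + (A z + b) × ω - z - ω × z = b + b × ω`, i.e.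
`(1 + t) (A - 1) z = n × (z + A z)`, i.e. `(1 + t) (A - 1) = (A - Aᵀ) (1 + A)`, which is `rot_ch`:
`A² - t A + t = Aᵀ` (and `Aᵀ A = 1`).  `A n = n` follows from `(A - Aᵀ) n = n × n = 0` and the same
formula applied to `z = n`:  `(1 + t)(A - 1) n = n × (n + A n) = n × A n`; and
`(A - Aᵀ) n = 0` gives `A n = Aᵀ n`, `A² n = n`; directly: `A [n] Aᵀ = [A n]` (`rot_cross`) and
`A (A - Aᵀ) Aᵀ = A - Aᵀ`. -/
def Stmt_GIB : Prop := ∀ (μ : ℚ), ∀ f ∈ SIsom3, 1 + (lin f).trace ≠ 0 → Rep μ (nrm (gib μ f)) f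

/-- GIS.  Smallness.  `K` is even, `lin f = 1 + K ^ (h + 2) (..)`: `axis f ∈ K ^ (h + 2)`,
`1 + t = 4 + K ^ (h + 2) (..) = 4 (1 + K ^ h (K / 2)² (..))`, so by RKA `1 + t ≠ 0` and
`(1 + t)⁻¹ axis f = K ^ h (K / 2)² (..)`, the second part is clear.
If `axis f = 0` then `A = Aᵀ` (`A = lin f`), and `rot_ch` gives (with `A A = A Aᵀ = 1`)
`(1 + t) A = (1 + t) 1`, so `A = 1`. -/
def Stmt_GIS : Prop := Stmt_RKA → ∀ (K h : ℕ) (μ : ℚ), 2 ≤ K → Even K → 1 ≤ h → ∀ f ∈ SIsom3,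
  (∀ i j, Dv K (h + 2) ((lin f - 1) i j)) → Dv3 K h (μ • trn f) →
  1 + (lin f).trace ≠ 0 ∧ Dv6 K h (gib μ f) ∧ (lin f ≠ 1 → (gib μ f).1 ≠ 0)

/-- POW (from RKA, NRM).  Powers.  It suffices to treat one `K`-th power (`l = 1`; then iterate, with
`X` replaced by `K ^ l • dsm ρ X`, which is in `Dv6 K (t + l)`; the `ρ` multiply as dual numbers,
`dsm ρ (dsm ρ' X) = dsm (ρ.1 ρ'.1, ρ.1 ρ'.2 + ρ.2 ρ'.1) X`).
`X = (ω, s)` as element of `DH`: `Y = (vq ω, vq s)`; `Y² = -N` with the dual number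
`N = (|ω|², 2 ⟨ω, s⟩)`, components in `K ^ (2 t)`.  `nrm X = σ + Y`, `σ = 1 - ε κ(X)`.
By induction `(nrm X) ^ n = A_n + B_n Y` with dual numbers `A_{n+1} = σ A_n - N B_n`,
`B_{n+1} = A_n + σ B_n` (`A_0 = 1`, `B_0 = 0`), and `A_n - 1`, `B_n - n` have components in
`K ^ (2 t)`.  For `n = K`: `B_K = K (1 + K ^ (2 t - 1) (..))`, `α = (A_K).1 = 1 + K ^ (2 t) (..)` is
invertible by RKA, `vec ((nrm X) ^ K) = B_K X`, so by NRM `y ^ K` has the normalised vector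
`α⁻¹ B_K X = K ρ X`, `ρ = α⁻¹ B_K / K`, `ρ.1 - 1 ∈ K`, `ρ.2 ∈ K ^ 0`. -/
def Stmt_POW : Prop := Stmt_RKA → Stmt_NRM → ∀ (K t : ℕ) (μ : ℚ), 2 ≤ K → 1 ≤ t →
  ∀ (y : Equiv.Perm V3) (X : V6), Dv6 K t X → Rep μ (nrm X) y → ∀ l : ℕ,
  ∃ ρ : ℚ × ℚ, Dv K 1 (ρ.1 - 1) ∧ ρ.2 ∈ RK K ∧
    Rep μ (nrm ((K : ℚ) ^ l • dsm ρ X)) (y ^ K ^ l)

/-! ### D. Elements with prescribed vectors -/

/-- LAT (from RKA).  Every one of the six unit vectors `e` of `V6` is a rational combination of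
finitely many `Ad μ f X`, `f ∈ F` (span `= ⊤`; e.g. `Submodule.mem_span_set` or
`Finsupp.mem_span_iff_linearCombination`); collect all the `f` in one family `f : Fin n → F`;
by RKA (3) `K ^ G` times all the coefficients are in `RK K` for a large `G`; a general
`T ∈ Dv6 K 0` is a combination of the unit vectors with coefficients in `RK K`. -/
def Stmt_LAT : Prop := Stmt_RKA → ∀ (K : ℕ) (μ : ℚ), 2 ≤ K → ∀ (F : Subgroup (Equiv.Perm V3))
  (X : V6), Submodule.span ℚ {Y : V6 | ∃ f ∈ F, Y = Ad μ f X} = ⊤ →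
  ∃ (n G : ℕ) (f : Fin n → Equiv.Perm V3), (∀ i, f i ∈ F) ∧ ∀ T : V6, Dv6 K 0 T →
    ∃ c : Fin n → ℚ, (∀ i, c i ∈ RK K) ∧ (K : ℚ) ^ G • T = ∑ i, c i • Ad μ (f i) X

/-- PRD (from RKA, NRM).  Products.  Two factors: for `X, Y ∈ Dv6 K s` with
`Rep μ (nrm X) g`, `Rep μ (nrm Y) h` the product `P = nrm X * nrm Y` has `P.fst.re =
1 - ⟨X.1, Y.1⟩ = 1 + K ^ (2 s) (..)` and `vec P = X + Y + K ^ (2 s) (..)`; by NRM, RKA `g h` has the
normalised vector `Z = (P.fst.re)⁻¹ vec P`, `Z - X - Y ∈ Dv6 K (2 s)`.  (`κ(X) ∈ K ^ (2 s)`.)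
Powers `g ^ m` by induction on `m` (`m = 0`: `nrm 0 = 1`), then the list by induction; always the
vector of the product so far is in `Dv6 K s`. -/
def Stmt_PRD : Prop := Stmt_RKA → Stmt_NRM → ∀ (K s : ℕ) (μ : ℚ), 2 ≤ K → 1 ≤ s →
  ∀ L : List (Equiv.Perm V3 × V6 × ℕ), (∀ q ∈ L, Dv6 K s q.2.1 ∧ Rep μ (nrm q.2.1) q.1) →
  ∃ Z : V6, Rep μ (nrm Z) (L.map fun q => q.1 ^ q.2.2).prod ∧
    Dv6 K (2 * s) (Z - (L.map fun q => (q.2.2 : ℚ) • q.2.1).sum)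

/-- TAR (from RKA, POW, LAT, PRD; `Rep.conj`).  Let `n, G, f` be as in LAT for `X`.  Let
`l ≥ G + 2`, `l ≥ j₀`, `j = l + G`, `y' = y ^ K ^ l` with the normalised vector
`X' = K ^ l • dsm ρ X` (POW).  `f i y' (f i)⁻¹` has the normalised vector `Ad μ (f i) X' =
K ^ l • dsm ρ (Ad μ (f i) X)` (`Rep.conj`; `Ad` commutes with `dsm` and scalars), in
`Dv6 K (t + l)` as `Ad` preserves divisibility.  Let `ρ'` be the inverse of the dual number `ρ`:
`ρ' = (1/ρ.1, -ρ.2/ρ.1²)`, integral by RKA (1), `dsm ρ (dsm ρ' U) = U`.  By LAT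
`K ^ G • dsm ρ' U = ∑ c i • Ad μ (f i) X`; let `m i` be natural numbers with
`c i - m i ∈ K ^ (G + 2)` (RKA (2)).  PRD with the list of the triples
`(f i y' (f i)⁻¹, Ad μ (f i) X', m i)`, `s = t + l`: the product `u` has the normalised vector
`Z ≡ ∑ m i • K ^ l • dsm ρ (Ad μ (f i) X)` modulo `K ^ (2 t + 2 l)`, which is
`K ^ (l + G) • U` modulo `K ^ (l + G + 2)`.  As `2 t + 2 l ≥ l + G + 2`, `Z = K ^ j • U'` with
`U' - U ∈ Dv6 K 2`.  The same `l` serves for `V`. -/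
def Stmt_TAR : Prop := Stmt_RKA → Stmt_POW → Stmt_LAT → Stmt_PRD → Stmt_NRM →
  ∀ (K t : ℕ) (μ : ℚ), 2 ≤ K → 1 ≤ t → ∀ F : Subgroup (Equiv.Perm V3), F ≤ SIsom3 →
  (∀ f ∈ F, (∀ i j, lin f i j ∈ RK K) ∧ Dv3 K 0 (μ • trn f)) → ∀ y ∈ F, ∀ X : V6, Dv6 K t X →
  Rep μ (nrm X) y → Submodule.span ℚ {Y : V6 | ∃ f ∈ F, Y = Ad μ f X} = ⊤ →
  ∀ U V : V6, Dv6 K 0 U → Dv6 K 0 V → ∀ j0 : ℕ, ∃ j : ℕ, j0 ≤ j ∧ ∃ u ∈ F, ∃ v ∈ F, ∃ U' V' : V6,
    Dv6 K 2 (U' - U) ∧ Dv6 K 2 (V' - V) ∧ Rep μ (nrm ((K : ℚ) ^ j • U')) u ∧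
    Rep μ (nrm ((K : ℚ) ^ j • V')) v

/-! ### E. The second order expansion -/

/-- GRP.  Groups.  `z = [u, v]` commutes with `u, v` modulo `C = [[H, H], H]` (`C` is normal in `H`).
Work in the quotient of `H` (or `⁅⁅⊤, ⊤⁆, ⊤⁆` of the group `↥H`, with `Subgroup.map_commutator`),
where `z` is central, `v u = z⁻¹ u v`, so `v ^ b * u ^ a = z ^ (-(a b)) * u ^ a * v ^ b` for all
integers: (1) and (2).  (3): in the quotient by `C H^K`, `K` divides `a, b, t`. -/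
def Stmt_GRP : Prop := ∀ (G : Type) [Group G] (u v : G) (H : Subgroup G),
  H = Subgroup.closure {u, v} →
  (∀ (g g' : G) (a b t a' b' t' : ℤ), g ∈ H → g' ∈ H →
    (u ^ a * v ^ b * (u * v * u⁻¹ * v⁻¹) ^ t)⁻¹ * g ∈ ⁅⁅H, H⁆, H⁆ →
    (u ^ a' * v ^ b' * (u * v * u⁻¹ * v⁻¹) ^ t')⁻¹ * g' ∈ ⁅⁅H, H⁆, H⁆ →
    (u ^ (a + a') * v ^ (b + b') * (u * v * u⁻¹ * v⁻¹) ^ (t + t' - b * a'))⁻¹ * (g * g') ∈ ⁅⁅H, H⁆, H⁆) ∧
  (∀ (g : G) (a b t : ℤ), g ∈ H → (u ^ a * v ^ b * (u * v * u⁻¹ * v⁻¹) ^ t)⁻¹ * g ∈ ⁅⁅H, H⁆, H⁆ →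
    (u ^ (-a) * v ^ (-b) * (u * v * u⁻¹ * v⁻¹) ^ (-t - a * b))⁻¹ * g⁻¹ ∈ ⁅⁅H, H⁆, H⁆) ∧
  (∀ (K : ℕ) (g : G) (a b t : ℤ), (K : ℤ) ∣ a → (K : ℤ) ∣ b → (K : ℤ) ∣ t →
    (u ^ a * v ^ b * (u * v * u⁻¹ * v⁻¹) ^ t)⁻¹ * g ∈ ⁅⁅H, H⁆, H⁆ →
    g ∈ ⁅⁅H, H⁆, H⁆ ⊔ Subgroup.closure {x | ∃ h ∈ H, x = h ^ K})

/-- MAG (from GRP).  Call `P` of type `(a, b, t)` if
`P = 1 + K^j (a U + b V) + K^(2j) ((a b + 2 t) U × V + σ) + K^(3j) E`, with `U`, `V`, `U × V` as pure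
dual quaternions `(vq ω, vq s)`, `σ` a dual number (real parts only, in `RK K`) and `E` in `DvH K 0`.
`nrm (K^j U) = 1 + K^j U - ε K^(2j) κ(U)` is of type `(1, 0, 0)`, the one of `v` of type `(0, 1, 0)`.
The product of two of types `(a, b, t)`, `(a', b', t')` is of type
`(a + a', b + b', t + t' - b a')`: the terms of second order are
`(a U + b V)(a' U + b' V) = (a b' - b a') U × V + ` dual number (products of pure dual quaternions:
`X Y = -⟨X, Y⟩ + X × Y`, `vq_mul`), and `(a + a')(b + b') + 2 (t + t' - b a') = (a b + 2 t) +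
(a' b' + 2 t') + (a b' - b a')`.  The conjugate `cj P` of type `(a, b, t)` is of type
`(-a, -b, -t - a b)`: `cj` changes the sign of the pure part, and
`(-a)(-b) + 2 (-t - a b) = -(a b + 2 t)`.  `Subgroup.closure_induction` with `Rep.mul`, `Rep.inv`,
`Rep.one`, GRP (1), (2) gives for every `g ∈ ⟨u, v⟩` a representation `P` of a type `(a, b, t)` with
the coset condition; `vec P` is the claim. -/
def Stmt_MAG : Prop := Stmt_GRP → ∀ (K j : ℕ) (μ : ℚ), 2 ≤ K → ∀ (u v : Equiv.Perm V3) (U V : V6),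
  Dv6 K 0 U → Dv6 K 0 V → Rep μ (nrm ((K : ℚ) ^ j • U)) u → Rep μ (nrm ((K : ℚ) ^ j • V)) v →
  ∀ H : Subgroup (Equiv.Perm V3), H = Subgroup.closure {u, v} → ∀ g ∈ H,
  ∃ (a b t : ℤ) (P : DH) (E : V6), Rep μ P g ∧ Dv6 K 0 E ∧
    vec P = (K : ℚ) ^ j • ((a : ℚ) • U + (b : ℚ) • V) +
      (K : ℚ) ^ (2 * j) • (((a * b + 2 * t : ℤ) : ℚ) • crs U V) + (K : ℚ) ^ (3 * j) • E ∧
    (u ^ a * v ^ b * (u * v * u⁻¹ * v⁻¹) ^ t)⁻¹ * g ∈ ⁅⁅H, H⁆, H⁆

/-! ### F. Arithmetic -/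

/-- ARI.  `q` is a prime, the form `A a² + B a b + C b²` is anisotropic modulo `q`, `κ` is divisible
by `q` but not by `q²`.
Step 1: if `q ^ (2 J) ∣ A a² + B a b + C b²` then `q ^ J` divides `a` and `b` (descent).
Step 2: write `a = q ^ J a'`, `b = q ^ J b'`; dividing the hypothesis by `q ^ (2 J)`,
`q ^ J ∣ A a'² + B a' b' + C b'² + c² κ`.
Step 3: if `q ^ m ∣ A a'² + B a' b' + C b'² + c² κ` then `q ^ (m / 2) ∣ c`, by induction on `m` (step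
two): for `m ≥ 2`, `q` divides the form, so `a', b'`, hence `q²` divides `c² κ`, so `q ∣ c`; divide
by `q²`. -/
def Stmt_ARI : Prop := ∀ (q : ℕ), q.Prime → ∀ (A B C κ a b c m1 m2 m3 : ℤ) (J : ℕ),
  (∀ x y : ℤ, (q : ℤ) ∣ A * x ^ 2 + B * (x * y) + C * y ^ 2 → (q : ℤ) ∣ x ∧ (q : ℤ) ∣ y) →
  (q : ℤ) ∣ κ → ¬ (q : ℤ) ^ 2 ∣ κ →
  A * a ^ 2 + B * (a * b) + C * b ^ 2 +
    (q : ℤ) ^ (2 * J) * (c ^ 2 * κ + a * m1 + b * m2) + (q : ℤ) ^ (3 * J) * m3 = 0 →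
  (q : ℤ) ^ J ∣ a ∧ (q : ℤ) ^ J ∣ b ∧ (q : ℤ) ^ (J / 2) ∣ c

/-- The first target. -/
def U0 : V6 := (![1, 0, 0], ![1, 0, 0])

/-- The second target; `k` is the product of the odd primes dividing `K`. -/
def V0 (k z : ℤ) : V6 := (![0, 1, z], ![k, 2 * k - 1 - z ^ 2, 0])

/-- CHO.  The choice of `k` and `z`.  `k` is the product of the odd primes dividing `K`.  For every
odd prime `q` there is `z` such that `1 + z²` is not a square modulo `q`: otherwise the set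
of squares (with `0`) is closed under `x ↦ x + 1`, so everything is a square modulo `q`, which is
false for odd `q`.  Chinese remainder theorem: `z ≡ z_q` modulo all odd `q ∣ K` and `z` even.
`q` odd: the form is `x² - (1 + z²) y²` modulo `q`; if it is zero modulo `q` and `q ∤ y` then
`1 + z²` is a square modulo `q`; so `q ∣ y`, `q ∣ x`.  `q = 2`: the form is `x² + x y + y²`
modulo 2.  `2 k` is divisible by `q` and not by `q²` for every prime `q ∣ K` (`K` even). -/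
def Stmt_CHO : Prop := ∀ K : ℕ, 2 ≤ K → Even K → ∃ k z : ℤ, ∀ q : ℕ, q.Prime → q ∣ K →
  (∀ x y : ℤ, (q : ℤ) ∣ x ^ 2 + k * (x * y) + (2 * k - 1 - z ^ 2) * y ^ 2 →
    (q : ℤ) ∣ x ∧ (q : ℤ) ∣ y) ∧ (q : ℤ) ∣ 2 * k ∧ ¬ (q : ℤ) ^ 2 ∣ 2 * k

/-- ARK (from ARI).  Let `κ(U)`, `bil U V`, `κ(V)`, `κ(U × V)` be `A, B, C, κ₁`; modulo `K²` they are
`1, k, 2k - 1 - z², 2k` (`κ(crs U V) = |ω_U|² κ(V) + |ω_V|² κ(U) - ⟨ω_U, ω_V⟩ bil U V`, which for
`U0, V0` is `(2k - 1 - z²) + (1 + z²)`).  `bil U (crs U V) = bil V (crs U V) = 0` (identities).  With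
`c = a b + 2 t` the hypothesis is, after division by `K^(2j)`,
`A a² + B a b + C b² + K^(2j) (c² κ₁ + a bil U E + b bil V E) + K^(3j) (c bil (crs U V) E +
K^j κ(E)) = 0`.  Let `D` be a positive integer prime to `K` such that `D` times all of
`A, B, C, κ₁, bil U E, bil V E, bil (crs U V) E, κ(E)` are integers (product of the denominators),
and multiply by `D`.  Let `q ∣ K` be a prime, `n = v_q(K)`, `K = q^n k'`, `J = j n`,
`K^(2j) = q^(2J) k'^(2j)`.  ARI with `(D A, D B, D C)` (anisotropic modulo `q` by CHO's property and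
`D` prime to `q`), `κ = k'^(2j) D κ₁` (divisible by `q`, not by `q²`: `D κ₁ ≡ 2 k D` modulo `q²`):
`q^J` divides `a, b` and `q^(J / 2)` divides `c`.  As `j ≥ 4`: `J / 2 ≥ 2 n ≥ n + 1`, so
`q^(n + 1)` divides `c - a b = 2 t`, and `q^n ∣ t` (for `q = 2` cancel 2).  So all prime powers
dividing `K` divide `a, b, t`; `K ∣ a, b, t` (`Nat.dvd_iff_prime_pow_dvd_dvd` for `Int.natAbs`). -/
def Stmt_ARK : Prop := Stmt_ARI → ∀ (K j : ℕ) (k z : ℤ), 2 ≤ K → 4 ≤ j →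
  (∀ q : ℕ, q.Prime → q ∣ K →
    (∀ x y : ℤ, (q : ℤ) ∣ x ^ 2 + k * (x * y) + (2 * k - 1 - z ^ 2) * y ^ 2 →
      (q : ℤ) ∣ x ∧ (q : ℤ) ∣ y) ∧ (q : ℤ) ∣ 2 * k ∧ ¬ (q : ℤ) ^ 2 ∣ 2 * k) →
  ∀ (U V E : V6) (a b t : ℤ), Dv6 K 2 (U - U0) → Dv6 K 2 (V - V0 k z) → Dv6 K 0 E →
  kap ((K : ℚ) ^ j • ((a : ℚ) • U + (b : ℚ) • V) +
      (K : ℚ) ^ (2 * j) • (((a * b + 2 * t : ℤ) : ℚ) • crs U V) + (K : ℚ) ^ (3 * j) • E) = 0 →
  (K : ℤ) ∣ a ∧ (K : ℤ) ∣ b ∧ (K : ℤ) ∣ t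

/-- ODD.  The entries of a rational orthogonal matrix have odd denominators.  Row `(x, y, z)`,
`x² + y² + z² = 1`.  Let `N` be the least common denominator, `x = X/N` etc.,
`X² + Y² + Z² = N²`, `gcd(X, Y, Z, N) = 1`.  If `N` were even then `X² + Y² + Z² ≡ 0` modulo 4 gives
`X, Y, Z` even, a contradiction.  (Or: strong induction on `N` for the claim: if
`X² + Y² + Z² = N²`, `N > 0` then `(X / N : ℚ).den` is odd.) -/
def Stmt_ODD : Prop := ∀ A : Matrix (Fin 3) (Fin 3) ℚ, A * Aᵀ = 1 → ∀ i j, Odd (A i j).den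

/-! ### G. Free groups -/

/-- FRC.  Let `F` be a free group.  (1) `IsMulTorsionFree F` (`FreeGroup` has the instance; transport
along the isomorphism).  (2) An abelian normal subgroup `N ≠ ⊥` makes `F` commutative: `N` is free
(Nielsen-Schreier, `subgroupIsFreeOfIsFree`) and commutative, so it has at most one generator (two
different free generators do not commute), so `N` is cyclic, generated by some `n₀ ≠ 1`.  For
`g ∈ F`: `g n₀ g⁻¹` generates `N` too, so it is `n₀` or `n₀⁻¹` (`n₀` has infinite order), and `g²`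
commutes with `n₀`.  The subgroup generated by `g²` and `n₀` is free and commutative, so cyclic,
generated by `r`: `g² = r^i`, `n₀ = r^k`, `k ≠ 0`: `g^(2k) = n₀^i`.  Likewise `h^(2m) = n₀^l`, `m ≠ 0`.
So `g^(2kl) = n₀^(il) = h^(2mi)`.  If `i = 0` then `g = 1` by (1), if `l = 0` then `h = 1`; otherwise
`g^P = h^Q` with `P, Q ≠ 0`; then `(h g h⁻¹)^P = g^P`, so `h g h⁻¹ = g` by (1).
(3) If `g²` and `h²` commute then `g` and `h` commute: `(h² g h⁻²)² = g²`, so `h² g h⁻² = g` by (1);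
`(g h g⁻¹)² = h²`, so `g h g⁻¹ = h`. -/
def Stmt_FRC : Prop := ∀ (F : Type) [Group F] [IsFreeGroup F],
  (∀ (g : F) (n : ℕ), n ≠ 0 → g ^ n = 1 → g = 1) ∧
  (∀ N : Subgroup F, N.Normal → (∀ x ∈ N, ∀ y ∈ N, x * y = y * x) → N ≠ ⊥ →
    ∀ g h : F, g * h = h * g) ∧
  (∀ g h : F, g ^ 2 * h ^ 2 = h ^ 2 * g ^ 2 → g * h = h * g)

/-- CNV.  `H = ⟨u, v⟩` is free (Nielsen-Schreier) and not trivial, so it has a free generator `x`; the
homomorphism `H → Multiplicative (ZMod 2)` with `x ↦ 1` kills `[[H, H], H]` and all squares. -/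
def Stmt_CNV : Prop := ∀ (G : Type) [Group G] (F : Subgroup G), IsFreeGroup F → ∀ u ∈ F, ∀ v ∈ F,
  u * v ≠ v * u → ∀ H : Subgroup G, H = Subgroup.closure {u, v} →
  ∃ g ∈ H, g ∉ ⁅⁅H, H⁆, H⁆ ⊔ Subgroup.closure {x | ∃ h ∈ H, x = h ^ 2}

/-- HLF.  Let `A = lin f`, `t = trace A = -1`, `n = axis f`.  `|n|² = 3 - trace (A²)` (the rows of `A`
have length one: `∑ i j, (A i j)² = 3`) and `trace (A²) = t² - 2 t` by the trace of `rot_ch`; so
`|n|² = (3 - t)(1 + t) = 0`, `n = 0`, `A = Aᵀ`, `A A = A Aᵀ = 1`. -/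
def Stmt_HLF : Prop := ∀ f ∈ SIsom3, 1 + (lin f).trace = 0 → lin f * lin f = 1

/-- COM.  If `u v = v u` then `p p'` and `p' p` (`p = 1 + vq X.1`, `p' = 1 + vq Y.1`) represent the
same rotation `R = lin u * lin v` (`Rep.mul`; subtract the equations for `x` and `0`:
`μ (vq (R x) q - q vq x) = 0` for `q = p p'` and `q = p' p`, `μ ≠ 0`).  So with `q = p p'`,
`q' = p' p`: `q⁻¹ q'` commutes with all `vq x`, hence is a rational number `c`, `q' = c q`.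
The real parts of `q, q'` are both `1 - ⟨X.1, Y.1⟩ ≠ 0`, so `c = 1`, `p p' = p' p`, and the vector
part of `p p' - p' p` is `2 X.1 × Y.1`. -/
def Stmt_COM : Prop := ∀ (μ : ℚ), μ ≠ 0 → ∀ u ∈ Isom3, ∀ v ∈ Isom3, ∀ X Y : V6,
  Rep μ (nrm X) u → Rep μ (nrm Y) v → 1 - X.1 ⬝ᵥ Y.1 ≠ 0 → u * v = v * u →
  crossProduct X.1 Y.1 = 0

/-- PAR (from GIB).  If `f, g` are direct isometries, `1 + trace ≠ 0` for both and the axis vectors
are parallel then the linear parts commute.  The quaternions `p = 1 + vq ω`, `p' = 1 + vq ω'`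
(`ω = axis / (1 + trace)`) commute as `ω × ω' = 0`; `nrm (gib 0 f)` represents `f` with the scale
`0`... better directly: by GIB with `μ = 1`, `x` and `0` in `Rep`:
`vq (A x) p = p vq x` with `A = lin f` (subtract the equations for `x` and `0`), and the same for
`p'`, `A' = lin g`.  So `vq (A A' x) p p' = p p' vq x = p' p vq x = vq (A' A x) p' p`, and
`p p' = p' p ≠ 0`: `A A' x = A' A x`. -/
def Stmt_PAR : Prop := Stmt_GIB → ∀ f ∈ SIsom3, ∀ g ∈ SIsom3, 1 + (lin f).trace ≠ 0 →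
  1 + (lin g).trace ≠ 0 → crossProduct (axis f) (axis g) = 0 → lin f * lin g = lin g * lin f

/-- GEN (from FRC, PAR, HLF).  Free groups of isometries without common fixed point.
Let `a₀, b₀ ∈ F` not commute.
(1) `N = {f ∈ F | lin f = 1}` is a normal subgroup of `F` (as a subgroup of `↥F`), commutative, as
`f x = x + trn f` for its elements; so `N = ⊥` by FRC (2).
(2) is FRC (1).
(3) `a = a₀²`, `b = b₀²` are direct (`det_sq`) and do not commute by FRC (3); `lin a, lin b` do not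
commute by (1).  `1 + trace (lin a) ≠ 0`: otherwise `lin (a ^ 2) = 1` by HLF, `a ^ 2 = 1`, `a = 1` by (2)
against `a b ≠ b a`; the same for `b`.  By PAR `axis a × axis b ≠ 0`.
If `a, b` have no common fixed point take `c = 1`.  Otherwise let `x₀` be one.  It is the only one:
if `x₁` is another, `d = x₁ - x₀ ≠ 0`, `lin a *ᵥ d = d`, so `(lin a)ᵀ *ᵥ d = d`, `axis a × d = 0`,
likewise `axis b × d = 0`, so `axis a × axis b = 0` (both are multiples of `d`).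
If some direct `c ∈ F` has `c x₀ ≠ x₀`, take it.  Otherwise for all `g ∈ F` the elements `g⁻¹ a g`,
`g⁻¹ b g` are direct (determinants), so they fix `x₀`, so `a, b` fix `g x₀`, so `g x₀ = x₀`: `x₀` is a
common fixed point of `F`, against the hypothesis. -/
def Stmt_GEN : Prop := Stmt_FRC → Stmt_GIB → Stmt_PAR → Stmt_HLF →
  ∀ F : Subgroup (Equiv.Perm V3), F ≤ Isom3 → IsFreeGroup F →
  (∃ a ∈ F, ∃ b ∈ F, a * b ≠ b * a) → (¬ ∃ x : V3, ∀ g ∈ F, g x = x) →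
  (∀ f ∈ F, lin f = 1 → f = 1) ∧ (∀ f ∈ F, ∀ n : ℕ, n ≠ 0 → f ^ n = 1 → f = 1) ∧
  ∃ a ∈ F, ∃ b ∈ F, ∃ c ∈ F, a ∈ SIsom3 ∧ b ∈ SIsom3 ∧ c ∈ SIsom3 ∧
    crossProduct (axis a) (axis b) ≠ 0 ∧ ¬ ∃ x : V3, a x = x ∧ b x = x ∧ c x = x

/-- INT (from ODD).  `E` is the set of the primes which divide a denominator of an entry of
`lin a`, `lin b`, `lin c`; they are odd by ODD.  `μ` is the product of the denominators of the
coordinates of `trn a`, `trn b`, `trn c`.  If `K` is prime to `E` then the denominators of the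
entries are prime to `2 K`.  `Subgroup.closure_induction` with `lin_mul`, `trn_mul`, `lin_inv`,
`trn_inv` (`RK (2 K)` is a ring). -/
def Stmt_INT : Prop := Stmt_ODD → ∀ a ∈ SIsom3, ∀ b ∈ SIsom3, ∀ c ∈ SIsom3,
  ∃ E : Finset ℕ, (∀ q ∈ E, q.Prime ∧ Odd q) ∧ ∃ μ : ℚ, μ ≠ 0 ∧
    ∀ K : ℕ, 1 ≤ K → (∀ q ∈ E, ¬ q ∣ K) → ∀ f ∈ Subgroup.closure {a, b, c},
      (∀ i j, lin f i j ∈ RK (2 * K)) ∧ Dv3 (2 * K) 0 (μ • trn f)

end Pool.Agent.UVR
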