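import Pool.Agent.UVR.Stmts

/-!
# Rare fixed points in every free group of isometries of `ℚ³`: the exact set of the `K`

The theorem holds for every `K` such that `F` contains two non-commuting elements whose linear parts
have entries with denominators prime to `K`.
-/

set_option autoImplicit false

namespace Pool.Agent.UVR

open Matrix Quaternion

/-- CNJ (from RKA, LOC).  Let `A = lin a`, `C = lin c`.  By RKA (3) there is `h` with
`K ^ h * (C i k * C j l) ∈ RK K` for all `i, j, k, l` (the maximum of finitely many; `RK K` is closed under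
multiplication by `K`).  LOC with this `h` and `μ = 0` (for `x = a`; `0 • trn = 0`) gives `n ≥ 1` with
`A ^ n - 1` (i.e. `lin (a ^ n) - 1`) in `K ^ h`.  `lin (c * a ^ n * c⁻¹) = C * lin (a ^ n) * Cᵀ =
1 + C * (lin (a ^ n) - 1) * Cᵀ` (`lin_mul`, `lin_inv`, `lin_orth'`). -/
def Stmt_CNJ : Prop := Stmt_RKA → Stmt_LOC → ∀ K : ℕ, 2 ≤ K → ∀ a ∈ SIsom3, ∀ c ∈ Isom3,
  (∀ (n : ℕ) (i j : Fin 3), lin (a ^ n) i j ∈ RK K) →
  ∃ n : ℕ, 1 ≤ n ∧ ∀ i j, lin (c * a ^ n * c⁻¹) i j ∈ RK K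

/-- GNK (from GEN and its inputs, CNJ).  `F₀ = ⟨a₀, b₀⟩`; the linear parts of all its elements
have entries in `RK K` (closure induction, `lin_mul`, `lin_inv`; `RK K` is a ring).
Case 1: `F₀` has no common fixed point: GEN applied to `F₀` (a free group as a subgroup of `F`).
Case 2: `x₀` is a common fixed point of `F₀`; some `g ∈ F` has `g x₀ ≠ x₀`.  Let `a = a₀ ^ 2`,
`b = b₀ ^ 2`, direct (`det_sq`), not commuting by FRC (3) (for `↥F`).  CNJ gives `n, m ≥ 1` with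
`a' = g a^n g⁻¹`, `b' = g b^m g⁻¹` with linear parts in `RK K`.  Let
`F₁ = ⟨a, b, a', b'⟩ ≤ F`: all linear parts have entries in `RK K`.  Uniqueness (U): if `f, h ∈ F` are
direct and do not commute, they do not have two different common fixed points `x, x'`: GEN for `F` gives
(1) and (2) for `F`; `1 + trace (lin f) ≠ 0` (otherwise by HLF `lin (f ^ 2) = 1`, `f ^ 2 = 1`, `f = 1`), the
same for `h`; by PAR and (1) `axis f × axis h ≠ 0`; `d = x - x' ≠ 0` has `lin f *ᵥ d = d`, so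
`(lin f)ᵀ *ᵥ d = d`, `axis f × d = 0`, `axis h × d = 0`, so `axis f × axis h = 0`: contradiction.
`a^n` and `b^m` do not commute (if they did: `(b^m a b^(-m))^n = a^n`, so `b^m a b^(-m) = a` by unique
roots, and again `a b = b a`; unique roots in `F`: `FreeGroup` is `IsMulTorsionFree`; or take
`n = m = 2 ^ k`-free route: replace `a₀, b₀` by powers and use FRC (3)... any proof).  `F₁` has no
common fixed point: it would be `x₀` by (U) for `a, b`, and `g x₀` by (U) for `a', b'` (which fix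
`g x₀` and do not commute).  GEN applied to `F₁` (a free group, not commutative). -/
def Stmt_GNK : Prop := Stmt_FRC → Stmt_GIB → Stmt_PAR → Stmt_HLF → Stmt_GEN → Stmt_CNJ →
  Stmt_RKA → Stmt_LOC → ∀ K : ℕ, 2 ≤ K → ∀ F : Subgroup (Equiv.Perm V3), F ≤ Isom3 →
  IsFreeGroup F → (¬ ∃ x : V3, ∀ g ∈ F, g x = x) → ∀ a0 ∈ F, ∀ b0 ∈ F, a0 * b0 ≠ b0 * a0 →
  (∀ i j, lin a0 i j ∈ RK K) → (∀ i j, lin b0 i j ∈ RK K) →
  ∃ a ∈ F, ∃ b ∈ F, ∃ c ∈ F, a ∈ SIsom3 ∧ b ∈ SIsom3 ∧ c ∈ SIsom3 ∧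
    crossProduct (axis a) (axis b) ≠ 0 ∧ (¬ ∃ x : V3, a x = x ∧ b x = x ∧ c x = x) ∧
    (∀ i j, lin a i j ∈ RK K) ∧ (∀ i j, lin b i j ∈ RK K) ∧ (∀ i j, lin c i j ∈ RK K)

end Pool.Agent.UVR
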